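import Pool.Agent.P3.Crit

/-!
# Closing of the ports
-/

set_option autoImplicit false

open scoped BigOperators

namespace Pool.Agent.P3

open Pool.Agent.KG

/-- MODULE CLA (1).  Currents at an inner vertex (`Fintype.sum_sum_type`). -/
theorem net_clo_inl {V E W K : Type} [Fintype E] [Field K] (s t : E → V) (a : Fin 4 → V) (n : Fin 4 → W)
    (i : E → K) (j : Fin 4 → K) (v : V) :
    net (clS s n) (clT W t a) (Sum.elim i j) (Sum.inl v) =
      net s t i v - open Classical in ∑ k, if a k = v then j k else 0 := by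
  classical
  unfold net
  rw [Fintype.sum_sum_type, Fintype.sum_sum_type]
  simp only [clS, clT, Sum.elim_inl, Sum.elim_inr, Sum.inl.injEq, reduceCtorEq, if_false,
    Finset.sum_const_zero, add_zero]
  ring

/-- MODULE CLA (2).  Currents at an outer vertex. -/
theorem net_clo_inr {V E W K : Type} [Fintype E] [Field K] [DecidableEq W] (s t : E → V) (a : Fin 4 → V)
    (n : Fin 4 → W) (i : E → K) (j : Fin 4 → K) (w : W) :
    net (clS s n) (clT W t a) (Sum.elim i j) (Sum.inr w) = ∑ k, if n k = w then j k else 0 := by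
  classical
  unfold net
  rw [Fintype.sum_sum_type, Fintype.sum_sum_type]
  simp only [clS, clT, Sum.elim_inl, Sum.elim_inr, Sum.inr.injEq, reduceCtorEq, if_false,
    Finset.sum_const_zero, add_zero, zero_add, sub_zero]

/-- MODULE CLB.

Proof.  By `crit` (the vertex set `V ⊕ W` is nonempty).  A solution `(i', φ')` of the closed graph is `i' = Sum.elim i j`,
`φ' = Sum.elim φ ψ`; put `z = (j, φ ∘ a)`.  The equations are: `x e * i e = φ (s e) - φ (t e)`; `y k * j k = ψ (n k) -
φ (a k)`, i.e. `z.2 k + y k * z.1 k = ψ (n k)`; `net s t i v = ∑ k, if a k = v then j k else 0` (`net_clo_inl`);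
`∑ k, if n k = w then j k else 0 = 0` (`net_clo_inr`): together `(i, φ)` satisfies the equations in `Bad` for `z`
and `LamN n y z` holds with `ψ`.
(→) If `z ∈ Bad s t a x` (with `i`, `φ`) and `LamN n y z` (with `ψ`), then `i' = 0` and `φ'` is constant by hypothesis,
so `i = 0`, `z.1 = 0`, `φ` constant: contradiction to `z ∈ Bad`.
(←) Let `(i', φ')` be a solution.  As `LamN n y z`, `z ∉ Bad`, so `i = 0`, `j = 0`, `φ = c`; then
`ψ (n k) = z.2 k + 0 = c`, and `ψ = c` as `n` is surjective. -/
theorem clo {V E W K : Type} [Fintype V] [Fintype E] [Fintype W] [DecidableEq W] [Field K]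
    (s t : E → V) (a : Fin 4 → V) (n : Fin 4 → W) (hn : Function.Surjective n) (x : E → K) (y : Fin 4 → K) :
    sym (clS s n) (clT W t a) (Sum.elim x y) ≠ 0 ↔ ∀ z ∈ Bad s t a x, ¬ LamN n y z := by
  classical
  have hne : Nonempty (V ⊕ W) := ⟨Sum.inl (a 0)⟩
  rw [crit]
  constructor
  · rintro h z ⟨i, φ, h1, h2, h3, h4⟩ ⟨h5, ψ, h6⟩
    obtain ⟨h7, c, h8⟩ := h (Sum.elim i z.1) (Sum.elim φ ψ)
      (by
        rintro (e | k)
        · exact h1 e
        · show y k * z.1 k = ψ (n k) - φ (a k)
          rw [← h6, h3]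
          ring)
      (by
        rintro (v | w)
        · rw [net_clo_inl, h2, sub_self]
        · rw [net_clo_inr]
          exact h5 w)
    apply h4
    refine ⟨funext fun e => congrFun h7 (Sum.inl e), ⟨c, fun v => h8 (Sum.inl v)⟩,
      funext fun k => congrFun h7 (Sum.inr k)⟩
  · intro h i' φ' h1 h2
    let i : E → K := fun e => i' (Sum.inl e)
    let j : Fin 4 → K := fun k => i' (Sum.inr k)
    let φ : V → K := fun v => φ' (Sum.inl v)
    let ψ : W → K := fun w => φ' (Sum.inr w)
    have hi' : i' = Sum.elim i j := by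
      funext r
      rcases r with e | k <;> rfl
    have h3 : LamN n y (j, fun k => φ (a k)) := by
      refine ⟨fun w => ?_, ψ, fun k => ?_⟩
      · have h4 := h2 (Sum.inr w)
        rw [hi', net_clo_inr] at h4
        exact h4
      · have h4 : y k * j k = ψ (n k) - φ (a k) := h1 (Sum.inr k)
        show φ (a k) + y k * j k = ψ (n k)
        rw [h4]
        ring
    have h5 : ¬ (¬ (i = 0 ∧ (∃ c, ∀ v, φ v = c) ∧ j = 0)) := by
      intro h6
      refine h _ ⟨i, φ, fun e => h1 (Sum.inl e), fun v => ?_, fun k => rfl, h6⟩ h3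
      have h4 := h2 (Sum.inl v)
      rw [hi', net_clo_inl] at h4
      exact sub_eq_zero.1 h4
    obtain ⟨h6, ⟨c, h7⟩, h8⟩ := not_not.1 h5
    refine ⟨?_, c, ?_⟩
    · rw [hi', h6, h8]
      funext r
      rcases r with e | k <;> rfl
    · rintro (v | w)
      · exact h7 v
      · obtain ⟨k, rfl⟩ := hn w
        have h4 : y k * j k = ψ (n k) - φ (a k) := h1 (Sum.inr k)
        rw [h8, Pi.zero_apply, mul_zero, h7] at h4
        exact sub_eq_zero.1 h4.symm

/-- MODULE CLC.

Proof.  `ns .. F` is the number of `x' : E ⊕ Fin 4 → F.K` with `sym .. x' = 0`, i.e. `∑ x', if sym .. x' = 0 then 1 else 0`;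
`ev .. F = ∑ x, ∑ y, if (∀ z ∈ Bad s t a x, ¬ LamN n y z) then 1 else 0 = ∑ x', if sym .. x' ≠ 0 then 1 else 0` by `clo`
and `Equiv.sumArrowEquivProdArrow`.  The sum of both is the number `q ^ (card E + 4)` of all `x'`. -/
theorem ns_clo {V E W : Type} [Fintype V] [Fintype E] [Fintype W] [DecidableEq W] (s t : E → V)
    (a : Fin 4 → V) (n : Fin 4 → W) (hn : Function.Surjective n) (F : FinField) :
    ns (clS s n) (clT W t a) F = F.q ^ (Fintype.card E + 4) - ev (fun _ B => Cl n B) s t a F := by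
  classical
  have h1 : ns (clS s n) (clT W t a) F =
      ∑ x' : E ⊕ Fin 4 → F.K, if sym (clS s n) (clT W t a) x' = 0 then (1 : ℤ) else 0 := by
    unfold ns NS
    rw [Nat.card_eq_fintype_card, Fintype.card_subtype, Finset.sum_boole]
  have h2 : ev (fun _ B => Cl n B) s t a F =
      ∑ x' : E ⊕ Fin 4 → F.K, if sym (clS s n) (clT W t a) x' = 0 then (0 : ℤ) else 1 := by
    unfold ev Cl
    rw [← (Equiv.sumArrowEquivProdArrow E (Fin 4) F.K).symm.sum_comp, Fintype.sum_prod_type]
    refine Finset.sum_congr (by congr) fun x _ => ?_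
    refine Finset.sum_congr (by congr) fun y _ => ?_
    have h3 := clo s t a n hn x y
    have h4 : (Equiv.sumArrowEquivProdArrow E (Fin 4) F.K).symm (x, y) = Sum.elim x y := rfl
    rw [h4]
    by_cases h5 : sym (clS s n) (clT W t a) (Sum.elim x y) = 0
    · rw [if_pos h5, if_neg (fun h6 => h3.2 h6 h5)]
    · rw [if_neg h5, if_pos (h3.1 h5)]
  have h3 : ∑ x' : E ⊕ Fin 4 → F.K, (1 : ℤ) = F.q ^ (Fintype.card E + 4) := by
    rw [Finset.sum_const, Finset.card_univ, Fintype.card_fun, Fintype.card_sum, Fintype.card_fin,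
      nsmul_eq_mul, mul_one, Nat.cast_pow]
    unfold FinField.q
    rw [Nat.card_eq_fintype_card]
  rw [h1, h2, ← h3, ← Finset.sum_sub_distrib]
  refine Finset.sum_congr rfl fun x' _ => ?_
  split_ifs <;> simp

end Pool.Agent.P3
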