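import Pool.Agent.P3.Defs

/-!
# The function `C` depends only on the two invariants
-/

set_option autoImplicit false

open scoped BigOperators

namespace Pool.Agent.P3

open Pool.Agent.KG

variable {K : Type} [Field K] [Fintype K]

omit [Fintype K] in
private theorem CSH_mv (Q Q' : Matrix (Fin 4) (Fin 4) K) (d w w' : Fin 4 → K)
    (h : ∀ k l, Q' k l = Q k l + (if k = l then d k else 0) + w l + w' k) (y j : Fin 4 → K) (k : Fin 4) :
    (Q' + Matrix.diagonal y).mulVec j k =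
      (Q + Matrix.diagonal (y + d)).mulVec j k + ∑ l, w l * j l + w' k * ∑ l, j l := by
  have e1 : ∀ l, (Q' + Matrix.diagonal y) k l * j l = (Q + Matrix.diagonal (y + d)) k l * j l +
      w l * j l + w' k * j l := by
    intro l
    rw [Matrix.add_apply, Matrix.add_apply, Matrix.diagonal_apply, Matrix.diagonal_apply, h]
    by_cases hkl : k = l
    · rw [if_pos hkl, if_pos hkl, if_pos hkl, Pi.add_apply]
      ring
    · rw [if_neg hkl, if_neg hkl, if_neg hkl]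
      ring
  show ∑ l, (Q' + Matrix.diagonal y) k l * j l = ∑ l, (Q + Matrix.diagonal (y + d)) k l * j l + _ + _
  rw [Finset.sum_congr rfl fun l _ => e1 l, Finset.sum_add_distrib, Finset.sum_add_distrib,
    ← Finset.mul_sum]

omit [Fintype K] in
private theorem CSH_lam (Q Q' : Matrix (Fin 4) (Fin 4) K) (d w w' : Fin 4 → K)
    (h : ∀ k l, Q' k l = Q k l + (if k = l then d k else 0) + w l + w' k) (y : Fin 4 → K) (z : Pt K) :
    Lam (Q' + Matrix.diagonal y) z ↔ Lam (Q + Matrix.diagonal (y + d)) z := by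
  constructor
  · rintro ⟨h0, c, hc⟩
    refine ⟨h0, c - ∑ l, w l * z.1 l, fun k => ?_⟩
    rw [← hc k, CSH_mv Q Q' d w w' h, h0]
    ring
  · rintro ⟨h0, c, hc⟩
    refine ⟨h0, c + ∑ l, w l * z.1 l, fun k => ?_⟩
    rw [← hc k, CSH_mv Q Q' d w w' h, h0]
    ring

/-- MODULE CSH.  Adding a diagonal matrix, equal rows and equal columns to `Q` changes nothing.

Proof.  If `∑ k, j k = 0` then `(Q' + diagonal y).mulVec j k = (Q + diagonal (y + d)).mulVec j k + ∑ l, w l * j l`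
(the term `w' k * ∑ l, j l` vanishes), so `Lam (Q' + diagonal y) z ↔ Lam (Q + diagonal (y + d)) z` for all `z`
(the constant `c` changes by `∑ l, w l * z.1 l`).  Now substitute `y ↦ y + d` in the sum (`Equiv.addRight d`,
`Fintype.sum_equiv`).  `Fin.sum_univ_four` and `Matrix.mulVec`, `dotProduct` make all sums explicit. -/
theorem C_shift (Q Q' : Matrix (Fin 4) (Fin 4) K) (d w w' : Fin 4 → K)
    (h : ∀ k l, Q' k l = Q k l + (if k = l then d k else 0) + w l + w' k) (B : Set (Pt K)) :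
    C Q' B = C Q B := by
  classical
  unfold C
  refine Fintype.sum_equiv (Equiv.addRight d) _ _ fun y => ?_
  have h1 : (∀ z ∈ B, ¬ Lam (Q' + Matrix.diagonal y) z) ↔
      ∀ z ∈ B, ¬ Lam (Q + Matrix.diagonal ((Equiv.addRight d) y)) z :=
    forall_congr' fun z => imp_congr_right fun _ => not_congr (CSH_lam Q Q' d w w' h y z)
  by_cases h2 : ∀ z ∈ B, ¬ Lam (Q' + Matrix.diagonal y) z
  · rw [if_pos h2, if_pos (h1.1 h2)]
  · rw [if_neg h2, if_neg fun h3 => h2 (h1.2 h3)]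

/-- MODULE CCG.  Symmetric matrices with the same invariants have the same `C`.

Proof.  Let `D = Q' - Q`, a symmetric matrix with `D 0 2 + D 1 3 = D 0 3 + D 1 2` and
`D 0 1 + D 2 3 = D 0 2 + D 1 3`.  Put `s = D 0 1 + D 0 2 - D 1 2`, `w 0 = 0`, `w k = D 0 k - s` for `k ≠ 0`,
`w' k = w k + s`, `d k = D k k - 2 * w k - s`.  Then `D k l = (if k = l then d k else 0) + w l + w' k` for all
`k`, `l` (16 cases; `Fin.forall_fin_succ` or `fin_cases`), and `C_shift` applies. -/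
theorem C_congr (Q Q' : Matrix (Fin 4) (Fin 4) K) (hQ : Q.IsSymm) (hQ' : Q'.IsSymm) (ha : al Q' = al Q)
    (hb : be Q' = be Q) (B : Set (Pt K)) : C Q' B = C Q B := by
  have q1 := hQ.apply
  have q2 := hQ'.apply
  unfold al at ha
  unfold be at hb
  let s : K := (Q' 0 1 - Q 0 1) + (Q' 0 2 - Q 0 2) - (Q' 1 2 - Q 1 2)
  let w : Fin 4 → K := ![0, (Q' 0 1 - Q 0 1) - s, (Q' 0 2 - Q 0 2) - s, (Q' 0 3 - Q 0 3) - s]
  refine C_shift Q Q' (fun k => (Q' k k - Q k k) - 2 * w k - s) w (fun k => w k + s) (fun k l => ?_) B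
  have w0 : w 0 = 0 := rfl
  have w1 : w 1 = (Q' 0 1 - Q 0 1) - s := rfl
  have w2 : w 2 = (Q' 0 2 - Q 0 2) - s := rfl
  have w3 : w 3 = (Q' 0 3 - Q 0 3) - s := rfl
  have hs : s = (Q' 0 1 - Q 0 1) + (Q' 0 2 - Q 0 2) - (Q' 1 2 - Q 1 2) := rfl
  clear_value s w
  fin_cases k <;> fin_cases l
  · show Q' 0 0 = Q 0 0 + (if (0 : Fin 4) = 0 then (Q' 0 0 - Q 0 0) - 2 * w 0 - s else 0) + w 0 + (w 0 + s)
    rw [if_pos rfl]
    ring
  · show Q' 0 1 = Q 0 1 + 0 + w 1 + (w 0 + s)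
    linear_combination -w0 - w1
  · show Q' 0 2 = Q 0 2 + 0 + w 2 + (w 0 + s)
    linear_combination -w0 - w2
  · show Q' 0 3 = Q 0 3 + 0 + w 3 + (w 0 + s)
    linear_combination -w0 - w3
  · show Q' 1 0 = Q 1 0 + 0 + w 0 + (w 1 + s)
    linear_combination -w0 - w1 + q2 0 1 - q1 0 1
  · show Q' 1 1 = Q 1 1 + (if (1 : Fin 4) = 1 then (Q' 1 1 - Q 1 1) - 2 * w 1 - s else 0) + w 1 + (w 1 + s)
    rw [if_pos rfl]
    ring
  · show Q' 1 2 = Q 1 2 + 0 + w 2 + (w 1 + s)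
    linear_combination -w1 - w2 + hs
  · show Q' 1 3 = Q 1 3 + 0 + w 3 + (w 1 + s)
    linear_combination -w1 - w3 + hs + ha
  · show Q' 2 0 = Q 2 0 + 0 + w 0 + (w 2 + s)
    linear_combination -w0 - w2 + q2 0 2 - q1 0 2
  · show Q' 2 1 = Q 2 1 + 0 + w 1 + (w 2 + s)
    linear_combination -w1 - w2 + hs + q2 1 2 - q1 1 2
  · show Q' 2 2 = Q 2 2 + (if (2 : Fin 4) = 2 then (Q' 2 2 - Q 2 2) - 2 * w 2 - s else 0) + w 2 + (w 2 + s)
    rw [if_pos rfl]
    ring
  · show Q' 2 3 = Q 2 3 + 0 + w 3 + (w 2 + s)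
    linear_combination -w2 - w3 + hs + ha + hb
  · show Q' 3 0 = Q 3 0 + 0 + w 0 + (w 3 + s)
    linear_combination -w0 - w3 + q2 0 3 - q1 0 3
  · show Q' 3 1 = Q 3 1 + 0 + w 1 + (w 3 + s)
    linear_combination -w1 - w3 + hs + ha + q2 1 3 - q1 1 3
  · show Q' 3 2 = Q 3 2 + 0 + w 2 + (w 3 + s)
    linear_combination -w2 - w3 + hs + ha + hb + q2 2 3 - q1 2 3
  · show Q' 3 3 = Q 3 3 + (if (3 : Fin 4) = 3 then (Q' 3 3 - Q 3 3) - 2 * w 3 - s else 0) + w 3 + (w 3 + s)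
    rw [if_pos rfl]
    ring

omit [Fintype K] in
theorem mt_symm (α β : K) : (mt α β).IsSymm := by
  ext i j
  fin_cases i <;> fin_cases j <;> rfl

omit [Fintype K] in
theorem al_mt (α β : K) : al (mt α β) = α := by
  simp [al, mt]

omit [Fintype K] in
theorem be_mt (α β : K) : be (mt α β) = β := by
  simp [be, mt]

theorem C_eq_cf (Q : Matrix (Fin 4) (Fin 4) K) (hQ : Q.IsSymm) (B : Set (Pt K)) :
    C Q B = cf (al Q) (be Q) B :=
  C_congr _ _ (mt_symm _ _) hQ (al_mt _ _).symm (be_mt _ _).symm B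

end Pool.Agent.P3
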