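import Pool.Agent.P3.Defs

/-!
# Counting lemmas over a finite field
-/

set_option autoImplicit false

open scoped BigOperators

namespace Pool.Agent.P3

open Pool.Agent.KG

variable {K : Type} [Field K] [Fintype K]

private theorem LIN_const (c : ℤ) : ∑ _x : K, c = qK K * c := by
  rw [Finset.sum_const, Finset.card_univ, nsmul_eq_mul]

private theorem LIN_tr1 (f : K → ℤ) (a b : K) (ha : a ≠ 0) :
    ∑ x : K, f (b + a * x) = ∑ κ : K, f κ :=
  Fintype.sum_equiv ((Equiv.mulLeft₀ a ha).trans (Equiv.addLeft b)) _ _ fun _ => rfl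

private theorem LIN_tr2 (f : K → K → ℤ) (a b e c d e' : K) (h : a * d - b * c ≠ 0) :
    ∑ x : K, ∑ y : K, f (e + a * x + b * y) (e' + c * x + d * y) = ∑ α : K, ∑ β : K, f α β := by
  rw [← Fintype.sum_prod_type' (fun x y => f (e + a * x + b * y) (e' + c * x + d * y)),
    ← Fintype.sum_prod_type' f]
  have hinj : Function.Injective (fun p : K × K =>
      (e + a * p.1 + b * p.2, e' + c * p.1 + d * p.2)) := by
    rintro ⟨x, y⟩ ⟨x', y'⟩ hxy
    have h1 : e + a * x + b * y = e + a * x' + b * y' := congrArg Prod.fst hxy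
    have h2 : e' + c * x + d * y = e' + c * x' + d * y' := congrArg Prod.snd hxy
    have h3 : (a * d - b * c) * (x - x') = 0 := by linear_combination d * h1 - b * h2
    have h4 : (a * d - b * c) * (y - y') = 0 := by linear_combination a * h2 - c * h1
    have h5 : x = x' := sub_eq_zero.1 ((mul_eq_zero.1 h3).resolve_left h)
    have h6 : y = y' := sub_eq_zero.1 ((mul_eq_zero.1 h4).resolve_left h)
    rw [h5, h6]
  exact Fintype.sum_bijective _ (Finite.injective_iff_bijective.1 hinj) _ _ fun _ => rfl

/-- MODULE LIN (1).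

Proof.  In each case substitute in one of the three sums (`Fintype.sum_equiv`, e.g. `x ↦ c + l1 * x + l2 * y + l3 * z`
for fixed `y`, `z` if `l1 ≠ 0`); in the other two cases change the order of summation first. -/
theorem lin1 (f : K → ℤ) (c l1 l2 l3 : K) (h : l1 ≠ 0 ∨ l2 ≠ 0 ∨ l3 ≠ 0) :
    ∑ x : K, ∑ y : K, ∑ z : K, f (c + l1 * x + l2 * y + l3 * z) = qK K ^ 2 * ∑ κ : K, f κ := by
  rcases h with h | h | h
  · calc ∑ x : K, ∑ y : K, ∑ z : K, f (c + l1 * x + l2 * y + l3 * z)
        = ∑ y : K, ∑ z : K, ∑ x : K, f (c + l1 * x + l2 * y + l3 * z) := by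
          rw [Finset.sum_comm]
          exact Finset.sum_congr rfl fun y _ => Finset.sum_comm
      _ = ∑ _y : K, ∑ _z : K, ∑ κ : K, f κ := by
          refine Finset.sum_congr rfl fun y _ => Finset.sum_congr rfl fun z _ => ?_
          rw [← LIN_tr1 f l1 (c + l2 * y + l3 * z) h]
          refine Finset.sum_congr rfl fun x _ => ?_
          congr 1
          ring
      _ = qK K ^ 2 * ∑ κ : K, f κ := by
          rw [LIN_const, LIN_const]
          ring
  · calc ∑ x : K, ∑ y : K, ∑ z : K, f (c + l1 * x + l2 * y + l3 * z)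
        = ∑ x : K, ∑ z : K, ∑ y : K, f (c + l1 * x + l2 * y + l3 * z) :=
          Finset.sum_congr rfl fun x _ => Finset.sum_comm
      _ = ∑ _x : K, ∑ _z : K, ∑ κ : K, f κ := by
          refine Finset.sum_congr rfl fun x _ => Finset.sum_congr rfl fun z _ => ?_
          rw [← LIN_tr1 f l2 (c + l1 * x + l3 * z) h]
          refine Finset.sum_congr rfl fun y _ => ?_
          congr 1
          ring
      _ = qK K ^ 2 * ∑ κ : K, f κ := by
          rw [LIN_const, LIN_const]
          ring
  · calc ∑ x : K, ∑ y : K, ∑ z : K, f (c + l1 * x + l2 * y + l3 * z)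
        = ∑ _x : K, ∑ _y : K, ∑ κ : K, f κ := by
          refine Finset.sum_congr rfl fun x _ => Finset.sum_congr rfl fun y _ => ?_
          exact LIN_tr1 f l3 (c + l1 * x + l2 * y) h
      _ = qK K ^ 2 * ∑ κ : K, f κ := by
          rw [LIN_const, LIN_const]
          ring

/-- MODULE LIN (2).

Proof.  If `l1 * m2 - l2 * m1 ≠ 0`, then for fixed `z` the map `(x, y) ↦ (c + l1 x + l2 y + l3 z, c' + m1 x + m2 y + m3 z)`
is a bijection of `K × K` (injective by Cramer, `Finite.injective_iff_bijective`), so the inner double sum is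
`∑ α, ∑ β, f α β`, and the sum over `z` gives the factor `q`.  The other cases by changing the order of summation. -/
theorem lin2 (f : K → K → ℤ) (c l1 l2 l3 c' m1 m2 m3 : K)
    (h : l1 * m2 - l2 * m1 ≠ 0 ∨ l1 * m3 - l3 * m1 ≠ 0 ∨ l2 * m3 - l3 * m2 ≠ 0) :
    ∑ x : K, ∑ y : K, ∑ z : K, f (c + l1 * x + l2 * y + l3 * z) (c' + m1 * x + m2 * y + m3 * z) =
      qK K * ∑ α : K, ∑ β : K, f α β := by
  rcases h with h | h | h
  · calc ∑ x : K, ∑ y : K, ∑ z : K,
          f (c + l1 * x + l2 * y + l3 * z) (c' + m1 * x + m2 * y + m3 * z)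
        = ∑ z : K, ∑ x : K, ∑ y : K,
          f (c + l1 * x + l2 * y + l3 * z) (c' + m1 * x + m2 * y + m3 * z) := by
          rw [Finset.sum_congr rfl fun x _ => Finset.sum_comm]
          exact Finset.sum_comm
      _ = ∑ _z : K, ∑ α : K, ∑ β : K, f α β := by
          refine Finset.sum_congr rfl fun z _ => ?_
          rw [← LIN_tr2 f l1 l2 (c + l3 * z) m1 m2 (c' + m3 * z) h]
          refine Finset.sum_congr rfl fun x _ => Finset.sum_congr rfl fun y _ => ?_
          congr 1 <;> ring
      _ = qK K * ∑ α : K, ∑ β : K, f α β := LIN_const _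
  · calc ∑ x : K, ∑ y : K, ∑ z : K,
          f (c + l1 * x + l2 * y + l3 * z) (c' + m1 * x + m2 * y + m3 * z)
        = ∑ y : K, ∑ x : K, ∑ z : K,
          f (c + l1 * x + l2 * y + l3 * z) (c' + m1 * x + m2 * y + m3 * z) := Finset.sum_comm
      _ = ∑ _y : K, ∑ α : K, ∑ β : K, f α β := by
          refine Finset.sum_congr rfl fun y _ => ?_
          rw [← LIN_tr2 f l1 l3 (c + l2 * y) m1 m3 (c' + m2 * y) h]
          refine Finset.sum_congr rfl fun x _ => Finset.sum_congr rfl fun z _ => ?_
          congr 1 <;> ring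
      _ = qK K * ∑ α : K, ∑ β : K, f α β := LIN_const _
  · calc ∑ x : K, ∑ y : K, ∑ z : K,
          f (c + l1 * x + l2 * y + l3 * z) (c' + m1 * x + m2 * y + m3 * z)
        = ∑ _x : K, ∑ α : K, ∑ β : K, f α β := by
          refine Finset.sum_congr rfl fun x _ => ?_
          exact LIN_tr2 f l2 l3 (c + l1 * x) m2 m3 (c' + m1 * x) h
      _ = qK K * ∑ α : K, ∑ β : K, f α β := LIN_const _

open Classical in
private theorem CNB_inner (f : K → ℤ) (t : K) :
    ∑ S : K, (if S = 0 then 0 else f (t * S⁻¹)) =
      if t = 0 then (qK K - 1) * f 0 else ∑ κ : K, f κ - f 0 := by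
  have h1 : ∀ S : K, (if S = 0 then 0 else f (t * S⁻¹)) =
      f (t * S⁻¹) - if S = 0 then f 0 else 0 := by
    intro S
    by_cases hS : S = 0
    · rw [if_pos hS, if_pos hS, hS, inv_zero, mul_zero, sub_self]
    · rw [if_neg hS, if_neg hS, sub_zero]
  rw [Finset.sum_congr rfl fun S _ => h1 S, Finset.sum_sub_distrib, Finset.sum_ite_eq',
    if_pos (Finset.mem_univ _)]
  by_cases ht : t = 0
  · rw [if_pos ht, ht]
    simp only [zero_mul]
    rw [LIN_const]
    ring
  · rw [if_neg ht]
    congr 1
    exact Fintype.sum_equiv ((Equiv.inv K).trans (Equiv.mulLeft₀ t ht)) _ _ fun _ => rfl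

open Classical in
/-- MODULE CNB.

Proof.  For `y = 0` or `y' = 0` (`2 q - 1` pairs) the inner sum is `(q - 1) * f 0`; otherwise `S ↦ y * y' * S⁻¹` is a
bijection of `K ∖ {0}`, and the inner sum is `∑ f - f 0`.  Total `(q - 1)² (∑ f - f 0) + (2 q - 1) (q - 1) f 0`. -/
theorem cnt2 (f : K → ℤ) :
    ∑ y : K, ∑ y' : K, ∑ S : K, (if S = 0 then 0 else f (y * y' * S⁻¹)) =
      (qK K - 1) ^ 2 * ∑ κ : K, f κ + qK K * (qK K - 1) * f 0 := by
  have h1 : ∀ y y' : K, ∑ S : K, (if S = 0 then 0 else f (y * y' * S⁻¹)) =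
      (∑ κ : K, f κ - f 0) + ((if y = 0 then (qK K - 1) * f 0 - (∑ κ : K, f κ - f 0) else 0) +
        ((if y' = 0 then (qK K - 1) * f 0 - (∑ κ : K, f κ - f 0) else 0) -
          if y = 0 then if y' = 0 then (qK K - 1) * f 0 - (∑ κ : K, f κ - f 0) else 0 else 0)) := by
    intro y y'
    rw [CNB_inner]
    by_cases hy : y = 0
    · rw [if_pos (by rw [hy, zero_mul]), if_pos hy, if_pos hy]
      by_cases hy' : y' = 0
      · rw [if_pos hy']
        ring
      · rw [if_neg hy']
        ring
    · rw [if_neg hy, if_neg hy]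
      by_cases hy' : y' = 0
      · rw [if_pos (by rw [hy', mul_zero]), if_pos hy']
        ring
      · rw [if_neg (mul_ne_zero hy hy'), if_neg hy']
        ring
  rw [Finset.sum_congr rfl fun y _ => Finset.sum_congr rfl fun y' _ => h1 y y']
  simp only [Finset.sum_add_distrib, Finset.sum_sub_distrib, Finset.sum_ite_eq', Finset.mem_univ,
    if_true, LIN_const]
  have h2 : ∀ (A : ℤ) (y : K), ∑ y' : K, (if y = 0 then if y' = 0 then A else 0 else 0) =
      if y = 0 then A else 0 := by
    intro A y
    by_cases hy : y = 0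
    · simp only [if_pos hy, Finset.sum_ite_eq', Finset.mem_univ, if_true]
    · simp only [if_neg hy, Finset.sum_const_zero]
  simp only [h2, Finset.sum_ite_eq', Finset.mem_univ, if_true, ← Finset.mul_sum]
  ring

open Classical in
/-- The number of solutions of the equations of the four-cycle. -/
noncomputable def cN (κ κ' : K) : ℤ :=
  ∑ x : K, ∑ r : K, ∑ y : K, ∑ y' : K, if x + r + y + y' ≠ 0 ∧ x * r = κ * (x + r + y + y') ∧
    y * y' = κ' * (x + r + y + y') then 1 else 0

open Classical in
private theorem CNA_ne0 : ∑ S : K, (if S = 0 then (0 : ℤ) else 1) = qK K - 1 := by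
  have h1 : ∀ S : K, (if S = 0 then (0 : ℤ) else 1) = 1 - if S = 0 then 1 else 0 := by
    intro S
    split_ifs <;> rfl
  rw [Finset.sum_congr rfl fun S _ => h1 S, Finset.sum_sub_distrib, LIN_const,
    Finset.sum_ite_eq', if_pos (Finset.mem_univ _), mul_one]

open Classical in
private theorem CNA_S (D E : K) : ∑ S : K, (if S ≠ 0 ∧ S * D = E then (1 : ℤ) else 0) =
    if D = 0 then (if E = 0 then qK K - 1 else 0) else (if E = 0 then 0 else 1) := by
  by_cases hD : D = 0
  · rw [if_pos hD]
    by_cases hE : E = 0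
    · rw [if_pos hE, ← CNA_ne0]
      refine Finset.sum_congr rfl fun S _ => ?_
      rw [hD, hE, mul_zero]
      by_cases hS : S = 0
      · rw [if_pos hS, if_neg (fun h => h.1 hS)]
      · rw [if_neg hS, if_pos ⟨hS, rfl⟩]
    · rw [if_neg hE]
      refine Finset.sum_eq_zero fun S _ => if_neg fun h => hE ?_
      rw [← h.2, hD, mul_zero]
  · rw [if_neg hD, Finset.sum_eq_single (E * D⁻¹)]
    · by_cases hE : E = 0
      · rw [if_pos hE, if_neg]
        intro h
        exact h.1 (by rw [hE, zero_mul])
      · rw [if_neg hE, if_pos]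
        refine ⟨mul_ne_zero hE (inv_ne_zero hD), ?_⟩
        rw [mul_assoc, inv_mul_cancel₀ hD, mul_one]
    · intro S _ hS
      rw [if_neg]
      rintro ⟨-, h⟩
      apply hS
      rw [← h, mul_assoc, mul_inv_cancel₀ hD, mul_one]
    · intro h
      exact absurd (Finset.mem_univ _) h

open Classical in
private theorem CNA_start (κ κ' : K) : cN κ κ' = ∑ x : K, ∑ y : K, ∑ S : K, ∑ r : K,
    if S ≠ 0 ∧ x * r = κ * S ∧ y * (S - x - r - y) = κ' * S then 1 else 0 := by
  unfold cN
  refine Finset.sum_congr rfl fun x _ => ?_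
  rw [Finset.sum_comm]
  refine Finset.sum_congr rfl fun y _ => ?_
  rw [Finset.sum_comm (s := (Finset.univ : Finset K)) (t := (Finset.univ : Finset K))
    (f := fun S r => if S ≠ 0 ∧ x * r = κ * S ∧ y * (S - x - r - y) = κ' * S then (1 : ℤ) else 0)]
  refine Finset.sum_congr rfl fun r _ => ?_
  refine Fintype.sum_equiv (Equiv.addLeft (x + r + y)) _ _ fun y' => ?_
  rw [Equiv.coe_addLeft]
  have h1 : x + r + y + y' - x - r - y = y' := by ring
  rw [h1]

open Classical in
/-- MODULE CNA (1).

Proof.  `x ≠ 0` and `y ≠ 0` (else `κ S = 0`).  With `S = x + r + y + y'`: `r = κ S / x`, `y' = κ' S / y`, and `S (1 - κ/x -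
κ'/y) = x + y`.  So `cN κ κ' = #{(x, y, S) : x, y, S ≠ 0, S (x y - κ y - κ' x) = x y (x + y)}`.  For given `x, y ≠ 0`:
if `x y - κ y - κ' x ≠ 0` there is one `S`, nonzero iff `x + y ≠ 0`; if `x y - κ y - κ' x = 0` there are `q - 1` values
`S` if `x + y = 0`, and none otherwise.  The curve `x y = κ y + κ' x`, `(x - κ) (y - κ') = κ κ'`, has `q - 2` points
with `x, y ≠ 0` (`x = κ + t`, `y = κ' + κ κ' / t`, `t ≠ 0, -κ`), the line `x + y = 0` has `q - 1`, and
they meet in one point `x = κ - κ'` if `κ ≠ κ'` (there `-x² = -κ x + κ' x`), in none if `κ = κ'`.  With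
`e = [κ ≠ κ']`: `cN = (q-1)² - (q-2) - (q-1) + e + (q-1) e = q² - 4 q + 4 + q e`. -/
theorem cN_ne (κ κ' : K) (h : κ ≠ 0) (h' : κ' ≠ 0) :
    cN κ κ' = qK K ^ 2 - 3 * qK K + 4 - qK K * (if κ = κ' then 1 else 0) := by
  rw [CNA_start]
  have h1 : ∀ x y : K, ∑ S : K, ∑ r : K,
      (if S ≠ 0 ∧ x * r = κ * S ∧ y * (S - x - r - y) = κ' * S then (1 : ℤ) else 0) =
      if x = 0 ∨ y = 0 then 0 else
        1 - (if x * y - κ * y - κ' * x = 0 then 1 else 0) - (if x + y = 0 then 1 else 0) +
          qK K * (if x * y - κ * y - κ' * x = 0 ∧ x + y = 0 then 1 else 0) := by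
    intro x y
    by_cases hx : x = 0
    · rw [if_pos (Or.inl hx)]
      refine Finset.sum_eq_zero fun S _ => Finset.sum_eq_zero fun r _ => if_neg ?_
      rintro ⟨h2, h3, -⟩
      rw [hx, zero_mul] at h3
      exact (mul_ne_zero h h2) h3.symm
    by_cases hy : y = 0
    · rw [if_pos (Or.inr hy)]
      refine Finset.sum_eq_zero fun S _ => Finset.sum_eq_zero fun r _ => if_neg ?_
      rintro ⟨h2, -, h3⟩
      rw [hy, zero_mul] at h3
      exact (mul_ne_zero h' h2) h3.symm
    rw [if_neg (not_or.2 ⟨hx, hy⟩)]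
    have h2 : ∀ S : K, ∑ r : K,
        (if S ≠ 0 ∧ x * r = κ * S ∧ y * (S - x - r - y) = κ' * S then (1 : ℤ) else 0) =
        if S ≠ 0 ∧ S * (x * y - κ * y - κ' * x) = x * y * (x + y) then 1 else 0 := by
      intro S
      rw [Finset.sum_eq_single (κ * S * x⁻¹)]
      · have h3 : x * (κ * S * x⁻¹) = κ * S := by field_simp
        have h4 : (y * (S - x - κ * S * x⁻¹ - y) = κ' * S) ↔
            S * (x * y - κ * y - κ' * x) = x * y * (x + y) := by
          constructor
          · intro h5
            have h6 : x * (y * (S - x - κ * S * x⁻¹ - y)) = x * (κ' * S) := by rw [h5]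
            have h7 : x * (y * (S - x - κ * S * x⁻¹ - y)) =
                y * (x * S - x * x - x * (κ * S * x⁻¹) - x * y) := by ring
            rw [h7, h3] at h6
            linear_combination h6
          · intro h5
            apply mul_left_cancel₀ hx
            have h7 : x * (y * (S - x - κ * S * x⁻¹ - y)) =
                y * (x * S - x * x - x * (κ * S * x⁻¹) - x * y) := by ring
            rw [h7, h3]
            linear_combination h5
        simp only [h3, h4, true_and]
      · intro r _ hr
        rw [if_neg]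
        rintro ⟨-, h3, -⟩
        apply hr
        rw [← h3]
        field_simp
      · intro h3
        exact absurd (Finset.mem_univ _) h3
    rw [Finset.sum_congr rfl fun S _ => h2 S, CNA_S]
    have h3 : (x * y * (x + y) = 0) ↔ x + y = 0 := by
      rw [mul_eq_zero]
      exact ⟨fun h4 => h4.resolve_left (mul_ne_zero hx hy), Or.inr⟩
    by_cases h4 : x * y - κ * y - κ' * x = 0 <;> by_cases h5 : x + y = 0
    · rw [if_pos h4, if_pos (h3.2 h5), if_pos h4, if_pos h5, if_pos ⟨h4, h5⟩]
      ring
    · rw [if_pos h4, if_neg (fun h6 => h5 (h3.1 h6)), if_pos h4, if_neg h5,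
        if_neg (fun h6 => h5 h6.2)]
      ring
    · rw [if_neg h4, if_pos (h3.2 h5), if_neg h4, if_pos h5, if_neg (fun h6 => h4 h6.1)]
      ring
    · rw [if_neg h4, if_neg (fun h6 => h5 (h3.1 h6)), if_neg h4, if_neg h5,
        if_neg (fun h6 => h4 h6.1)]
      ring
  rw [Finset.sum_congr rfl fun x _ => Finset.sum_congr rfl fun y _ => h1 x y]
  have h2 : ∀ x : K, ∑ y : K, (if x = 0 ∨ y = 0 then (0 : ℤ) else
        1 - (if x * y - κ * y - κ' * x = 0 then 1 else 0) - (if x + y = 0 then 1 else 0) +
          qK K * (if x * y - κ * y - κ' * x = 0 ∧ x + y = 0 then 1 else 0)) =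
      (qK K - 3) + (if x = 0 then -(qK K - 3) else 0) + (if x = κ then 1 else 0) +
        (if x = κ - κ' then (if κ = κ' then 0 else qK K) else 0) := by
    intro x
    by_cases hx : x = 0
    · rw [Finset.sum_eq_zero fun y _ => if_pos (Or.inl hx), if_pos hx, if_neg, hx]
      · by_cases hk : κ = κ'
        · rw [if_pos hk]
          simp
        · rw [if_neg hk, if_neg]
          · ring
          · intro h3
            exact hk (sub_eq_zero.1 h3.symm)
      · rw [hx]
        exact fun h3 => h h3.symm
    · have h3 : ∀ y : K, (if x = 0 ∨ y = 0 then (0 : ℤ) else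
          1 - (if x * y - κ * y - κ' * x = 0 then 1 else 0) - (if x + y = 0 then 1 else 0) +
          qK K * (if x * y - κ * y - κ' * x = 0 ∧ x + y = 0 then 1 else 0)) =
          1 - (if y = 0 then 1 else 0) - (if x * y - κ * y - κ' * x = 0 then 1 else 0) -
            (if y = -x then 1 else 0) +
            (if y = -x then (if x = κ - κ' then qK K else 0) else 0) := by
        intro y
        by_cases hy : y = 0
        · have h4 : ¬ (x * y - κ * y - κ' * x = 0) := by
            rw [hy, mul_zero, mul_zero, sub_zero, zero_sub, neg_eq_zero]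
            exact mul_ne_zero h' hx
          have h5 : ¬ (y = -x) := by
            rw [hy]
            intro h6
            exact hx (neg_eq_zero.1 h6.symm)
          rw [if_pos (Or.inr hy), if_pos hy, if_neg h4, if_neg h5, if_neg h5]
          ring
        · have h4 : (x + y = 0) ↔ y = -x := by
            constructor
            · intro h5
              linear_combination h5
            · intro h5
              rw [h5, add_neg_cancel]
          rw [if_neg (not_or.2 ⟨hx, hy⟩), if_neg hy]
          simp only [h4]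
          by_cases h5 : y = -x
          · have h6 : (x * y - κ * y - κ' * x = 0) ↔ x = κ - κ' := by
              rw [h5]
              have h7 : x * -x - κ * -x - κ' * x = -(x * (x - (κ - κ'))) := by ring
              rw [h7, neg_eq_zero, mul_eq_zero, sub_eq_zero]
              exact ⟨fun h8 => h8.resolve_left hx, Or.inr⟩
            simp only [h5, if_true, and_true]
            rw [h5] at h6
            simp only [h6]
            by_cases h8 : x = κ - κ'
            · simp only [if_pos h8]
              ring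
            · simp only [if_neg h8]
              ring
          · simp only [h5, if_false, and_false]
            ring
      rw [Finset.sum_congr rfl fun y _ => h3 y, if_neg hx]
      have h4 : ∑ y : K, (if x * y - κ * y - κ' * x = 0 then (1 : ℤ) else 0) =
          1 - if x = κ then 1 else 0 := by
        by_cases hk : x = κ
        · rw [if_pos hk, sub_self]
          refine Finset.sum_eq_zero fun y _ => if_neg ?_
          rw [hk]
          intro h5
          have h6 : κ' * κ = 0 := by linear_combination -h5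
          exact (mul_ne_zero h' h) h6
        · rw [if_neg hk, sub_zero, Finset.sum_eq_single (κ' * x * (x - κ)⁻¹)]
          · rw [if_pos]
            have h5 : x - κ ≠ 0 := sub_ne_zero.2 hk
            field_simp
            ring
          · intro y _ hy
            rw [if_neg]
            intro h5
            apply hy
            have h6 : x - κ ≠ 0 := sub_ne_zero.2 hk
            rw [eq_mul_inv_iff_mul_eq₀ h6]
            linear_combination h5
          · intro h5
            exact absurd (Finset.mem_univ _) h5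
      simp only [Finset.sum_add_distrib, Finset.sum_sub_distrib, Finset.sum_ite_eq',
        Finset.mem_univ, if_true, LIN_const, h4]
      have h5 : (if x = κ - κ' then qK K else 0) =
          if x = κ - κ' then (if κ = κ' then 0 else qK K) else 0 := by
        by_cases h6 : x = κ - κ'
        · rw [if_pos h6, if_pos h6, if_neg]
          intro h7
          apply hx
          rw [h6, h7, sub_self]
        · rw [if_neg h6, if_neg h6]
      rw [h5]
      ring
  rw [Finset.sum_congr rfl fun x _ => h2 x]
  simp only [Finset.sum_add_distrib, Finset.sum_ite_eq', Finset.mem_univ, if_true, LIN_const]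
  by_cases hk : κ = κ'
  · simp only [if_pos hk]
    ring
  · simp only [if_neg hk]
    ring

open Classical in
private theorem CNA_z (h : K → ℤ) :
    ∑ x : K, ∑ r : K, (if x * r = 0 then h (x + r) else 0) = 2 * ∑ z : K, h z - h 0 := by
  have h1 : ∀ x r : K, (if x * r = 0 then h (x + r) else 0) =
      (if x = 0 then h r else 0) + ((if r = 0 then h x else 0) -
        if x = 0 then (if r = 0 then h 0 else 0) else 0) := by
    intro x r
    by_cases hx : x = 0
    · rw [if_pos (by rw [hx, zero_mul]), if_pos hx, if_pos hx, hx, zero_add]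
      by_cases hr : r = 0
      · rw [if_pos hr]
        ring
      · rw [if_neg hr]
        ring
    · rw [if_neg hx, if_neg hx]
      by_cases hr : r = 0
      · rw [if_pos (by rw [hr, mul_zero]), if_pos hr, hr, add_zero]
        ring
      · rw [if_neg (mul_ne_zero hx hr), if_neg hr]
        ring
  rw [Finset.sum_congr rfl fun x _ => Finset.sum_congr rfl fun r _ => h1 x r]
  simp only [Finset.sum_add_distrib, Finset.sum_sub_distrib]
  have h2 : ∑ x : K, ∑ r : K, (if x = 0 then h r else 0) = ∑ z : K, h z := by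
    rw [Finset.sum_eq_single (0 : K)]
    · simp only [if_true]
    · intro x _ hx
      simp only [if_neg hx, Finset.sum_const_zero]
    · intro h3
      exact absurd (Finset.mem_univ _) h3
  have h3 : ∑ x : K, ∑ r : K, (if r = 0 then h x else 0) = ∑ z : K, h z := by
    refine Finset.sum_congr rfl fun x _ => ?_
    rw [Finset.sum_ite_eq', if_pos (Finset.mem_univ _)]
  have h4 : ∑ x : K, ∑ r : K, (if x = 0 then (if r = 0 then h 0 else 0) else 0) = h 0 := by
    rw [Finset.sum_eq_single (0 : K)]
    · simp only [if_true, Finset.sum_ite_eq', Finset.mem_univ]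
    · intro x _ hx
      simp only [if_neg hx, Finset.sum_const_zero]
    · intro h3
      exact absurd (Finset.mem_univ _) h3
  rw [h2, h3, h4]
  ring

open Classical in
private noncomputable def CNA_h (κ' z : K) : ℤ :=
  ∑ y : K, if y = 0 then (0 : ℤ) else if y = κ' then
    (if z + y = 0 then qK K - 1 else 0) else (if z + y = 0 then 0 else 1)

open Classical in
private noncomputable def CNA_f (z w : K) : ℤ := if z + w = 0 then (0 : ℤ) else 1

open Classical in
private noncomputable def CNA_g (z : K) : ℤ :=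
  ∑ y : K, ∑ y' : K, (if y * y' = 0 then CNA_f z (y + y') else 0)

/-- MODULE CNA (2).

Proof.  `x r = 0`, `y ≠ 0`, `y' = κ' S / y`, `z = x + r`, `S (y - κ') = y (z + y)`.  If `y ≠ κ'` (`q - 2` values), there is one `S`
for each `(x, r)`, nonzero iff `z ≠ -y`: `2 q - 1 - 2` pairs `(x, r)`.  If `y = κ'`, then `z = -κ'` (two
pairs `(x, r)`) and `S` is arbitrary nonzero.  Total `(q - 2) (2 q - 3) + 2 (q - 1) = 2 q² - 5 q + 4`. -/
theorem cN_zero_ne (κ' : K) (h' : κ' ≠ 0) : cN 0 κ' = 2 * qK K ^ 2 - 5 * qK K + 4 := by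
  classical
  have h1 : cN 0 κ' = ∑ x : K, ∑ r : K, (if x * r = 0 then CNA_h κ' (x + r) else 0) := by
    unfold cN
    refine Finset.sum_congr rfl fun x _ => Finset.sum_congr rfl fun r _ => ?_
    by_cases hxr : x * r = 0
    · rw [if_pos hxr]
      refine Finset.sum_congr rfl fun y _ => ?_
      by_cases hy : y = 0
      · rw [if_pos hy]
        refine Finset.sum_eq_zero fun y' _ => if_neg ?_
        rintro ⟨h2, -, h3⟩
        rw [hy, zero_mul] at h3
        rw [hy] at h2
        exact (mul_ne_zero h' h2) h3.symm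
      · rw [if_neg hy]
        have h2 : ∑ y' : K, (if x + r + y + y' ≠ 0 ∧ x * r = 0 * (x + r + y + y') ∧
            y * y' = κ' * (x + r + y + y') then (1 : ℤ) else 0) =
            ∑ S : K, if S ≠ 0 ∧ S * (y - κ') = y * (x + r + y) then 1 else 0 := by
          refine Fintype.sum_equiv (Equiv.addLeft (x + r + y)) _ _ fun y' => ?_
          rw [Equiv.coe_addLeft]
          have h3 : (x * r = 0 * (x + r + y + y')) ↔ True := by
            rw [zero_mul]
            exact iff_true_intro hxr
          have h4 : (y * y' = κ' * (x + r + y + y')) ↔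
              ((x + r + y + y') * (y - κ') = y * (x + r + y)) := by
            constructor
            · intro h5
              linear_combination h5
            · intro h5
              linear_combination h5
          simp only [h3, h4, true_and]
        rw [h2, CNA_S]
        have h3 : (y - κ' = 0) ↔ y = κ' := sub_eq_zero
        have h4 : (y * (x + r + y) = 0) ↔ x + r + y = 0 := by
          rw [mul_eq_zero]
          exact ⟨fun h4 => h4.resolve_left hy, Or.inr⟩
        simp only [h3, h4]
    · rw [if_neg hxr]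
      refine Finset.sum_eq_zero fun y _ => Finset.sum_eq_zero fun y' _ => if_neg ?_
      rintro ⟨-, h3, -⟩
      rw [zero_mul] at h3
      exact hxr h3
  rw [h1, CNA_z]
  have h2 : ∑ z : K, ∑ y : K, (if y = 0 then (0 : ℤ) else if y = κ' then
      (if z + y = 0 then qK K - 1 else 0) else (if z + y = 0 then 0 else 1)) =
      (qK K - 1) ^ 2 := by
    rw [Finset.sum_comm]
    have h3 : ∀ y : K, ∑ z : K, (if y = 0 then (0 : ℤ) else if y = κ' then
        (if z + y = 0 then qK K - 1 else 0) else (if z + y = 0 then 0 else 1)) =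
        if y = 0 then 0 else qK K - 1 := by
      intro y
      have h4 : ∀ z : K, (z + y = 0) ↔ z = -y := fun z => eq_neg_iff_add_eq_zero.symm
      by_cases hy : y = 0
      · simp only [if_pos hy, Finset.sum_const_zero]
      · simp only [if_neg hy, h4]
        by_cases hk : y = κ'
        · simp only [if_pos hk]
          rw [Finset.sum_ite_eq', if_pos (Finset.mem_univ _)]
        · simp only [if_neg hk]
          have h5 : ∀ z : K, (if z = -y then (0 : ℤ) else 1) = 1 - if z = -y then 1 else 0 := by
            intro z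
            split_ifs <;> rfl
          rw [Finset.sum_congr rfl fun z _ => h5 z, Finset.sum_sub_distrib, LIN_const,
            Finset.sum_ite_eq', if_pos (Finset.mem_univ _), mul_one]
    rw [Finset.sum_congr rfl fun y _ => h3 y]
    have h5 : ∀ y : K, (if y = 0 then (0 : ℤ) else qK K - 1) =
        (qK K - 1) * (if y = 0 then 0 else 1) := by
      intro y
      split_ifs
      · rw [mul_zero]
      · rw [mul_one]
    rw [Finset.sum_congr rfl fun y _ => h5 y, ← Finset.mul_sum, CNA_ne0]
    ring
  have h3 : ∑ y : K, (if y = 0 then (0 : ℤ) else if y = κ' then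
      (if (0 : K) + y = 0 then qK K - 1 else 0) else (if (0 : K) + y = 0 then 0 else 1)) =
      qK K - 2 := by
    have h4 : ∀ y : K, (if y = 0 then (0 : ℤ) else if y = κ' then
        (if (0 : K) + y = 0 then qK K - 1 else 0) else (if (0 : K) + y = 0 then 0 else 1)) =
        1 - (if y = 0 then 1 else 0) - (if y = κ' then 1 else 0) := by
      intro y
      rw [zero_add]
      by_cases hy : y = 0
      · rw [if_pos hy, if_pos hy, if_neg]
        · ring
        · rw [hy]
          exact fun h5 => h' h5.symm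
      · simp only [if_neg hy]
        by_cases hk : y = κ'
        · simp only [if_pos hk]
          ring
        · simp only [if_neg hk]
          ring
    rw [Finset.sum_congr rfl fun y _ => h4 y, Finset.sum_sub_distrib, Finset.sum_sub_distrib,
      LIN_const, Finset.sum_ite_eq', if_pos (Finset.mem_univ _), Finset.sum_ite_eq',
      if_pos (Finset.mem_univ _)]
    ring
  unfold CNA_h
  rw [h2, h3]
  ring

/-- MODULE CNA (3).  Symmetry: exchange `(x, r)` and `(y, y')`. -/
theorem cN_comm (κ κ' : K) : cN κ κ' = cN κ' κ := by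
  classical
  unfold cN
  have h1 : ∀ F : K → K → K → K → ℤ, ∑ x : K, ∑ r : K, ∑ y : K, ∑ y' : K, F x r y y' =
      ∑ p : K × K, ∑ p' : K × K, F p.1 p.2 p'.1 p'.2 := by
    intro F
    simp only [Fintype.sum_prod_type]
  rw [h1, h1, Finset.sum_comm]
  refine Finset.sum_congr rfl fun p _ => Finset.sum_congr rfl fun p' _ => ?_
  have h2 : p'.1 + p'.2 + p.1 + p.2 = p.1 + p.2 + p'.1 + p'.2 := by ring
  rw [h2]
  by_cases h3 : p.1 + p.2 + p'.1 + p'.2 ≠ 0 ∧ p.1 * p.2 = κ' * (p.1 + p.2 + p'.1 + p'.2) ∧
      p'.1 * p'.2 = κ * (p.1 + p.2 + p'.1 + p'.2)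
  · rw [if_pos h3, if_pos ⟨h3.1, h3.2.2, h3.2.1⟩]
  · rw [if_neg h3, if_neg]
    exact fun h4 => h3 ⟨h4.1, h4.2.2, h4.2.1⟩

/-- MODULE CNA (4).

Proof.  The pairs with `x r = 0` are `(2 q - 1)`, as are those with `y y' = 0`; of the `(2 q - 1)²` quadruples those with
`(x + r) + (y + y') = 0` are `1 + (q - 1) * 2 * 2 = 4 q - 3`. -/
theorem cN_zero : cN (0 : K) 0 = 4 * qK K ^ 2 - 8 * qK K + 4 := by
  classical
  have h1 : cN (0 : K) 0 = ∑ x : K, ∑ r : K, (if x * r = 0 then CNA_g (x + r) else 0) := by
    unfold cN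
    refine Finset.sum_congr rfl fun x _ => Finset.sum_congr rfl fun r _ => ?_
    by_cases hxr : x * r = 0
    · rw [if_pos hxr]
      refine Finset.sum_congr rfl fun y _ => Finset.sum_congr rfl fun y' _ => ?_
      simp only [zero_mul, hxr, true_and]
      by_cases hy : y * y' = 0
      · rw [if_pos hy]
        unfold CNA_f
        by_cases hs : x + r + y + y' = 0
        · rw [if_neg (fun h2 => h2.1 hs), if_pos (by rw [← hs]; ring)]
        · rw [if_pos ⟨hs, hy⟩, if_neg (by rw [← add_assoc]; exact hs)]
      · rw [if_neg hy, if_neg (fun h2 => hy h2.2)]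
    · rw [if_neg hxr]
      refine Finset.sum_eq_zero fun y _ => Finset.sum_eq_zero fun y' _ => if_neg ?_
      rintro ⟨-, h3, -⟩
      rw [zero_mul] at h3
      exact hxr h3
  have h2 : ∀ z : K, CNA_g z = (2 * qK K - 3) + if z = 0 then 1 else 0 := by
    intro z
    unfold CNA_g
    rw [CNA_z (CNA_f z)]
    unfold CNA_f
    have h3 : ∀ w : K, (if z + w = 0 then (0 : ℤ) else 1) = 1 - if w = -z then 1 else 0 := by
      intro w
      have h4 : (z + w = 0) ↔ w = -z := by
        rw [add_comm]
        exact eq_neg_iff_add_eq_zero.symm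
      simp only [h4]
      split_ifs <;> rfl
    rw [Finset.sum_congr rfl fun w _ => h3 w, Finset.sum_sub_distrib, LIN_const,
      Finset.sum_ite_eq', if_pos (Finset.mem_univ _)]
    rw [add_zero]
    by_cases hz : z = 0
    · rw [if_pos hz, if_pos hz]
      ring
    · rw [if_neg hz, if_neg hz]
      ring
  rw [h1, CNA_z]
  have h3 : ∑ z : K, ((2 * qK K - 3) + if z = 0 then (1 : ℤ) else 0) =
      qK K * (2 * qK K - 3) + 1 := by
    rw [Finset.sum_add_distrib, LIN_const, Finset.sum_ite_eq', if_pos (Finset.mem_univ _)]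
  rw [Finset.sum_congr rfl fun z _ => h2 z, h3, h2 0, if_pos rfl]
  ring

open Classical in
/-- MODULE CNF.  The fibre formula.

Proof.  For `S ≠ 0`: `f (x r S⁻¹) (y y' S⁻¹) = ∑ κ, ∑ κ', if x r = κ S ∧ y y' = κ' S then f κ κ' else 0`.  Insert this,
exchange the sums: the left side is `∑ κ, ∑ κ', f κ κ' * cN κ κ'`.  Then the values of `cN`:
`cN κ κ' = (q² - 3 q + 4) + (q² - 2 q) ([κ = 0] + [κ' = 0]) - q [κ = κ'] + q² [κ = 0 ∧ κ' = 0]` in all cases. -/
theorem cnt (f : K → K → ℤ) :
    ∑ x : K, ∑ r : K, ∑ y : K, ∑ y' : K, (if x + r + y + y' = 0 then 0 else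
      f (x * r * (x + r + y + y')⁻¹) (y * y' * (x + r + y + y')⁻¹)) =
      (qK K ^ 2 - 3 * qK K + 4) * ∑ κ : K, ∑ κ' : K, f κ κ' +
        (qK K ^ 2 - 2 * qK K) * (∑ κ' : K, f 0 κ' + ∑ κ : K, f κ 0) - qK K * ∑ κ : K, f κ κ +
        qK K ^ 2 * f 0 0 := by
  have h1 : ∀ x r y y' : K, (if x + r + y + y' = 0 then 0 else
      f (x * r * (x + r + y + y')⁻¹) (y * y' * (x + r + y + y')⁻¹)) =
      ∑ κ : K, ∑ κ' : K, f κ κ' * (if x + r + y + y' ≠ 0 ∧ x * r = κ * (x + r + y + y') ∧
        y * y' = κ' * (x + r + y + y') then 1 else 0) := by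
    intro x r y y'
    by_cases hS : x + r + y + y' = 0
    · rw [if_pos hS]
      refine (Finset.sum_eq_zero fun κ _ => Finset.sum_eq_zero fun κ' _ => ?_).symm
      rw [if_neg (fun h => h.1 hS), mul_zero]
    · rw [if_neg hS, Finset.sum_eq_single (x * r * (x + r + y + y')⁻¹),
        Finset.sum_eq_single (y * y' * (x + r + y + y')⁻¹)]
      · rw [if_pos, mul_one]
        refine ⟨hS, ?_, ?_⟩
        · rw [mul_assoc, inv_mul_cancel₀ hS, mul_one]
        · rw [mul_assoc, inv_mul_cancel₀ hS, mul_one]
      · intro κ' _ hκ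
        rw [if_neg, mul_zero]
        rintro ⟨-, -, h2⟩
        apply hκ
        rw [h2, mul_assoc, mul_inv_cancel₀ hS, mul_one]
      · intro h2
        exact absurd (Finset.mem_univ _) h2
      · intro κ _ hκ
        refine Finset.sum_eq_zero fun κ' _ => ?_
        rw [if_neg, mul_zero]
        rintro ⟨-, h2, -⟩
        apply hκ
        rw [h2, mul_assoc, mul_inv_cancel₀ hS, mul_one]
      · intro h2
        exact absurd (Finset.mem_univ _) h2
  have h2 : ∀ F : K → K → K → K → ℤ, ∑ x : K, ∑ r : K, ∑ y : K, ∑ y' : K, F x r y y' =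
      ∑ p : K × K × K × K, F p.1 p.2.1 p.2.2.1 p.2.2.2 := by
    intro F
    simp only [Fintype.sum_prod_type]
  have h3 : ∑ x : K, ∑ r : K, ∑ y : K, ∑ y' : K, (if x + r + y + y' = 0 then 0 else
      f (x * r * (x + r + y + y')⁻¹) (y * y' * (x + r + y + y')⁻¹)) =
      ∑ κ : K, ∑ κ' : K, f κ κ' * cN κ κ' := by
    rw [Finset.sum_congr rfl fun x _ => Finset.sum_congr rfl fun r _ =>
      Finset.sum_congr rfl fun y _ => Finset.sum_congr rfl fun y' _ => h1 x r y y']
    rw [h2, Finset.sum_comm]
    refine Finset.sum_congr rfl fun κ _ => ?_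
    rw [Finset.sum_comm]
    refine Finset.sum_congr rfl fun κ' _ => ?_
    rw [← Finset.mul_sum]
    unfold cN
    rw [h2]
  rw [h3]
  have h4 : ∀ κ κ' : K, cN κ κ' = (qK K ^ 2 - 3 * qK K + 4) +
      (if κ = 0 then qK K ^ 2 - 2 * qK K else 0) + (if κ' = 0 then qK K ^ 2 - 2 * qK K else 0) -
      (if κ' = κ then qK K else 0) + (if κ' = 0 then (if κ = 0 then qK K ^ 2 else 0) else 0) := by
    intro κ κ'
    by_cases hκ : κ = 0
    · by_cases hκ' : κ' = 0
      · rw [hκ, hκ', cN_zero]
        simp only [if_true]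
        ring
      · rw [hκ, cN_zero_ne κ' hκ']
        simp only [if_true, if_neg hκ']
        ring
    · by_cases hκ' : κ' = 0
      · rw [hκ', cN_comm, cN_zero_ne κ hκ]
        have h5 : ¬ ((0 : K) = κ) := fun h6 => hκ h6.symm
        simp only [if_true, if_neg hκ, if_neg h5]
        ring
      · rw [cN_ne κ κ' hκ hκ']
        have h5 : (κ = κ') ↔ κ' = κ := eq_comm
        simp only [h5, if_neg hκ, if_neg hκ']
        by_cases h6 : κ' = κ
        · rw [if_pos h6, if_pos h6]
          ring
        · rw [if_neg h6, if_neg h6]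
          ring
  have h5 : ∀ κ κ' : K, f κ κ' * cN κ κ' = (qK K ^ 2 - 3 * qK K + 4) * f κ κ' +
      (if κ = 0 then (qK K ^ 2 - 2 * qK K) * f κ κ' else 0) +
      (if κ' = 0 then (qK K ^ 2 - 2 * qK K) * f κ κ' else 0) -
      (if κ' = κ then qK K * f κ κ' else 0) +
      (if κ' = 0 then (if κ = 0 then qK K ^ 2 * f κ κ' else 0) else 0) := by
    intro κ κ'
    rw [h4]
    split_ifs <;> ring
  rw [Finset.sum_congr rfl fun κ _ => Finset.sum_congr rfl fun κ' _ => h5 κ κ']
  simp only [Finset.sum_add_distrib, Finset.sum_sub_distrib, Finset.sum_ite_eq', Finset.mem_univ,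
    if_true, ← Finset.mul_sum]
  have h6 : ∑ κ : K, ∑ κ' : K, (if κ = 0 then (qK K ^ 2 - 2 * qK K) * f κ κ' else 0) =
      (qK K ^ 2 - 2 * qK K) * ∑ κ' : K, f 0 κ' := by
    rw [Finset.sum_eq_single (0 : K)]
    · simp only [if_true, ← Finset.mul_sum]
    · intro κ _ hκ
      simp only [if_neg hκ, Finset.sum_const_zero]
    · intro h7
      exact absurd (Finset.mem_univ _) h7
  rw [h6]
  ring

open Classical in
/-- MODULE CNS.  The sum over the three parameters in `R Bx`.

Proof.  `r = 0`: `q² - q` pairs with `y0 + y1 ≠ 0`.  For each `r ≠ 0` (`q - 1` values) of the `q² - q` pairs with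
`y0 + y1 ≠ 0` one is `(0, r)`, one is `(-r, 0)`, and they are different; the remaining ones are `q² - q - 2`.
Then `(q - 1) (q² - q - 2) = (q - 1) (q - 2) (q + 1)`. -/
theorem cnt3 (a b d : ℤ) (c : K → ℤ) :
    ∑ r : K, ∑ y0 : K, ∑ y1 : K, (if y0 + y1 = 0 then 0 else if r = 0 then a else
      if y0 = 0 ∧ y1 = r then b else if y0 = -r ∧ y1 = 0 then c r else d) =
      qK K * (qK K - 1) * a + (qK K - 1) * b + (∑ r : K, c r - c 0) +
        (qK K - 1) * (qK K - 2) * (qK K + 1) * d := by
  have h0 : ∀ x : K, ∑ y : K, (if x + y = 0 then (0 : ℤ) else 1) = qK K - 1 := by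
    intro x
    have h1 : ∀ y : K, (if x + y = 0 then (0 : ℤ) else 1) = 1 - if y = -x then 1 else 0 := by
      intro y
      have h4 : (x + y = 0) ↔ y = -x := by
        rw [add_comm]
        exact eq_neg_iff_add_eq_zero.symm
      simp only [h4]
      split_ifs <;> rfl
    rw [Finset.sum_congr rfl fun y _ => h1 y, Finset.sum_sub_distrib, LIN_const,
      Finset.sum_ite_eq', if_pos (Finset.mem_univ _), mul_one]
  have h1 : ∀ r y0 y1 : K, (if y0 + y1 = 0 then 0 else if r = 0 then a else
      if y0 = 0 ∧ y1 = r then b else if y0 = -r ∧ y1 = 0 then c r else d) =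
      (if r = 0 then a else d) * (if y0 + y1 = 0 then 0 else 1) +
      (if y0 = 0 then (if y1 = r then (if r = 0 then 0 else b - d) else 0) else 0) +
      (if y0 = -r then (if y1 = 0 then (if r = 0 then 0 else c r - d) else 0) else 0) := by
    intro r y0 y1
    by_cases hr : r = 0
    · simp only [if_pos hr, ite_self]
      split_ifs <;> ring
    · simp only [if_neg hr]
      by_cases h2 : y0 + y1 = 0
      · have h3 : ¬ (y0 = 0 ∧ y1 = r) := by
          rintro ⟨h4, h5⟩
          rw [h4, h5, zero_add] at h2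
          exact hr h2
        have h3' : ¬ (y0 = -r ∧ y1 = 0) := by
          rintro ⟨h4, h5⟩
          rw [h4, h5, add_zero, neg_eq_zero] at h2
          exact hr h2
        rw [if_pos h2, if_pos h2, ← ite_and, ← ite_and, if_neg h3, if_neg h3']
        ring
      · rw [if_neg h2, if_neg h2, ← ite_and, ← ite_and]
        by_cases h3 : y0 = 0 ∧ y1 = r
        · have h3' : ¬ (y0 = -r ∧ y1 = 0) := by
            rintro ⟨-, h5⟩
            exact hr (h3.2.symm.trans h5)
          rw [if_pos h3, if_pos h3, if_neg h3']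
          ring
        · rw [if_neg h3, if_neg h3]
          by_cases h4 : y0 = -r ∧ y1 = 0
          · rw [if_pos h4, if_pos h4]
            ring
          · rw [if_neg h4, if_neg h4]
            ring
  have h2 : ∀ r : K, ∑ y0 : K, ∑ y1 : K, (if y0 + y1 = 0 then 0 else if r = 0 then a else
      if y0 = 0 ∧ y1 = r then b else if y0 = -r ∧ y1 = 0 then c r else d) =
      (qK K * (qK K - 1) * d + (b - d) - d) + c r +
        (if r = 0 then qK K * (qK K - 1) * a - (qK K * (qK K - 1) * d + (b - d) - d) - c 0
          else 0) := by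
    intro r
    rw [Finset.sum_congr rfl fun y0 _ => Finset.sum_congr rfl fun y1 _ => h1 r y0 y1]
    simp only [Finset.sum_add_distrib, ← Finset.mul_sum, h0, LIN_const]
    have h3 : ∀ (s t : K) (A : ℤ), ∑ y0 : K, ∑ y1 : K, (if y0 = s then (if y1 = t then A else 0)
        else 0) = A := by
      intro s t A
      rw [Finset.sum_eq_single s]
      · simp only [if_true, Finset.sum_ite_eq', Finset.mem_univ]
      · intro κ _ hκ
        simp only [if_neg hκ, Finset.sum_const_zero]
      · intro h7
        exact absurd (Finset.mem_univ _) h7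
    rw [h3, h3]
    by_cases hr : r = 0
    · rw [if_pos hr, if_pos hr, if_pos hr, if_pos hr, hr]
      ring
    · rw [if_neg hr, if_neg hr, if_neg hr, if_neg hr]
      ring
  rw [Finset.sum_congr rfl fun r _ => h2 r, Finset.sum_add_distrib, Finset.sum_add_distrib,
    LIN_const, Finset.sum_ite_eq', if_pos (Finset.mem_univ _)]
  ring

end Pool.Agent.P3
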