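import Pool.Agent.P3.Defs

/-!
# The Symanzik polynomial is nonzero iff the network equations have only trivial solutions
-/

set_option autoImplicit false

open scoped BigOperators

namespace Pool.Agent.P3

open Pool.Agent.KG

/-- MODULE CRA (1).  Each edge contributes `i e - i e`. -/
theorem sum_net {V E K : Type} [Fintype V] [Fintype E] [Field K] (s t : E → V) (i : E → K) :
    ∑ v, net s t i v = 0 := by
  classical
  unfold net
  rw [Finset.sum_sub_distrib, Finset.sum_comm]
  have h1 : ∑ v, ∑ e, (if t e = v then i e else 0) = ∑ e, ∑ v, (if t e = v then i e else 0) :=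
    Finset.sum_comm
  have h2 : ∀ s : E → V, ∑ e, ∑ v, (if s e = v then i e else 0) = ∑ e, i e := by
    intro s
    refine Finset.sum_congr rfl fun e _ => ?_
    simp
  have h3 : ∑ e, ∑ v, (if s e = v then i e else 0) - ∑ v, ∑ e, (if t e = v then i e else 0) = 0 := by
    rw [h1, h2, h2, sub_self]
  simpa using h3

private theorem CRA_inc {n K : Type} [Fintype n] [Field K] {E : Type} (s t : E → Option n)
    (φ : Option n → K) (h0 : φ none = 0) (e : E) :
    ∑ v, inc s t e v * φ (some v) = φ (s e) - φ (t e) := by
  classical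
  have h1 : ∀ o : Option n, ∑ v, (if o = some v then (1 : K) else 0) * φ (some v) = φ o := by
    intro o
    cases o with
    | none => simp [h0]
    | some w => simp
  have h2 : ∑ v, inc s t e v * φ (some v) =
      ∑ v, ((if s e = some v then (1 : K) else 0) * φ (some v) -
        (if t e = some v then (1 : K) else 0) * φ (some v)) := by
    refine Finset.sum_congr rfl fun v _ => ?_
    unfold inc
    rw [← sub_mul]
  rw [h2, Finset.sum_sub_distrib, h1, h1]

private theorem CRA_net {n K : Type} {E : Type} [Fintype E] [Field K] (s t : E → Option n)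
    (i : E → K) (v : n) : ∑ e, inc s t e v * i e = net s t i (some v) := by
  classical
  unfold net inc
  rw [← Finset.sum_sub_distrib]
  refine Finset.sum_congr rfl fun e _ => ?_
  rw [sub_mul]
  congr 1 <;> simp

private theorem CRA_inl {n E K : Type} [Fintype n] [Fintype E] [DecidableEq E] [Field K]
    (s t : E → Option n) (x : E → K) (i : E → K) (φ : Option n → K) (h0 : φ none = 0) (e : E) :
    (MM (inc s t) 1 x).mulVec (Sum.elim (fun e => -i e) fun v => φ (some v)) (Sum.inl e) =
      φ (s e) - φ (t e) - x e * i e := by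
  rw [Matrix.mulVec, dotProduct, Fintype.sum_sum_type, ← CRA_inc s t φ h0 e]
  have h1 : ∑ e', MM (inc s t) 1 x (Sum.inl e) (Sum.inl e') *
      (Sum.elim (fun e => -i e) (fun v => φ (some v)) : E ⊕ n → K) (Sum.inl e') = -(x e * i e) := by
    rw [Finset.sum_eq_single e]
    · show Matrix.diagonal x e e * (-i e) = _
      rw [Matrix.diagonal_apply_eq, mul_neg]
    · intro b _ hb
      show Matrix.diagonal x e b * (-i b) = 0
      rw [Matrix.diagonal_apply_ne _ (Ne.symm hb), zero_mul]
    · intro h
      exact absurd (Finset.mem_univ e) h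
  have h2 : ∑ v, MM (inc s t) 1 x (Sum.inl e) (Sum.inr v) *
      (Sum.elim (fun e => -i e) (fun v => φ (some v)) : E ⊕ n → K) (Sum.inr v) =
      ∑ v, inc s t e v * φ (some v) := by
    refine Finset.sum_congr rfl fun v _ => ?_
    show (1 : E → K) e * inc s t e v * φ (some v) = _
    rw [Pi.one_apply, one_mul]
  rw [h1, h2]
  ring

private theorem CRA_inr {n E K : Type} [Fintype n] [Fintype E] [DecidableEq E] [Field K]
    (s t : E → Option n) (x : E → K) (i : E → K) (ψ : n → K) (v : n) :
    (MM (inc s t) 1 x).mulVec (Sum.elim (fun e => -i e) ψ) (Sum.inr v) =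
      net s t i (some v) := by
  rw [Matrix.mulVec, dotProduct, Fintype.sum_sum_type, ← CRA_net]
  have h2 : ∑ w, MM (inc s t) 1 x (Sum.inr v) (Sum.inr w) *
      (Sum.elim (fun e => -i e) ψ : E ⊕ n → K) (Sum.inr w) = 0 := by
    refine Finset.sum_eq_zero fun w _ => ?_
    show (0 : K) * ψ w = 0
    rw [zero_mul]
  rw [h2, add_zero]
  refine Finset.sum_congr rfl fun e _ => ?_
  show -inc s t e v * -i e = _
  ring

/-- MODULE CRA (2).

Proof.  `sym_eq_tht`, `mtt` (`classical`): `sym s t x = (MM (inc s t) 1 x).det`, so by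
`Matrix.exists_mulVec_eq_zero_iff` it is nonzero iff `(MM (inc s t) 1 x).mulVec u = 0` only for `u = 0`.  With
`u = Sum.elim (fun e => -i e) ψ` the equation is `x e * i e = φ (s e) - φ (t e)` for `φ none = 0`, `φ (some v) = ψ v`
(`∑ v, inc s t e v * ψ v = φ (s e) - φ (t e)`, `Fintype.sum_option` or case distinction) and
`∑ e, inc s t e v * i e = net s t i (some v) = 0` for all `v`; by `sum_net` also `net s t i none = 0`.
(→) Given a solution `(i, φ)`, subtract `φ none` from `φ`.  (←) Given a kernel vector, `i = 0` and `φ` is constant, equal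
to `φ none = 0`. -/
theorem crit_opt {n E K : Type} [Fintype n] [Fintype E] [Field K] (s t : E → Option n) (x : E → K) :
    sym s t x ≠ 0 ↔ ∀ (i : E → K) (φ : Option n → K), (∀ e, x e * i e = φ (s e) - φ (t e)) →
      (∀ v, net s t i v = 0) → i = 0 ∧ ∃ c, ∀ v, φ v = c := by
  classical
  rw [sym_eq_tht, ← mtt, Ne, ← Matrix.exists_mulVec_eq_zero_iff]
  constructor
  · intro h i φ h1 h2
    have h3 : (Sum.elim (fun e => -i e) (fun v => φ (some v) - φ none) : E ⊕ n → K) = 0 := by
      by_contra hne
      refine h ⟨_, hne, ?_⟩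
      funext r
      rcases r with e | v
      · have h4 := CRA_inl s t x i (fun o => φ o - φ none) (sub_self _) e
        rw [h4, h1 e]
        show φ (s e) - φ none - (φ (t e) - φ none) - (φ (s e) - φ (t e)) = 0
        ring
      · rw [CRA_inr, h2]
        rfl
    constructor
    · funext e
      have h4 := congrFun h3 (Sum.inl e)
      have h5 : -i e = 0 := h4
      exact neg_eq_zero.1 h5
    · refine ⟨φ none, fun v => ?_⟩
      cases v with
      | none => rfl
      | some w =>
        have h4 : φ (some w) - φ none = 0 := congrFun h3 (Sum.inr w)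
        exact sub_eq_zero.1 h4
  · rintro h ⟨u, hu, hu'⟩
    apply hu
    let i : E → K := fun e => -u (Sum.inl e)
    let φ : Option n → K := fun o => o.elim 0 fun v => u (Sum.inr v)
    have h3 : u = (Sum.elim (fun e => -i e) (fun v => φ (some v)) : E ⊕ n → K) := by
      funext r
      rcases r with e | v
      · show u (Sum.inl e) = -(-u (Sum.inl e))
        rw [neg_neg]
      · rfl
    have h4 : ∀ e, x e * i e = φ (s e) - φ (t e) := by
      intro e
      have h5 := congrFun hu' (Sum.inl e)
      rw [h3, CRA_inl s t x i φ rfl e] at h5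
      exact (sub_eq_zero.1 h5).symm
    have h6 : ∀ v, net s t i (some v) = 0 := by
      intro v
      have h5 := congrFun hu' (Sum.inr v)
      rw [h3, CRA_inr] at h5
      exact h5
    have h7 : ∀ v, net s t i v = 0 := by
      intro v
      cases v with
      | none =>
        have h8 := sum_net s t i
        rw [Fintype.sum_option] at h8
        rw [Finset.sum_eq_zero (fun v _ => h6 v), add_zero] at h8
        exact h8
      | some w => exact h6 w
    obtain ⟨h8, c, h9⟩ := h i φ h4 h7
    have hc : c = 0 := (h9 none).symm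
    rw [h3]
    funext r
    rcases r with e | v
    · show -i e = 0
      rw [h8, Pi.zero_apply, neg_zero]
    · show φ (some v) = 0
      rw [h9, hc]

/-- MODULE CRB.  The general case: `V ≃ Option {v // v ≠ v0}` (`Equiv.optionSubtypeNe`), `tht_iso` with the identity of
`E`, and transport of the right hand side. -/
theorem crit {V E K : Type} [Fintype V] [Nonempty V] [Fintype E] [Field K] (s t : E → V) (x : E → K) :
    sym s t x ≠ 0 ↔ ∀ (i : E → K) (φ : V → K), (∀ e, x e * i e = φ (s e) - φ (t e)) →
      (∀ v, net s t i v = 0) → i = 0 ∧ ∃ c, ∀ v, φ v = c := by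
  classical
  obtain ⟨v0⟩ := ‹Nonempty V›
  let f : V ≃ Option {v // v ≠ v0} := (Equiv.optionSubtypeNe v0).symm
  have h1 : sym (fun e => f (s e)) (fun e => f (t e)) x = sym s t x := by
    rw [sym_eq_tht, sym_eq_tht]
    exact tht_iso f (Equiv.refl E) s t _ _ (fun _ => rfl) (fun _ => rfl) 1 x
  have h2 : ∀ (i : E → K) v, net (fun e => f (s e)) (fun e => f (t e)) i (f v) = net s t i v := by
    intro i v
    unfold net
    simp only [EmbeddingLike.apply_eq_iff_eq]
  rw [← h1, crit_opt]
  constructor
  · intro h i φ h3 h4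
    obtain ⟨h5, c, h6⟩ := h i (fun o => φ (f.symm o))
      (fun e => by
        show x e * i e = φ (f.symm (f (s e))) - φ (f.symm (f (t e)))
        rw [Equiv.symm_apply_apply, Equiv.symm_apply_apply]
        exact h3 e)
      (fun o => by
        obtain ⟨v, rfl⟩ := f.surjective o
        rw [h2]
        exact h4 v)
    refine ⟨h5, c, fun v => ?_⟩
    have h7 : φ (f.symm (f v)) = c := h6 (f v)
    rw [Equiv.symm_apply_apply] at h7
    exact h7
  · intro h i φ h3 h4
    obtain ⟨h5, c, h6⟩ := h i (fun v => φ (f v)) h3 (fun v => by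
      rw [← h2]
      exact h4 _)
    refine ⟨h5, c, fun o => ?_⟩
    obtain ⟨v, rfl⟩ := f.surjective o
    exact h6 v

end Pool.Agent.P3
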