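import Pool.Agent.KGU.Main

/-!
# Networks with four ports: definitions

A state of a network with four ports is a pair `z = (j, p)`: `z.1 k` is the current into the port `k`, `z.2 k` the
potential of the port `k`.  The rest of a graph enters only through a set `B` of such pairs (the bad
pairs: those which come from a nontrivial solution of the network equations).
-/

set_option autoImplicit false

open scoped BigOperators

namespace Pool.Agent.P3

open Pool.Agent.KG

/-- port currents and port potentials -/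
abbrev Pt (K : Type) := (Fin 4 → K) × (Fin 4 → K)

noncomputable instance ffin (F : FinField) : Fintype F.K := Fintype.ofFinite _

section

variable {K : Type} [Field K]

/-- The pairs allowed by a network with resistance matrix `Q`. -/
def Lam (Q : Matrix (Fin 4) (Fin 4) K) (z : Pt K) : Prop :=
  ∑ k, z.1 k = 0 ∧ ∃ c : K, ∀ k, z.2 k + Q.mulVec z.1 k = c

/-- The pairs allowed by a network with the currentless potential `φ`. -/
def LamF (φ : Fin 4 → K) (Q : Matrix (Fin 4) (Fin 4) K) (z : Pt K) : Prop :=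
  ∑ k, z.1 k = 0 ∧ ∑ k, φ k * z.1 k = 0 ∧ ∃ c u : K, ∀ k, z.2 k + Q.mulVec z.1 k = c + u * φ k

/-- The pairs allowed by outer vertices `W`, the port `k` joined to the vertex `n k` by the resistance `y k`. -/
def LamN {W : Type} [DecidableEq W] (n : Fin 4 → W) (y : Fin 4 → K) (z : Pt K) : Prop :=
  (∀ w, ∑ k, (if n k = w then z.1 k else 0) = 0) ∧ ∃ ψ : W → K, ∀ k, z.2 k + y k * z.1 k = ψ (n k)

/-- The bad pairs after putting resistances `a`, `b` in front of the ports `0`, `1` and then the resistance `x`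
between them. -/
def bp (a b x : K) (B : Set (Pt K)) : Set (Pt K) :=
  {w | (∃ z ∈ B, ∃ r : K, x * r = (z.2 0 + a * z.1 0) - (z.2 1 + b * z.1 1) ∧
        w = (![z.1 0 + r, z.1 1 - r, z.1 2, z.1 3],
          ![z.2 0 + a * z.1 0, z.2 1 + b * z.1 1, z.2 2, z.2 3])) ∨
      ∃ r c : K, r ≠ 0 ∧ x * r = 0 ∧ w = (![r, -r, 0, 0], fun _ => c)}

/-- Permutation of the ports. -/
def pm (σ : Equiv.Perm (Fin 4)) (B : Set (Pt K)) : Set (Pt K) := {w | (w.1 ∘ σ.symm, w.2 ∘ σ.symm) ∈ B}

variable [Fintype K]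

/-- The number of legs `y` for which the network `Q` is transversal to `B`. -/
noncomputable def C (Q : Matrix (Fin 4) (Fin 4) K) (B : Set (Pt K)) : ℤ :=
  open Classical in ∑ y : Fin 4 → K, if ∀ z ∈ B, ¬ Lam (Q + Matrix.diagonal y) z then 1 else 0

/-- The same for `LamF φ`; `0` if `φ` is constant. -/
noncomputable def G (φ : Fin 4 → K) (Q : Matrix (Fin 4) (Fin 4) K) (B : Set (Pt K)) : ℤ :=
  open Classical in ∑ y : Fin 4 → K,
    if (¬ ∃ c, ∀ k, φ k = c) ∧ ∀ z ∈ B, ¬ LamF φ (Q + Matrix.diagonal y) z then 1 else 0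

/-- The same for the closing `n`. -/
noncomputable def Cl {W : Type} [DecidableEq W] (n : Fin 4 → W) (B : Set (Pt K)) : ℤ :=
  open Classical in ∑ y : Fin 4 → K, if ∀ z ∈ B, ¬ LamN n y z then 1 else 0

/-- Two legs and a rung. -/
noncomputable def R (X : Set (Pt K) → ℤ) (B : Set (Pt K)) : ℤ := ∑ a : K, ∑ b : K, ∑ x : K, X (bp a b x B)

end

section

variable {K : Type} [Field K]

/-- The two invariants of a symmetric matrix. -/
def al (Q : Matrix (Fin 4) (Fin 4) K) : K := Q 0 2 - Q 0 3 - Q 1 2 + Q 1 3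

/-- The second invariant. -/
def be (Q : Matrix (Fin 4) (Fin 4) K) : K := Q 0 1 - Q 0 2 - Q 1 3 + Q 2 3

/-- A symmetric matrix with invariants `α`, `β`. -/
def mt (α β : K) : Matrix (Fin 4) (Fin 4) K :=
  !![0, 0, 0, 0; 0, 0, 0, α; 0, 0, 0, α + β; 0, α, α + β, 0]

/-- `v = e₀ - e₁`. -/
def vv : Fin 4 → K := ![1, -1, 0, 0]

/-- The vector `g = (Q + diag (y₀, y₁, 0, 0)) v`. -/
def gv (Q : Matrix (Fin 4) (Fin 4) K) (y0 y1 : K) : Fin 4 → K :=
  fun k => Q.mulVec vv k + (![y0, -y1, 0, 0] : Fin 4 → K) k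

/-- The symmetric matrix `u wᵀ + w uᵀ`. -/
def sm (u w : Fin 4 → K) : Matrix (Fin 4) (Fin 4) K := Matrix.vecMulVec u w + Matrix.vecMulVec w u

variable [Fintype K]

/-- `C` as a function of the invariants. -/
noncomputable def cf (α β : K) (B : Set (Pt K)) : ℤ := C (mt α β) B

/-- Pairing `01|23`, all middle resistances. -/
noncomputable def H1 (B : Set (Pt K)) : ℤ := ∑ r : K, cf 0 r B

/-- Pairing `02|13`. -/
noncomputable def H2 (B : Set (Pt K)) : ℤ := ∑ r : K, cf r (-r) B

/-- Pairing `03|12`. -/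
noncomputable def H3 (B : Set (Pt K)) : ℤ := ∑ r : K, cf r 0 B

/-- All invariants. -/
noncomputable def PI (B : Set (Pt K)) : ℤ := ∑ α : K, ∑ β : K, cf α β B

/-- Potentials with `φ₂ = φ₃ = 0`. -/
noncomputable def Ps (B : Set (Pt K)) : ℤ := ∑ a : K, ∑ b : K, G ![a, b, 0, 0] 0 B

/-- Potentials with `φ₀ = φ₁ = 0`. -/
noncomputable def Ps01 (B : Set (Pt K)) : ℤ := ∑ a : K, ∑ b : K, G ![0, 0, a, b] 0 B

/-- Potentials with `φ₁ = φ₃ = 0`. -/
noncomputable def Ps13 (B : Set (Pt K)) : ℤ := ∑ a : K, ∑ b : K, G ![a, 0, b, 0] 0 B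

/-- The degenerate part of the four-cycle. -/
noncomputable def Bx (B : Set (Pt K)) : ℤ :=
  ∑ r : K, ∑ y0 : K, ∑ y1 : K, G ![y0, -y1, 0, -r] (mt r (-r)) B

/-- The number of elements of `K`. -/
noncomputable abbrev qK (K : Type) [Fintype K] : ℤ := (Fintype.card K : ℤ)

end

/-- The functionals which are combinations of cubic networks. -/
inductive Wd : ((F : FinField) → Set (Pt F.K) → ℤ) → Prop
  | one : Wd fun _ _ => 1
  | cl (n : Fin 4 → Fin 2) (hn : Function.Surjective n) : Wd fun _ B => Cl n B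
  | rung {X : (F : FinField) → Set (Pt F.K) → ℤ} : Wd X → Wd fun F B => R (X F) B
  | perm (σ : Equiv.Perm (Fin 4)) {X : (F : FinField) → Set (Pt F.K) → ℤ} : Wd X → Wd fun F B => X F (pm σ B)
  | add {X Y : (F : FinField) → Set (Pt F.K) → ℤ} : Wd X → Wd Y → Wd fun F B => X F B + Y F B
  | mulp (c : Polynomial ℤ) {X : (F : FinField) → Set (Pt F.K) → ℤ} : Wd X →
      Wd fun F B => c.eval F.q * X F B
  | div (m : Polynomial ℤ) {X : (F : FinField) → Set (Pt F.K) → ℤ} : m.Monic →
      (Wd fun F B => m.eval F.q * X F B) → Wd X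

/-! ### graphs -/

section

variable {V E K : Type} [Fintype E] [Field K]

open Classical in
/-- Net current out of a vertex. -/
noncomputable def net (s t : E → V) (i : E → K) (v : V) : K :=
  (∑ e, if s e = v then i e else 0) - ∑ e, if t e = v then i e else 0

open Classical in
/-- The bad pairs of a graph with ports `a` and resistances `x`. -/
def Bad (s t : E → V) (a : Fin 4 → V) (x : E → K) : Set (Pt K) :=
  {z | ∃ (i : E → K) (φ : V → K), (∀ e, x e * i e = φ (s e) - φ (t e)) ∧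
    (∀ v, net s t i v = ∑ k, if a k = v then z.1 k else 0) ∧ (∀ k, z.2 k = φ (a k)) ∧
    ¬ (i = 0 ∧ (∃ c, ∀ v, φ v = c) ∧ z.1 = 0)}

end

/-- The value of a functional at a graph with four ports. -/
noncomputable def ev {V E : Type} [Fintype E] (X : (F : FinField) → Set (Pt F.K) → ℤ) (s t : E → V)
    (a : Fin 4 → V) : FinField → ℤ :=
  fun F => open Classical in ∑ x : E → F.K, X F (Bad s t a x)

/-- Closing of the ports by outer vertices `W`: sources. -/
def clS {V E W : Type} (s : E → V) (n : Fin 4 → W) : E ⊕ Fin 4 → V ⊕ W :=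
  Sum.elim (fun e => Sum.inl (s e)) fun k => Sum.inr (n k)

/-- Closing of the ports: targets. -/
def clT {V E : Type} (W : Type) (t : E → V) (a : Fin 4 → V) : E ⊕ Fin 4 → V ⊕ W :=
  Sum.elim (fun e => Sum.inl (t e)) fun k => Sum.inl (a k)

/-- Two legs and a rung: sources. -/
def rgS {V E : Type} (s : E → V) : E ⊕ Fin 3 → V ⊕ Fin 2 :=
  Sum.elim (fun e => Sum.inl (s e)) ![Sum.inr 0, Sum.inr 1, Sum.inr 0]

/-- Two legs and a rung: targets. -/
def rgT {V E : Type} (t : E → V) (a : Fin 4 → V) : E ⊕ Fin 3 → V ⊕ Fin 2 :=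
  Sum.elim (fun e => Sum.inl (t e)) ![Sum.inl (a 0), Sum.inl (a 1), Sum.inr 1]

/-- The new ports. -/
def rgA {V : Type} (a : Fin 4 → V) : Fin 4 → V ⊕ Fin 2 := ![Sum.inr 0, Sum.inr 1, Sum.inl (a 2), Sum.inl (a 3)]

/-- Degree plus number of ports. -/
noncomputable def pd {V E : Type} (s t : E → V) (a : Fin 4 → V) (v : V) : ℕ := deg s t v + {k | a k = v}.ncard

/-- The graphs without loops, all degrees at most four, at most `m` vertices of degree four. -/
def Gm (m : ℕ) : Set (FinField → ℤ) :=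
  {f | ∃ (V E : Type) (_ : Fintype V) (_ : Fintype E) (s t : E → V), LL s t ∧ (∀ v, deg s t v ≤ 4) ∧
    {v | deg s t v = 4}.ncard ≤ m ∧ f = ns s t}

/-- The functions `ns` of the connected 3-regular multigraphs without loops. -/
def Reg3S : Set (FinField → ℤ) :=
  {f | ∃ (n m : ℕ) (s t : Fin m → Fin n), (∀ v, deg s t v = 3) ∧ (∀ e, s e ≠ t e) ∧
    (∃ T, IsTree s t T) ∧ f = ns s t}

end Pool.Agent.P3
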