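import Pool.Agent.P3.Defs

/-!
# Elimination of the rung
-/

set_option autoImplicit false

open scoped BigOperators

namespace Pool.Agent.P3

open Pool.Agent.KG

variable {K : Type} [Field K]

private theorem el_lam (Q : Matrix (Fin 4) (Fin 4) K) (z : Pt K) :
    Lam Q z ↔ (z.1 0 + z.1 1 + z.1 2 + z.1 3 = 0) ∧ ∃ c : K,
      (z.2 0 + (Q 0 0 * z.1 0 + Q 0 1 * z.1 1 + Q 0 2 * z.1 2 + Q 0 3 * z.1 3) = c) ∧
      (z.2 1 + (Q 1 0 * z.1 0 + Q 1 1 * z.1 1 + Q 1 2 * z.1 2 + Q 1 3 * z.1 3) = c) ∧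
      (z.2 2 + (Q 2 0 * z.1 0 + Q 2 1 * z.1 1 + Q 2 2 * z.1 2 + Q 2 3 * z.1 3) = c) ∧
      (z.2 3 + (Q 3 0 * z.1 0 + Q 3 1 * z.1 1 + Q 3 2 * z.1 2 + Q 3 3 * z.1 3) = c) := by
  unfold Lam
  simp only [Fin.sum_univ_four, Matrix.mulVec, dotProduct]
  constructor
  · rintro ⟨h1, c, h2⟩
    exact ⟨h1, c, h2 0, h2 1, h2 2, h2 3⟩
  · rintro ⟨h1, c, h2, h3, h4, h5⟩
    refine ⟨h1, c, fun k => ?_⟩
    fin_cases k
    · exact h2
    · exact h3
    · exact h4
    · exact h5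

private theorem el_lamF (φ : Fin 4 → K) (Q : Matrix (Fin 4) (Fin 4) K) (z : Pt K) :
    LamF φ Q z ↔ (z.1 0 + z.1 1 + z.1 2 + z.1 3 = 0) ∧
      (φ 0 * z.1 0 + φ 1 * z.1 1 + φ 2 * z.1 2 + φ 3 * z.1 3 = 0) ∧ ∃ c u : K,
      (z.2 0 + (Q 0 0 * z.1 0 + Q 0 1 * z.1 1 + Q 0 2 * z.1 2 + Q 0 3 * z.1 3) = c + u * φ 0) ∧
      (z.2 1 + (Q 1 0 * z.1 0 + Q 1 1 * z.1 1 + Q 1 2 * z.1 2 + Q 1 3 * z.1 3) = c + u * φ 1) ∧
      (z.2 2 + (Q 2 0 * z.1 0 + Q 2 1 * z.1 1 + Q 2 2 * z.1 2 + Q 2 3 * z.1 3) = c + u * φ 2) ∧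
      (z.2 3 + (Q 3 0 * z.1 0 + Q 3 1 * z.1 1 + Q 3 2 * z.1 2 + Q 3 3 * z.1 3) = c + u * φ 3) := by
  unfold LamF
  simp only [Fin.sum_univ_four, Matrix.mulVec, dotProduct]
  constructor
  · rintro ⟨h1, h0, c, u, h2⟩
    exact ⟨h1, h0, c, u, h2 0, h2 1, h2 2, h2 3⟩
  · rintro ⟨h1, h0, c, u, h2, h3, h4, h5⟩
    refine ⟨h1, h0, c, u, fun k => ?_⟩
    fin_cases k
    · exact h2
    · exact h3
    · exact h4
    · exact h5

private theorem el_ent (Q : Matrix (Fin 4) (Fin 4) K) (a b : K) :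
    (∀ k l : Fin 4, k ≠ l → (Q + Matrix.diagonal ![a, b, 0, 0]) k l = Q k l) ∧
    (Q + Matrix.diagonal ![a, b, 0, 0]) 0 0 = Q 0 0 + a ∧
    (Q + Matrix.diagonal ![a, b, 0, 0]) 1 1 = Q 1 1 + b ∧
    (Q + Matrix.diagonal ![a, b, 0, 0]) 2 2 = Q 2 2 ∧
    (Q + Matrix.diagonal ![a, b, 0, 0]) 3 3 = Q 3 3 := by
  refine ⟨?_, ?_, ?_, ?_, ?_⟩
  · intro k l h
    rw [Matrix.add_apply, Matrix.diagonal_apply_ne _ h, add_zero]
  · rw [Matrix.add_apply, Matrix.diagonal_apply_eq]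
    rfl
  · rw [Matrix.add_apply, Matrix.diagonal_apply_eq]
    rfl
  · rw [Matrix.add_apply, Matrix.diagonal_apply_eq]
    exact add_zero _
  · rw [Matrix.add_apply, Matrix.diagonal_apply_eq]
    exact add_zero _

private theorem el_d (Q N : Matrix (Fin 4) (Fin 4) K) (a b : K) (z : Pt K) :
    Lam (Q + Matrix.diagonal ![a, b, 0, 0] + N) z ↔ (z.1 0 + z.1 1 + z.1 2 + z.1 3 = 0) ∧ ∃ c : K,
      (z.2 0 + a * z.1 0 + (Q 0 0 * z.1 0 + Q 0 1 * z.1 1 + Q 0 2 * z.1 2 + Q 0 3 * z.1 3) +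
        (N 0 0 * z.1 0 + N 0 1 * z.1 1 + N 0 2 * z.1 2 + N 0 3 * z.1 3) = c) ∧
      (z.2 1 + b * z.1 1 + (Q 1 0 * z.1 0 + Q 1 1 * z.1 1 + Q 1 2 * z.1 2 + Q 1 3 * z.1 3) +
        (N 1 0 * z.1 0 + N 1 1 * z.1 1 + N 1 2 * z.1 2 + N 1 3 * z.1 3) = c) ∧
      (z.2 2 + (Q 2 0 * z.1 0 + Q 2 1 * z.1 1 + Q 2 2 * z.1 2 + Q 2 3 * z.1 3) +
        (N 2 0 * z.1 0 + N 2 1 * z.1 1 + N 2 2 * z.1 2 + N 2 3 * z.1 3) = c) ∧
      (z.2 3 + (Q 3 0 * z.1 0 + Q 3 1 * z.1 1 + Q 3 2 * z.1 2 + Q 3 3 * z.1 3) +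
        (N 3 0 * z.1 0 + N 3 1 * z.1 1 + N 3 2 * z.1 2 + N 3 3 * z.1 3) = c) := by
  rw [el_lam]
  obtain ⟨hne, e0, e1, e2, e3⟩ := el_ent Q a b
  simp only [Matrix.add_apply _ N, e0, e1, e2, e3, hne 0 1 (by decide), hne 0 2 (by decide), hne 0 3 (by decide),
    hne 1 0 (by decide), hne 1 2 (by decide), hne 1 3 (by decide), hne 2 0 (by decide), hne 2 1 (by decide),
    hne 2 3 (by decide), hne 3 0 (by decide), hne 3 1 (by decide), hne 3 2 (by decide)]
  constructor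
  · rintro ⟨h1, c, h2, h3, h4, h5⟩
    exact ⟨h1, c, by linear_combination h2, by linear_combination h3, by linear_combination h4,
      by linear_combination h5⟩
  · rintro ⟨h1, c, h2, h3, h4, h5⟩
    exact ⟨h1, c, by linear_combination h2, by linear_combination h3, by linear_combination h4,
      by linear_combination h5⟩

private theorem el_dF (φ : Fin 4 → K) (Q : Matrix (Fin 4) (Fin 4) K) (a b : K) (z : Pt K) :
    LamF φ (Q + Matrix.diagonal ![a, b, 0, 0]) z ↔ (z.1 0 + z.1 1 + z.1 2 + z.1 3 = 0) ∧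
      (φ 0 * z.1 0 + φ 1 * z.1 1 + φ 2 * z.1 2 + φ 3 * z.1 3 = 0) ∧ ∃ c u : K,
      (z.2 0 + a * z.1 0 + (Q 0 0 * z.1 0 + Q 0 1 * z.1 1 + Q 0 2 * z.1 2 + Q 0 3 * z.1 3) = c + u * φ 0) ∧
      (z.2 1 + b * z.1 1 + (Q 1 0 * z.1 0 + Q 1 1 * z.1 1 + Q 1 2 * z.1 2 + Q 1 3 * z.1 3) = c + u * φ 1) ∧
      (z.2 2 + (Q 2 0 * z.1 0 + Q 2 1 * z.1 1 + Q 2 2 * z.1 2 + Q 2 3 * z.1 3) = c + u * φ 2) ∧
      (z.2 3 + (Q 3 0 * z.1 0 + Q 3 1 * z.1 1 + Q 3 2 * z.1 2 + Q 3 3 * z.1 3) = c + u * φ 3) := by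
  rw [el_lamF]
  obtain ⟨hne, e0, e1, e2, e3⟩ := el_ent Q a b
  simp only [e0, e1, e2, e3, hne 0 1 (by decide), hne 0 2 (by decide), hne 0 3 (by decide),
    hne 1 0 (by decide), hne 1 2 (by decide), hne 1 3 (by decide), hne 2 0 (by decide), hne 2 1 (by decide),
    hne 2 3 (by decide), hne 3 0 (by decide), hne 3 1 (by decide), hne 3 2 (by decide)]
  constructor
  · rintro ⟨h1, h0, c, u, h2, h3, h4, h5⟩
    exact ⟨h1, h0, c, u, by linear_combination h2, by linear_combination h3, by linear_combination h4,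
      by linear_combination h5⟩
  · rintro ⟨h1, h0, c, u, h2, h3, h4, h5⟩
    exact ⟨h1, h0, c, u, by linear_combination h2, by linear_combination h3, by linear_combination h4,
      by linear_combination h5⟩

omit [Field K] in
private theorem el_sym {Q : Matrix (Fin 4) (Fin 4) K} (hQ : Q.IsSymm) : Q 0 1 = Q 1 0 ∧ Q 0 2 = Q 2 0 ∧
    Q 0 3 = Q 3 0 ∧ Q 1 2 = Q 2 1 ∧ Q 1 3 = Q 3 1 ∧ Q 2 3 = Q 3 2 :=
  ⟨hQ.apply 1 0, hQ.apply 2 0, hQ.apply 3 0, hQ.apply 2 1, hQ.apply 3 1, hQ.apply 3 2⟩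

/-- MODULE EL1.  Elimination of the current `r` in the rung, `S ≠ 0`.

Proof.  Write `v = e₀ - e₁`, `g = Q v` (hypothesis `hg`), `S = x + v · g`.
(→) Let `w ∈ bp a b x B` with `Lam Q w`.  First kind: `w = (j + r v, P)` with `(j, p) ∈ B`,
`P = p + diag(a, b, 0, 0) j`, `x r = P 0 - P 1`.  Then `∑ j = 0` and `P + Q j + r g` is constant.  The difference of the
components `0` and `1` gives `x r + g · j + r (v · g) = 0` (`v · Q j = g · j` as `Q` is symmetric), so `r = - (g · j) / S`,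
and `p + (Q + diag(a, b, 0, 0) - S⁻¹ g gᵀ) j` is constant.  Second kind: `w = ((r, -r, 0, 0), const)`, `r ≠ 0`,
`x r = 0`: then `x = 0` and `r g` is constant, so `v · g = 0` and `S = 0`, contradiction.
(←) Let `(j, p) ∈ B` and `Lam (..) (j, p)`.  Put `r = - (g · j) / S`, and take the first kind.  The equation
`x r = P 0 - P 1` follows from the difference of the components `0` and `1` of the constant vector
`P + Q j + r g` : `P 0 - P 1 + g · j + r (v · g) = 0` and `g · j = - S r`. -/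
theorem elim1 (Q : Matrix (Fin 4) (Fin 4) K) (hQ : Q.IsSymm) (a b x : K) (g : Fin 4 → K)
    (hg : ∀ k, g k = Q k 0 - Q k 1) (S : K) (hS : S = x + (g 0 - g 1)) (h0 : S ≠ 0) (B : Set (Pt K)) :
    (∃ z ∈ bp a b x B, Lam Q z) ↔
      ∃ z ∈ B, Lam (Q + Matrix.diagonal ![a, b, 0, 0] - S⁻¹ • Matrix.vecMulVec g g) z := by
  obtain ⟨s01, s02, s03, s12, s13, s23⟩ := el_sym hQ
  have g0 := hg 0
  have g1 := hg 1
  have g2 := hg 2
  have g3 := hg 3
  have hN : ∀ k l : Fin 4, (-(S⁻¹ • Matrix.vecMulVec g g) : Matrix (Fin 4) (Fin 4) K) k l =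
      -(S⁻¹ * (g k * g l)) := by
    intro k l
    rw [Matrix.neg_apply, Matrix.smul_apply, Matrix.vecMulVec_apply, smul_eq_mul]
  simp only [sub_eq_add_neg (Q + Matrix.diagonal ![a, b, 0, 0]), el_d, hN]
  simp only [s01, s02, s03, s12, s13, s23] at g0 g1 g2 g3 ⊢
  constructor
  · rintro ⟨w, hw, hL⟩
    rw [el_lam] at hL
    simp only [s01, s02, s03, s12, s13, s23] at hL
    obtain ⟨hs, c, e0, e1, e2, e3⟩ := hL
    rcases hw with ⟨z, hz, r, hr, rfl⟩ | ⟨r, c', hr0, hxr, rfl⟩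
    · simp only [Matrix.cons_val_zero, Matrix.cons_val_one, Matrix.cons_val] at hs e0 e1 e2 e3
      have hSr : S * r = -(g 0 * z.1 0 + g 1 * z.1 1 + g 2 * z.1 2 + g 3 * z.1 3) := by
        rw [hS, g0, g1, g2, g3]
        linear_combination hr + e0 - e1
      have hr' : r = -(S⁻¹ * (g 0 * z.1 0 + g 1 * z.1 1 + g 2 * z.1 2 + g 3 * z.1 3)) := by
        rw [← mul_neg, ← hSr, inv_mul_cancel_left₀ h0]
      refine ⟨z, hz, by linear_combination hs, c, ?_, ?_, ?_, ?_⟩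
      · linear_combination e0 + r * g0 - g 0 * hr'
      · linear_combination e1 + r * g1 - g 1 * hr'
      · linear_combination e2 + r * g2 - g 2 * hr'
      · linear_combination e3 + r * g3 - g 3 * hr'
    · exfalso
      simp only [Matrix.cons_val_zero, Matrix.cons_val_one, Matrix.cons_val] at hs e0 e1 e2 e3
      have hx : x = 0 := (mul_eq_zero.1 hxr).resolve_right hr0
      have h1 : r * S = 0 := by
        rw [hS, g0, g1]
        linear_combination hxr + e0 - e1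
      exact (mul_ne_zero hr0 h0) h1
  · rintro ⟨z, hz, hs, c, e0, e1, e2, e3⟩
    obtain ⟨r, hr'⟩ : ∃ r, r = -(S⁻¹ * (g 0 * z.1 0 + g 1 * z.1 1 + g 2 * z.1 2 + g 3 * z.1 3)) := ⟨_, rfl⟩
    have hSr : S * r = -(g 0 * z.1 0 + g 1 * z.1 1 + g 2 * z.1 2 + g 3 * z.1 3) := by
      rw [hr', mul_neg, mul_inv_cancel_left₀ h0]
    refine ⟨(![z.1 0 + r, z.1 1 - r, z.1 2, z.1 3],
          ![z.2 0 + a * z.1 0, z.2 1 + b * z.1 1, z.2 2, z.2 3]), Or.inl ⟨z, hz, r, ?_, rfl⟩, ?_⟩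
    · have hgj : g 0 * z.1 0 + g 1 * z.1 1 + g 2 * z.1 2 + g 3 * z.1 3 = -(S * r) := by
        rw [hSr, neg_neg]
      have e0' : z.2 0 + a * z.1 0 + (Q 0 0 * z.1 0 + Q 1 0 * z.1 1 + Q 2 0 * z.1 2 + Q 3 0 * z.1 3) +
          g 0 * r = c := by
        rw [hr']
        linear_combination e0
      have e1' : z.2 1 + b * z.1 1 + (Q 1 0 * z.1 0 + Q 1 1 * z.1 1 + Q 2 1 * z.1 2 + Q 3 1 * z.1 3) +
          g 1 * r = c := by
        rw [hr']
        linear_combination e1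
      rw [g0, g1, g2, g3] at hgj
      rw [g0] at e0'
      rw [g1] at e1'
      rw [hS, g0, g1] at hgj
      linear_combination e1' - e0' + hgj
    · rw [el_lam]
      simp only [Matrix.cons_val_zero, Matrix.cons_val_one, Matrix.cons_val, s01, s02, s03, s12, s13, s23]
      refine ⟨by linear_combination hs, c, ?_, ?_, ?_, ?_⟩
      · linear_combination e0 - r * g0 + g 0 * hr'
      · linear_combination e1 - r * g1 + g 1 * hr'
      · linear_combination e2 - r * g2 + g 2 * hr'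
      · linear_combination e3 - r * g3 + g 3 * hr'

/-- MODULE EL2.  The same for `S = 0`.

Proof.  (→) First kind: `g · j = - r S = 0`, and `p + (Q + diag(a, b, 0, 0)) j = c - r g`, so `LamF g (..) (j, p)`.
Second kind: `r g` is constant with `r ≠ 0`, so `g` is constant.
(←) If `g` is constant, then `v · g = 0`, so `x = 0`, and `w = ((1, -1, 0, 0), 0)` (second kind, `r = 1`) satisfies
`Lam Q w`.  If `LamF g (..) (j, p)` with the constants `c`, `u`, put `r = -u`: `P + Q j + r g = c`, and the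
difference of the components `0` and `1` gives `P 0 - P 1 = - g · j - r (v · g) = - r (v · g) = x r`. -/
theorem elim2 (Q : Matrix (Fin 4) (Fin 4) K) (hQ : Q.IsSymm) (a b x : K) (g : Fin 4 → K)
    (hg : ∀ k, g k = Q k 0 - Q k 1) (hS : x + (g 0 - g 1) = 0) (B : Set (Pt K)) :
    (∃ z ∈ bp a b x B, Lam Q z) ↔
      (∃ c, ∀ k, g k = c) ∨ ∃ z ∈ B, LamF g (Q + Matrix.diagonal ![a, b, 0, 0]) z := by
  obtain ⟨s01, s02, s03, s12, s13, s23⟩ := el_sym hQ
  have g0 := hg 0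
  have g1 := hg 1
  have g2 := hg 2
  have g3 := hg 3
  simp only [el_dF]
  simp only [s01, s02, s03, s12, s13, s23] at g0 g1 g2 g3 ⊢
  constructor
  · rintro ⟨w, hw, hL⟩
    rw [el_lam] at hL
    simp only [s01, s02, s03, s12, s13, s23] at hL
    obtain ⟨hs, c, e0, e1, e2, e3⟩ := hL
    rcases hw with ⟨z, hz, r, hr, rfl⟩ | ⟨r, c', hr0, hxr, rfl⟩
    · simp only [Matrix.cons_val_zero, Matrix.cons_val_one, Matrix.cons_val] at hs e0 e1 e2 e3
      right
      refine ⟨z, hz, by linear_combination hs, ?_, c, -r, ?_, ?_, ?_, ?_⟩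
      · rw [g0, g1] at hS
        rw [g0, g1, g2, g3]
        linear_combination e0 - e1 + hr - r * hS
      · linear_combination e0 + r * g0
      · linear_combination e1 + r * g1
      · linear_combination e2 + r * g2
      · linear_combination e3 + r * g3
    · left
      simp only [Matrix.cons_val_zero, Matrix.cons_val_one, Matrix.cons_val] at hs e0 e1 e2 e3
      have key : ∀ k, g k = r⁻¹ * (c - c') := by
        have h : ∀ k, r * g k = c - c' := by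
          intro k
          fin_cases k
          · show r * g 0 = c - c'
            rw [g0]
            linear_combination e0
          · show r * g 1 = c - c'
            rw [g1]
            linear_combination e1
          · show r * g 2 = c - c'
            rw [g2]
            linear_combination e2
          · show r * g 3 = c - c'
            rw [g3]
            linear_combination e3
        intro k
        rw [← h k, inv_mul_cancel_left₀ hr0]
      exact ⟨_, key⟩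
  · rintro (⟨c, hc⟩ | ⟨z, hz, hs, hgj, c, u, e0, e1, e2, e3⟩)
    · refine ⟨(![1, -1, 0, 0], fun _ => 0), Or.inr ⟨1, 0, one_ne_zero, ?_, rfl⟩, ?_⟩
      · rw [hc 0, hc 1] at hS
        linear_combination hS
      · rw [el_lam]
        simp only [Matrix.cons_val_zero, Matrix.cons_val_one, Matrix.cons_val, s01, s02, s03, s12, s13, s23]
        rw [hc 0] at g0
        rw [hc 1] at g1
        rw [hc 2] at g2
        rw [hc 3] at g3
        refine ⟨by ring, c, ?_, ?_, ?_, ?_⟩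
        · linear_combination -g0
        · linear_combination -g1
        · linear_combination -g2
        · linear_combination -g3
    · refine ⟨(![z.1 0 + -u, z.1 1 - -u, z.1 2, z.1 3],
          ![z.2 0 + a * z.1 0, z.2 1 + b * z.1 1, z.2 2, z.2 3]), Or.inl ⟨z, hz, -u, ?_, rfl⟩, ?_⟩
      · rw [g0, g1] at hS
        rw [g0, g1, g2, g3] at hgj
        rw [g0] at e0
        rw [g1] at e1
        linear_combination -u * hS - e0 + e1 + hgj
      · rw [el_lam]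
        simp only [Matrix.cons_val_zero, Matrix.cons_val_one, Matrix.cons_val, s01, s02, s03, s12, s13, s23]
        refine ⟨by linear_combination hs, c, ?_, ?_, ?_, ?_⟩
        · linear_combination e0 + u * g0
        · linear_combination e1 + u * g1
        · linear_combination e2 + u * g2
        · linear_combination e3 + u * g3

/-- MODULE EL3.  The same for `LamF φ`, `δ = φ 0 - φ 1 ≠ 0`.

Proof.  First kind, `w = (j + r v, P)` as in `elim1`: `∑ j = 0`; `φ · j + r δ = 0`, so `r = - (φ · j) / δ`; `P + Q j +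
r g = c + u φ`, and the difference of the components `0` and `1` gives `x r + g · j + r (v · g) = u δ`, so
`u = δ⁻¹ (g · j + (x + v · g) r)`.  Inserting `r` and `u`: `p + (Q + diag(a, b, 0, 0) - δ⁻¹ (g φᵀ + φ gᵀ) +
δ⁻² (x + v · g) φ φᵀ) j = c`.  Conversely put `r = - (φ · j) / δ` and `u` as above; then `x r = P 0 - P 1` by
the same difference.  Second kind: `φ · (r v) = r δ ≠ 0`, impossible.  (`sm g φ = g φᵀ + φ gᵀ`.) -/
theorem elim3 (φ : Fin 4 → K) (Q : Matrix (Fin 4) (Fin 4) K) (hQ : Q.IsSymm) (a b x : K) (g : Fin 4 → K)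
    (hg : ∀ k, g k = Q k 0 - Q k 1) (δ : K) (hδ : δ = φ 0 - φ 1) (h0 : δ ≠ 0) (B : Set (Pt K)) :
    (∃ z ∈ bp a b x B, LamF φ Q z) ↔
      ∃ z ∈ B, Lam (Q + Matrix.diagonal ![a, b, 0, 0] - δ⁻¹ • sm g φ +
        (δ⁻¹ * δ⁻¹ * (x + (g 0 - g 1))) • Matrix.vecMulVec φ φ) z := by
  obtain ⟨s01, s02, s03, s12, s13, s23⟩ := el_sym hQ
  have g0 := hg 0
  have g1 := hg 1
  have g2 := hg 2
  have g3 := hg 3
  have hN : ∀ k l : Fin 4, (-(δ⁻¹ • sm g φ) + (δ⁻¹ * δ⁻¹ * (x + (g 0 - g 1))) • Matrix.vecMulVec φ φ :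
      Matrix (Fin 4) (Fin 4) K) k l =
      -(δ⁻¹ * (g k * φ l + φ k * g l)) + δ⁻¹ * δ⁻¹ * (x + (g 0 - g 1)) * (φ k * φ l) := by
    intro k l
    unfold sm
    rw [Matrix.add_apply, Matrix.neg_apply, Matrix.smul_apply, Matrix.smul_apply, Matrix.add_apply,
      Matrix.vecMulVec_apply, Matrix.vecMulVec_apply, Matrix.vecMulVec_apply, smul_eq_mul, smul_eq_mul]
  have hM : Q + Matrix.diagonal ![a, b, 0, 0] - δ⁻¹ • sm g φ +
        (δ⁻¹ * δ⁻¹ * (x + (g 0 - g 1))) • Matrix.vecMulVec φ φ =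
      Q + Matrix.diagonal ![a, b, 0, 0] + (-(δ⁻¹ • sm g φ) +
        (δ⁻¹ * δ⁻¹ * (x + (g 0 - g 1))) • Matrix.vecMulVec φ φ) := by abel
  rw [hM]
  simp only [el_d, hN]
  simp only [s01, s02, s03, s12, s13, s23] at g0 g1 g2 g3 ⊢
  constructor
  · rintro ⟨w, hw, hL⟩
    rw [el_lamF] at hL
    simp only [s01, s02, s03, s12, s13, s23] at hL
    obtain ⟨hs, hφj, c, u, e0, e1, e2, e3⟩ := hL
    rcases hw with ⟨z, hz, r, hr, rfl⟩ | ⟨r, c', hr0, hxr, rfl⟩
    · simp only [Matrix.cons_val_zero, Matrix.cons_val_one, Matrix.cons_val] at hs hφj e0 e1 e2 e3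
      obtain ⟨J, hJ⟩ : ∃ J, J = φ 0 * z.1 0 + φ 1 * z.1 1 + φ 2 * z.1 2 + φ 3 * z.1 3 := ⟨_, rfl⟩
      obtain ⟨Gj, hGj⟩ : ∃ Gj, Gj = g 0 * z.1 0 + g 1 * z.1 1 + g 2 * z.1 2 + g 3 * z.1 3 := ⟨_, rfl⟩
      have hr1 : δ * r = -J := by rw [hδ, hJ]; linear_combination hφj
      have hr' : r = -(δ⁻¹ * J) := by rw [← mul_neg, ← hr1, inv_mul_cancel_left₀ h0]
      have hu1 : δ * u = Gj + (x + (g 0 - g 1)) * r := by
        rw [hδ, hGj, g0, g1, g2, g3]
        linear_combination e1 - e0 - hr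
      have hu' : u = δ⁻¹ * (Gj + (x + (g 0 - g 1)) * r) := by
        rw [← hu1, inv_mul_cancel_left₀ h0]
      refine ⟨z, hz, by linear_combination hs, c, ?_, ?_, ?_, ?_⟩
      · have : -(u * φ 0) + g 0 * r = -(δ⁻¹ * (g 0 * J + φ 0 * Gj)) +
            δ⁻¹ * δ⁻¹ * (x + (g 0 - g 1)) * (φ 0 * J) := by
          rw [hu', hr']
          ring
        rw [hJ, hGj] at this
        linear_combination e0 - this + r * g0
      · have : -(u * φ 1) + g 1 * r = -(δ⁻¹ * (g 1 * J + φ 1 * Gj)) +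
            δ⁻¹ * δ⁻¹ * (x + (g 0 - g 1)) * (φ 1 * J) := by
          rw [hu', hr']
          ring
        rw [hJ, hGj] at this
        linear_combination e1 - this + r * g1
      · have : -(u * φ 2) + g 2 * r = -(δ⁻¹ * (g 2 * J + φ 2 * Gj)) +
            δ⁻¹ * δ⁻¹ * (x + (g 0 - g 1)) * (φ 2 * J) := by
          rw [hu', hr']
          ring
        rw [hJ, hGj] at this
        linear_combination e2 - this + r * g2
      · have : -(u * φ 3) + g 3 * r = -(δ⁻¹ * (g 3 * J + φ 3 * Gj)) +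
            δ⁻¹ * δ⁻¹ * (x + (g 0 - g 1)) * (φ 3 * J) := by
          rw [hu', hr']
          ring
        rw [hJ, hGj] at this
        linear_combination e3 - this + r * g3
    · exfalso
      simp only [Matrix.cons_val_zero, Matrix.cons_val_one, Matrix.cons_val] at hφj
      have h1 : r * δ = 0 := by
        rw [hδ]
        linear_combination hφj
      exact (mul_ne_zero hr0 h0) h1
  · rintro ⟨z, hz, hs, c, e0, e1, e2, e3⟩
    obtain ⟨J, hJ⟩ : ∃ J, J = φ 0 * z.1 0 + φ 1 * z.1 1 + φ 2 * z.1 2 + φ 3 * z.1 3 := ⟨_, rfl⟩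
    obtain ⟨Gj, hGj⟩ : ∃ Gj, Gj = g 0 * z.1 0 + g 1 * z.1 1 + g 2 * z.1 2 + g 3 * z.1 3 := ⟨_, rfl⟩
    obtain ⟨r, hr'⟩ : ∃ r, r = -(δ⁻¹ * J) := ⟨_, rfl⟩
    obtain ⟨u, hu'⟩ : ∃ u, u = δ⁻¹ * (Gj + (x + (g 0 - g 1)) * r) := ⟨_, rfl⟩
    have hr1 : δ * r = -J := by rw [hr', mul_neg, mul_inv_cancel_left₀ h0]
    have hu1 : δ * u = Gj + (x + (g 0 - g 1)) * r := by rw [hu', mul_inv_cancel_left₀ h0]
    have key : ∀ k : Fin 4, -(u * φ k) + g k * r = -(δ⁻¹ * (g k * J + φ k * Gj)) +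
            δ⁻¹ * δ⁻¹ * (x + (g 0 - g 1)) * (φ k * J) := by
      intro k
      rw [hu', hr']
      ring
    have k0 := key 0
    have k1 := key 1
    have k2 := key 2
    have k3 := key 3
    rw [hJ, hGj] at k0 k1 k2 k3
    refine ⟨(![z.1 0 + r, z.1 1 - r, z.1 2, z.1 3],
          ![z.2 0 + a * z.1 0, z.2 1 + b * z.1 1, z.2 2, z.2 3]), Or.inl ⟨z, hz, r, ?_, rfl⟩, ?_⟩
    · have e0' : z.2 0 + a * z.1 0 + (Q 0 0 * z.1 0 + Q 1 0 * z.1 1 + Q 2 0 * z.1 2 + Q 3 0 * z.1 3) +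
          g 0 * r = c + u * φ 0 := by
        linear_combination e0 + k0
      have e1' : z.2 1 + b * z.1 1 + (Q 1 0 * z.1 0 + Q 1 1 * z.1 1 + Q 2 1 * z.1 2 + Q 3 1 * z.1 3) +
          g 1 * r = c + u * φ 1 := by
        linear_combination e1 + k1
      rw [hδ] at hu1
      rw [hGj] at hu1
      rw [g0, g1, g2, g3] at hu1
      rw [g0] at e0'
      rw [g1] at e1'
      linear_combination e1' - e0' - hu1
    · rw [el_lamF]
      simp only [Matrix.cons_val_zero, Matrix.cons_val_one, Matrix.cons_val, s01, s02, s03, s12, s13, s23]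
      rw [hδ, hJ] at hr1
      refine ⟨by linear_combination hs, by linear_combination hr1, c, u, ?_, ?_, ?_, ?_⟩
      · linear_combination e0 + k0 - r * g0
      · linear_combination e1 + k1 - r * g1
      · linear_combination e2 + k2 - r * g2
      · linear_combination e3 + k3 - r * g3

end Pool.Agent.P3
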