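import Pool.Agent.P3.Defs

/-!
# Changes of `φ` and `Q` which do not change `G`
-/

set_option autoImplicit false

open scoped BigOperators

namespace Pool.Agent.P3

open Pool.Agent.KG

variable {K : Type} [Field K] [Fintype K]

omit [Fintype K] in
private theorem GSH_mv (φ : Fin 4 → K) (Q Q' : Matrix (Fin 4) (Fin 4) K) (d w w' u u' : Fin 4 → K)
    (h : ∀ k l, Q' k l = Q k l + (if k = l then d k else 0) + w l + w' k + φ k * u l + u' k * φ l)
    (y j : Fin 4 → K) (k : Fin 4) :
    (Q' + Matrix.diagonal y).mulVec j k =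
      (Q + Matrix.diagonal (y + d)).mulVec j k + ∑ l, w l * j l + w' k * ∑ l, j l +
        φ k * ∑ l, u l * j l + u' k * ∑ l, φ l * j l := by
  have e1 : ∀ l, (Q' + Matrix.diagonal y) k l * j l = (Q + Matrix.diagonal (y + d)) k l * j l +
      w l * j l + w' k * j l + φ k * (u l * j l) + u' k * (φ l * j l) := by
    intro l
    rw [Matrix.add_apply, Matrix.add_apply, Matrix.diagonal_apply, Matrix.diagonal_apply, h]
    by_cases hkl : k = l
    · rw [if_pos hkl, if_pos hkl, if_pos hkl, Pi.add_apply]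
      ring
    · rw [if_neg hkl, if_neg hkl, if_neg hkl]
      ring
  show ∑ l, (Q' + Matrix.diagonal y) k l * j l =
    ∑ l, (Q + Matrix.diagonal (y + d)) k l * j l + _ + _ + _ + _
  rw [Finset.sum_congr rfl fun l _ => e1 l, Finset.sum_add_distrib, Finset.sum_add_distrib,
    Finset.sum_add_distrib, Finset.sum_add_distrib, ← Finset.mul_sum, ← Finset.mul_sum, ← Finset.mul_sum]

omit [Fintype K] in
private theorem GSH_phi (φ φ' : Fin 4 → K) (c : K) (hφ : ∀ k, φ' k = φ k + c) (j : Fin 4 → K)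
    (h0 : ∑ k, j k = 0) : ∑ k, φ' k * j k = ∑ k, φ k * j k := by
  have e1 : ∀ k, φ' k * j k = φ k * j k + c * j k := by
    intro k
    rw [hφ]
    ring
  rw [Finset.sum_congr rfl fun k _ => e1 k, Finset.sum_add_distrib, ← Finset.mul_sum, h0]
  ring

omit [Fintype K] in
private theorem GSH_lam (φ φ' : Fin 4 → K) (c : K) (hφ : ∀ k, φ' k = φ k + c)
    (Q Q' : Matrix (Fin 4) (Fin 4) K) (d w w' u u' : Fin 4 → K)
    (h : ∀ k l, Q' k l = Q k l + (if k = l then d k else 0) + w l + w' k + φ k * u l + u' k * φ l)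
    (y : Fin 4 → K) (z : Pt K) :
    LamF φ' (Q' + Matrix.diagonal y) z ↔ LamF φ (Q + Matrix.diagonal (y + d)) z := by
  constructor
  · rintro ⟨h0, h1, c', u0, hc⟩
    rw [GSH_phi φ φ' c hφ z.1 h0] at h1
    refine ⟨h0, h1, c' + c * u0 - ∑ l, w l * z.1 l, u0 - ∑ l, u l * z.1 l, fun k => ?_⟩
    have h2 := hc k
    rw [GSH_mv φ Q Q' d w w' u u' h, h0, h1, hφ] at h2
    linear_combination h2
  · rintro ⟨h0, h1, c', u0, hc⟩
    refine ⟨h0, (GSH_phi φ φ' c hφ z.1 h0).trans h1, c' + ∑ l, w l * z.1 l -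
      c * (u0 + ∑ l, u l * z.1 l), u0 + ∑ l, u l * z.1 l, fun k => ?_⟩
    have h2 := hc k
    rw [GSH_mv φ Q Q' d w w' u u' h, h0, h1, hφ]
    linear_combination h2

private theorem GSH_ite {p q : Prop} [Decidable p] [Decidable q] (h : p ↔ q) :
    (if p then (1 : ℤ) else 0) = if q then 1 else 0 := by
  by_cases hp : p
  · rw [if_pos hp, if_pos (h.1 hp)]
  · rw [if_neg hp, if_neg fun h3 => hp (h.2 h3)]

/-- MODULE GSH.

Proof.  `φ'` is constant iff `φ` is.  If `∑ k, j k = 0` then `∑ k, φ' k * j k = ∑ k, φ k * j k`, and if this is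
`0` too, then `(Q' + diagonal y).mulVec j k = (Q + diagonal (y + d)).mulVec j k + (∑ l, w l * j l) +
φ k * ∑ l, u l * j l` (the terms with `w'` and `u'` vanish); so `LamF φ' (Q' + diagonal y) z ↔ LamF φ (Q + diagonal
(y + d)) z` (change `c`, `u` of the definition).  Substitute `y ↦ y + d` in the sum. -/
theorem G_shift (φ φ' : Fin 4 → K) (c : K) (hφ : ∀ k, φ' k = φ k + c) (Q Q' : Matrix (Fin 4) (Fin 4) K)
    (d w w' u u' : Fin 4 → K)
    (h : ∀ k l, Q' k l = Q k l + (if k = l then d k else 0) + w l + w' k + φ k * u l + u' k * φ l)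
    (B : Set (Pt K)) : G φ' Q' B = G φ Q B := by
  classical
  unfold G
  refine Fintype.sum_equiv (Equiv.addRight d) _ _ fun y => GSH_ite (and_congr (not_congr ?_) ?_)
  · constructor
    · rintro ⟨c', hc'⟩
      refine ⟨c' - c, fun k => ?_⟩
      rw [← hc' k, hφ]
      ring
    · rintro ⟨c', hc'⟩
      refine ⟨c' + c, fun k => ?_⟩
      rw [← hc' k, hφ]
  · exact forall_congr' fun z => imp_congr_right fun _ =>
      not_congr (GSH_lam φ φ' c hφ Q Q' d w w' u u' h y z)

/-- MODULE GSM (1). -/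
theorem G_const (φ : Fin 4 → K) (h : ∃ c, ∀ k, φ k = c) (Q : Matrix (Fin 4) (Fin 4) K) (B : Set (Pt K)) :
    G φ Q B = 0 := by
  classical
  unfold G
  refine Finset.sum_eq_zero fun y _ => ?_
  rw [if_neg fun h1 => h1.1 h]

/-- MODULE GSM (2).  Proof: `LamF φ' Q z ↔ LamF φ Q z` for all `Q`, `z` (`∑ φ' k * j k = c * ∑ φ k * j k`, and the
`u` of the definition is multiplied by `c` or `c⁻¹`); `φ'` is constant iff `φ` is. -/
theorem G_smul (c : K) (hc : c ≠ 0) (φ φ' : Fin 4 → K) (h : ∀ k, φ' k = c * φ k)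
    (Q : Matrix (Fin 4) (Fin 4) K) (B : Set (Pt K)) : G φ' Q B = G φ Q B := by
  classical
  have hsum : ∀ j : Fin 4 → K, ∑ k, φ' k * j k = c * ∑ k, φ k * j k := by
    intro j
    rw [Finset.mul_sum]
    refine Finset.sum_congr rfl fun k _ => ?_
    rw [h]
    ring
  unfold G
  refine Finset.sum_congr rfl fun y _ => GSH_ite (and_congr (not_congr ?_) ?_)
  · constructor
    · rintro ⟨c', hc'⟩
      refine ⟨c⁻¹ * c', fun k => ?_⟩
      rw [← hc' k, h, inv_mul_cancel_left₀ hc]
    · rintro ⟨c', hc'⟩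
      refine ⟨c * c', fun k => ?_⟩
      rw [← hc' k, h]
  · refine forall_congr' fun z => imp_congr_right fun _ => not_congr ?_
    constructor
    · rintro ⟨h0, h1, c', u0, hcu⟩
      rw [hsum] at h1
      refine ⟨h0, (mul_eq_zero.1 h1).resolve_left hc, c', u0 * c, fun k => ?_⟩
      rw [hcu k, h]
      ring
    · rintro ⟨h0, h1, c', u0, hcu⟩
      refine ⟨h0, by rw [hsum, h1, mul_zero], c', u0 * c⁻¹, fun k => ?_⟩
      rw [hcu k, h, mul_assoc, inv_mul_cancel_left₀ hc]

/-- MODULE CLG (1).  Closing by two vertices.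

Proof.  Let `φ k = if n k = 1 then 1 else 0`; it is not constant (`n` is surjective).  `LamN n y z ↔ LamF φ (0 +
diagonal y) z` for all `y`, `z`: the currents into the vertices `0`, `1` are `∑ j - ∑ φ j` and `∑ φ j`, and `ψ (n k) =
ψ 0 + (ψ 1 - ψ 0) * φ k`; conversely `ψ = ![c, c + u]`. -/
theorem Cl_eq_G (n : Fin 4 → Fin 2) (hn : Function.Surjective n) (B : Set (Pt K)) :
    Cl n B = G (fun k => if n k = 1 then 1 else 0) 0 B := by
  classical
  have hmv : ∀ (y j : Fin 4 → K) (k : Fin 4),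
      ((0 : Matrix (Fin 4) (Fin 4) K) + Matrix.diagonal y).mulVec j k = y k * j k := by
    intro y j k
    rw [zero_add, Matrix.mulVec_diagonal]
  have hnc : ¬ ∃ c : K, ∀ k, (if n k = 1 then (1 : K) else 0) = c := by
    rintro ⟨c, hc⟩
    obtain ⟨k0, hk0⟩ := hn 0
    obtain ⟨k1, hk1⟩ := hn 1
    have h0 := hc k0
    have h1 := hc k1
    rw [hk0, if_neg zero_ne_one] at h0
    rw [hk1, if_pos rfl] at h1
    exact zero_ne_one (h0.trans h1.symm)
  unfold Cl G
  refine Finset.sum_congr rfl fun y _ => GSH_ite ?_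
  rw [and_iff_right hnc]
  refine forall_congr' fun z => imp_congr_right fun _ => not_congr ?_
  have e1 : ∀ k, (if n k = 1 then (1 : K) else 0) * z.1 k = if n k = 1 then z.1 k else 0 := by
    intro k
    by_cases h : n k = 1
    · rw [if_pos h, if_pos h, one_mul]
    · rw [if_neg h, if_neg h, zero_mul]
  have e2 : ∑ k, (if n k = 0 then z.1 k else 0) + ∑ k, (if n k = 1 then z.1 k else 0) = ∑ k, z.1 k := by
    rw [← Finset.sum_add_distrib]
    refine Finset.sum_congr rfl fun k _ => ?_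
    have h3 : n k = 0 ∨ n k = 1 := by
      have := (n k).isLt
      omega
    rcases h3 with h3 | h3
    · rw [h3, if_pos rfl, if_neg zero_ne_one, add_zero]
    · rw [h3, if_pos rfl, if_neg one_ne_zero, zero_add]
  constructor
  · rintro ⟨h0, ψ, hψ⟩
    refine ⟨?_, ?_, ψ 0, ψ 1 - ψ 0, fun k => ?_⟩
    · rw [← e2, h0 0, h0 1, add_zero]
    · rw [Finset.sum_congr rfl fun k _ => e1 k]
      exact h0 1
    · rw [hmv, hψ k]
      have h3 : n k = 0 ∨ n k = 1 := by
        have := (n k).isLt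
        omega
      show ψ (n k) = ψ 0 + (ψ 1 - ψ 0) * (if n k = 1 then 1 else 0)
      rcases h3 with h3 | h3
      · rw [h3, if_neg zero_ne_one]
        ring
      · rw [h3, if_pos rfl]
        ring
  · rintro ⟨h0, h1, c, u, hc⟩
    rw [Finset.sum_congr rfl fun k _ => e1 k] at h1
    have h2 : ∑ k, (if n k = 0 then z.1 k else 0) = 0 := by
      rw [h1, add_zero, h0] at e2
      exact e2
    refine ⟨fun w => ?_, ![c, c + u], fun k => ?_⟩
    · have h3 : w = 0 ∨ w = 1 := by
        have := w.isLt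
        omega
      rcases h3 with h3 | h3
      · rw [h3]
        exact h2
      · rw [h3]
        exact h1
    · rw [← hmv, hc k]
      have h3 : n k = 0 ∨ n k = 1 := by
        have := (n k).isLt
        omega
      show c + u * (if n k = 1 then 1 else 0) = (![c, c + u] : Fin 2 → K) (n k)
      rcases h3 with h3 | h3
      · rw [h3, if_neg zero_ne_one]
        show c + u * 0 = c
        ring
      · rw [h3, if_pos rfl]
        show c + u * 1 = c + u
        ring

/-- MODULE CLG (2).  Closing by one vertex: `LamN _ y z ↔ Lam (0 + diagonal y) z`. -/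
theorem Cl_eq_C (B : Set (Pt K)) : Cl (fun _ => (0 : Fin 1)) B = C 0 B := by
  classical
  have hmv : ∀ (y j : Fin 4 → K) (k : Fin 4),
      ((0 : Matrix (Fin 4) (Fin 4) K) + Matrix.diagonal y).mulVec j k = y k * j k := by
    intro y j k
    rw [zero_add, Matrix.mulVec_diagonal]
  unfold Cl C
  refine Finset.sum_congr rfl fun y _ => GSH_ite ?_
  refine forall_congr' fun z => imp_congr_right fun _ => not_congr ?_
  constructor
  · rintro ⟨h0, ψ, hψ⟩
    refine ⟨?_, ψ 0, fun k => ?_⟩
    · have h1 := h0 0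
      simpa using h1
    · rw [hmv, hψ k]
  · rintro ⟨h0, c, hc⟩
    refine ⟨fun w => ?_, fun _ => c, fun k => ?_⟩
    · have hw : w = 0 := Subsingleton.elim _ _
      subst hw
      simpa using h0
    · rw [← hmv, hc k]

end Pool.Agent.P3
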