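import Pool.Agent.P3.Defs

/-!
# Degrees
-/

set_option autoImplicit false

open scoped BigOperators

namespace Pool.Agent.P3

open Pool.Agent.KG

variable {V E W : Type} [Finite E]

private theorem PD_sum {E F W : Type} [Finite E] [Finite F] (f : E ⊕ F → W) (w : W) :
    {e' | f e' = w}.ncard = {e | f (Sum.inl e) = w}.ncard + {k | f (Sum.inr k) = w}.ncard := by
  have h : {e' | f e' = w} = (Sum.inl '' {e | f (Sum.inl e) = w} : Set (E ⊕ F)) ∪
      Sum.inr '' {k | f (Sum.inr k) = w} := by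
    ext e'
    rcases e' with e | k
    · simp
    · simp
  rw [h, Set.ncard_union_eq _ (Set.toFinite _) (Set.toFinite _),
    Set.ncard_image_of_injective _ Sum.inl_injective,
    Set.ncard_image_of_injective _ Sum.inr_injective]
  rw [Set.disjoint_left]
  rintro _ ⟨e, _, rfl⟩ ⟨k, _, hk⟩
  exact Sum.inr_ne_inl hk

open Classical in
private theorem PD_fin {m : ℕ} (p : Fin m → Prop) :
    {k | p k}.ncard = ∑ k, if p k then 1 else 0 := by
  have h : {k | p k} = ((Finset.univ.filter p : Finset (Fin m)) : Set (Fin m)) := by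
    ext k
    simp
  rw [h, Set.ncard_coe_finset, Finset.card_filter]

/-- MODULE PDA (1).  `{e' | clS s n e' = inl v} = inl '' {e | s e = v}` and `{e' | clT W t a e' = inl v} =
inl '' {e | t e = v} ∪ inr '' {k | a k = v}` (disjoint): `Set.ncard_union_eq`, `Set.ncard_image_of_injective`. -/
theorem deg_clo_inl (s t : E → V) (a : Fin 4 → V) (n : Fin 4 → W) (v : V) :
    deg (clS s n) (clT W t a) (Sum.inl v) = pd s t a v := by
  unfold deg pd deg
  rw [PD_sum, PD_sum]
  simp [clS, clT, add_assoc]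

/-- MODULE PDA (2). -/
theorem deg_clo_inr (s t : E → V) (a : Fin 4 → V) (n : Fin 4 → W) (w : W) :
    deg (clS s n) (clT W t a) (Sum.inr w) = {k | n k = w}.ncard := by
  unfold deg
  rw [PD_sum, PD_sum]
  simp [clS, clT]

/-- MODULE PDB (1).  `{e' | rgS s e' = inl v} = inl '' {e | s e = v}`, `{e' | rgT t a e' = inl v} = inl '' {e | t e = v} ∪
inr '' {k : Fin 3 | (k = 0 ∧ a 0 = v) ∨ (k = 1 ∧ a 1 = v)}`, `{k | rgA a k = inl v} = {k | (k = 2 ∧ a 2 = v) ∨ (k = 3 ∧
a 3 = v)}`; the numbers of the last two sets together are `{k | a k = v}.ncard`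
(write both as `∑ k, if .. then 1 else 0`, `Fin.sum_univ_three`, `Fin.sum_univ_four`). -/
theorem pd_rung_inl (s t : E → V) (a : Fin 4 → V) (v : V) :
    pd (rgS s) (rgT t a) (rgA a) (Sum.inl v) = pd s t a v := by
  classical
  unfold pd deg
  rw [PD_sum, PD_sum, PD_fin, PD_fin, PD_fin, PD_fin, Fin.sum_univ_three, Fin.sum_univ_three,
    Fin.sum_univ_four, Fin.sum_univ_four]
  simp [rgS, rgT, rgA]
  omega

/-- MODULE PDB (2). -/
theorem pd_rung_inr (s t : E → V) (a : Fin 4 → V) (j : Fin 2) :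
    pd (rgS s) (rgT t a) (rgA a) (Sum.inr j) = 3 := by
  classical
  unfold pd deg
  rw [PD_sum, PD_sum, PD_fin, PD_fin, PD_fin]
  fin_cases j <;> simp [rgS, rgT, rgA, Fin.sum_univ_three, Fin.sum_univ_four]

omit [Finite E] in
/-- MODULE PDB (3). -/
theorem pd_perm (σ : Equiv.Perm (Fin 4)) (s t : E → V) (a : Fin 4 → V) (v : V) :
    pd s t (a ∘ σ) v = pd s t a v := by
  classical
  unfold pd
  rw [PD_fin, PD_fin]
  congr 1
  exact Equiv.sum_comp σ (fun k => if a k = v then 1 else 0)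

end Pool.Agent.P3
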