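import Pool.Agent.P3.Defs

/-!
# Two legs and a rung; permutations of the ports
-/

set_option autoImplicit false

open scoped BigOperators

namespace Pool.Agent.P3

open Pool.Agent.KG

section

variable {V E K : Type} [Fintype E] [Field K]

/-- MODULE RNA (1).  `Fintype.sum_sum_type`, `Fin.sum_univ_three`. -/
theorem net_rg_inl (s t : E → V) (a : Fin 4 → V) (i : E → K) (j : Fin 3 → K) (v : V) :
    net (rgS s) (rgT t a) (Sum.elim i j) (Sum.inl v) =
      net s t i v - open Classical in ((if a 0 = v then j 0 else 0) + if a 1 = v then j 1 else 0) := by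
  classical
  unfold net
  rw [Fintype.sum_sum_type, Fintype.sum_sum_type, Fin.sum_univ_three, Fin.sum_univ_three]
  have h1 : ∀ k, rgS s (Sum.inr k : E ⊕ Fin 3) = (![Sum.inr 0, Sum.inr 1, Sum.inr 0] : Fin 3 → V ⊕ Fin 2) k :=
    fun k => rfl
  have h2 : ∀ k, rgT t a (Sum.inr k : E ⊕ Fin 3) =
    (![Sum.inl (a 0), Sum.inl (a 1), Sum.inr 1] : Fin 3 → V ⊕ Fin 2) k := fun k => rfl
  have h3 : ∀ e, rgS s (Sum.inl e : E ⊕ Fin 3) = Sum.inl (s e) := fun k => rfl
  have h4 : ∀ e, rgT t a (Sum.inl e : E ⊕ Fin 3) = Sum.inl (t e) := fun k => rfl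
  rw [h1, h1, h1, h2, h2, h2]
  simp only [h3, h4, Sum.elim_inl, Sum.elim_inr, Sum.inl.injEq, Matrix.cons_val_zero,
    Matrix.cons_val_one, Matrix.cons_val, reduceCtorEq, if_false, add_zero]
  ring

/-- MODULE RNA (2). -/
theorem net_rg_inr (s t : E → V) (a : Fin 4 → V) (i : E → K) (j : Fin 3 → K) :
    net (rgS s) (rgT t a) (Sum.elim i j) (Sum.inr 0) = j 0 + j 2 ∧
      net (rgS s) (rgT t a) (Sum.elim i j) (Sum.inr 1) = j 1 - j 2 := by
  classical
  unfold net
  rw [Fintype.sum_sum_type, Fintype.sum_sum_type, Fin.sum_univ_three, Fin.sum_univ_three,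
    Fintype.sum_sum_type, Fintype.sum_sum_type, Fin.sum_univ_three, Fin.sum_univ_three]
  have h1 : ∀ k, rgS s (Sum.inr k : E ⊕ Fin 3) = (![Sum.inr 0, Sum.inr 1, Sum.inr 0] : Fin 3 → V ⊕ Fin 2) k :=
    fun k => rfl
  have h2 : ∀ k, rgT t a (Sum.inr k : E ⊕ Fin 3) =
    (![Sum.inl (a 0), Sum.inl (a 1), Sum.inr 1] : Fin 3 → V ⊕ Fin 2) k := fun k => rfl
  have h3 : ∀ e, rgS s (Sum.inl e : E ⊕ Fin 3) = Sum.inl (s e) := fun k => rfl
  have h4 : ∀ e, rgT t a (Sum.inl e : E ⊕ Fin 3) = Sum.inl (t e) := fun k => rfl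
  rw [h1, h1, h1, h2, h2, h2]
  constructor
  · simp [h3, h4]
  · simp [h3, h4]

private theorem RN_ports (a : Fin 4 → V) (w : Fin 4 → K) :
    (∀ v : V, (∑ k, @ite K (rgA a k = Sum.inl v) (Classical.propDecidable _) (w k) 0) =
      open Classical in ((if a 2 = v then w 2 else 0) + if a 3 = v then w 3 else 0)) ∧
    ((∑ k, @ite K (rgA a k = Sum.inr 0) (Classical.propDecidable _) (w k) 0) = w 0) ∧
    (∑ k, @ite K (rgA a k = Sum.inr 1) (Classical.propDecidable _) (w k) 0) = w 1 := by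
  classical
  have h0 : rgA a 0 = Sum.inr 0 := rfl
  have h1 : rgA a 1 = Sum.inr 1 := rfl
  have h2 : rgA a 2 = Sum.inl (a 2) := rfl
  have h3 : rgA a 3 = Sum.inl (a 3) := rfl
  refine ⟨fun v => ?_, ?_, ?_⟩
  · rw [Fin.sum_univ_four, h0, h1, h2, h3]
    simp
  · rw [Fin.sum_univ_four, h0, h1, h2, h3]
    simp
  · rw [Fin.sum_univ_four, h0, h1, h2, h3]
    simp

/-- MODULE RNB.

Proof.  Let `w` be in the left side: `i' = Sum.elim i j`, `φ' = Sum.elim φ ψ`; put `r = j 2`,
`z = (![j 0, j 1, w.1 2, w.1 3], φ ∘ a)`.  The currents at `inr 0`, `inr 1` are `w.1 0 = j 0 + r`, `w.1 1 = j 1 - r`, those at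
`inl v` give `net s t i v = ∑ k, if a k = v then z.1 k else 0` (the ports `2`, `3` of `rgA a` are `inl (a 2)`, `inl (a 3)`).
The equations of the three edges: `w.2 0 = ψ 0 = φ (a 0) + y 0 * j 0`, `w.2 1 = ψ 1 = φ (a 1) + y 1 * j 1`,
`y 2 * r = ψ 0 - ψ 1`.  If `(i, φ, z.1)` is nontrivial, `z ∈ Bad s t a x` and `w` is of the first kind.  Otherwise `i = 0`,
`φ = c`, `z.1 = 0`, so `w = (![r, -r, 0, 0], fun _ => c)`, `y 2 * r = 0`, and `r ≠ 0` as otherwise `(i', φ', w.1)` would
be trivial. -/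
theorem bad_rung_le (s t : E → V) (a : Fin 4 → V) (x : E → K) (y : Fin 3 → K) :
    Bad (rgS s) (rgT t a) (rgA a) (Sum.elim x y) ⊆ bp (y 0) (y 1) (y 2) (Bad s t a x) := by
  classical
  rintro w ⟨i', φ', h1, h2, h3, h4⟩
  let i : E → K := fun e => i' (Sum.inl e)
  let j : Fin 3 → K := fun k => i' (Sum.inr k)
  let φ : V → K := fun v => φ' (Sum.inl v)
  have hi' : i' = Sum.elim i j := by
    funext r
    rcases r with e | k <;> rfl
  obtain ⟨p1, p2, p3⟩ := RN_ports a w.1
  have e0 : j 0 + j 2 = w.1 0 := by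
    have h5 := h2 (Sum.inr 0)
    rw [hi', (net_rg_inr s t a i j).1, p2] at h5
    exact h5
  have e1 : j 1 - j 2 = w.1 1 := by
    have h5 := h2 (Sum.inr 1)
    rw [hi', (net_rg_inr s t a i j).2, p3] at h5
    exact h5
  have e2 : ∀ v, net s t i v = ∑ k, if a k = v then (![j 0, j 1, w.1 2, w.1 3] : Fin 4 → K) k else 0 := by
    intro v
    have h5 := h2 (Sum.inl v)
    rw [hi', net_rg_inl, p1] at h5
    rw [Fin.sum_univ_four]
    have h6 := sub_eq_iff_eq_add.1 h5
    rw [h6]
    simp only [Matrix.cons_val_zero, Matrix.cons_val_one, Matrix.cons_val]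
    ring
  have f0 : y 0 * j 0 = φ' (Sum.inr 0) - φ (a 0) := h1 (Sum.inr 0)
  have f1 : y 1 * j 1 = φ' (Sum.inr 1) - φ (a 1) := h1 (Sum.inr 1)
  have f2 : y 2 * j 2 = φ' (Sum.inr 0) - φ' (Sum.inr 1) := h1 (Sum.inr 2)
  have g0 : w.2 0 = φ' (Sum.inr 0) := h3 0
  have g1 : w.2 1 = φ' (Sum.inr 1) := h3 1
  have g2 : w.2 2 = φ (a 2) := h3 2
  have g3 : w.2 3 = φ (a 3) := h3 3
  by_cases htr : i = 0 ∧ (∃ c, ∀ v, φ v = c) ∧ (![j 0, j 1, w.1 2, w.1 3] : Fin 4 → K) = 0
  · right
    obtain ⟨t1, ⟨c, t2⟩, t3⟩ := htr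
    have u0 : j 0 = 0 := congrFun t3 0
    have u1 : j 1 = 0 := congrFun t3 1
    have u2 : w.1 2 = 0 := congrFun t3 2
    have u3 : w.1 3 = 0 := congrFun t3 3
    rw [u0, mul_zero, t2] at f0
    rw [u1, mul_zero, t2] at f1
    have v0 : φ' (Sum.inr 0) = c := sub_eq_zero.1 f0.symm
    have v1 : φ' (Sum.inr 1) = c := sub_eq_zero.1 f1.symm
    refine ⟨j 2, c, ?_, ?_, ?_⟩
    · intro hj
      apply h4
      refine ⟨?_, ⟨c, ?_⟩, ?_⟩
      · funext r
        rcases r with e | k
        · exact congrFun t1 e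
        · fin_cases k
          · exact u0
          · exact u1
          · exact hj
      · rintro (v | k)
        · exact t2 v
        · fin_cases k
          · exact v0
          · exact v1
      · funext k
        fin_cases k
        · show w.1 0 = 0
          rw [← e0, u0, hj, add_zero]
        · show w.1 1 = 0
          rw [← e1, u1, hj, sub_zero]
        · exact u2
        · exact u3
    · rw [f2, v0, v1, sub_self]
    · refine Prod.ext (funext fun k => ?_) (funext fun k => ?_)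
      · fin_cases k
        · show w.1 0 = j 2
          rw [← e0, u0, zero_add]
        · show w.1 1 = -j 2
          rw [← e1, u1, zero_sub]
        · exact u2
        · exact u3
      · fin_cases k
        · show w.2 0 = c
          rw [g0, v0]
        · show w.2 1 = c
          rw [g1, v1]
        · show w.2 2 = c
          rw [g2, t2]
        · show w.2 3 = c
          rw [g3, t2]
  · left
    refine ⟨(![j 0, j 1, w.1 2, w.1 3], fun k => φ (a k)), ⟨i, φ, fun e => h1 (Sum.inl e), e2,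
      fun k => rfl, htr⟩, j 2, ?_, ?_⟩
    · show y 2 * j 2 = (φ (a 0) + y 0 * j 0) - (φ (a 1) + y 1 * j 1)
      rw [f2, f0, f1]
      ring
    · refine Prod.ext (funext fun k => ?_) (funext fun k => ?_)
      · fin_cases k
        · exact e0.symm
        · exact e1.symm
        · rfl
        · rfl
      · fin_cases k
        · show w.2 0 = φ (a 0) + y 0 * j 0
          rw [g0, f0]
          ring
        · show w.2 1 = φ (a 1) + y 1 * j 1
          rw [g1, f1]
          ring
        · exact g2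
        · exact g3

/-- MODULE RNC.

Proof.  First kind: `z ∈ Bad s t a x` with `i`, `φ`, and `r`.  Take `i' = Sum.elim i ![z.1 0, z.1 1, r]`,
`φ' = Sum.elim φ ![z.2 0 + y 0 * z.1 0, z.2 1 + y 1 * z.1 1]`.  All equations hold (as in `bad_rung_le`).  If it were
trivial, `i' = 0` gives `i = 0`, `z.1 0 = z.1 1 = 0`, `φ'` constant gives `φ` constant, and `w.1 = 0` gives
`z.1 2 = z.1 3 = 0`: contradiction.  Second kind: `i' = Sum.elim 0 ![0, 0, r]`, `φ' = fun _ => c`, not trivial as `r ≠ 0`. -/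
theorem bad_rung_ge (s t : E → V) (a : Fin 4 → V) (x : E → K) (y : Fin 3 → K) :
    bp (y 0) (y 1) (y 2) (Bad s t a x) ⊆ Bad (rgS s) (rgT t a) (rgA a) (Sum.elim x y) := by
  classical
  rintro w (⟨z, ⟨i, φ, h1, h2, h3, h4⟩, r, hr, rfl⟩ | ⟨r, c, hr, hr', rfl⟩)
  · refine ⟨Sum.elim i ![z.1 0, z.1 1, r],
      Sum.elim φ ![z.2 0 + y 0 * z.1 0, z.2 1 + y 1 * z.1 1], ?_, ?_, ?_, ?_⟩
    · rintro (e | k)
      · exact h1 e
      · fin_cases k
        · show y 0 * z.1 0 = z.2 0 + y 0 * z.1 0 - φ (a 0)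
          rw [h3]
          ring
        · show y 1 * z.1 1 = z.2 1 + y 1 * z.1 1 - φ (a 1)
          rw [h3]
          ring
        · exact hr
    · obtain ⟨p1, p2, p3⟩ := RN_ports a (![z.1 0 + r, z.1 1 - r, z.1 2, z.1 3] : Fin 4 → K)
      rintro (v | k)
      · rw [net_rg_inl, p1, h2, Fin.sum_univ_four]
        simp only [Matrix.cons_val_zero, Matrix.cons_val_one, Matrix.cons_val]
        ring
      · fin_cases k
        · exact ((net_rg_inr s t a i _).1.trans p2.symm)
        · exact ((net_rg_inr s t a i _).2.trans p3.symm)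
    · intro k
      fin_cases k
      · rfl
      · rfl
      · exact h3 2
      · exact h3 3
    · rintro ⟨t1, ⟨c, t2⟩, t3⟩
      apply h4
      refine ⟨funext fun e => congrFun t1 (Sum.inl e), ⟨c, fun v => t2 (Sum.inl v)⟩, ?_⟩
      funext k
      fin_cases k
      · exact congrFun t1 (Sum.inr 0)
      · exact congrFun t1 (Sum.inr 1)
      · exact congrFun t3 2
      · exact congrFun t3 3
  · refine ⟨Sum.elim 0 ![0, 0, r], fun _ => c, ?_, ?_, fun k => rfl, ?_⟩
    · rintro (e | k)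
      · show x e * 0 = c - c
        rw [mul_zero, sub_self]
      · fin_cases k
        · show y 0 * 0 = c - c
          rw [mul_zero, sub_self]
        · show y 1 * 0 = c - c
          rw [mul_zero, sub_self]
        · show y 2 * r = c - c
          rw [hr', sub_self]
    · obtain ⟨p1, p2, p3⟩ := RN_ports a (![r, -r, 0, 0] : Fin 4 → K)
      have h0 : ∀ v, net s t (0 : E → K) v = 0 := by
        intro v
        unfold net
        simp
      rintro (v | k)
      · rw [net_rg_inl, p1, h0]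
        simp
      · fin_cases k
        · refine (net_rg_inr s t a 0 _).1.trans (Eq.trans ?_ p2.symm)
          show 0 + r = r
          rw [zero_add]
        · refine (net_rg_inr s t a 0 _).2.trans (Eq.trans ?_ p3.symm)
          show 0 - r = -r
          rw [zero_sub]
    · rintro ⟨t1, _, _⟩
      exact hr (congrFun t1 (Sum.inr 2))

/-- MODULE RND (1).

Proof.  `∑ k, if a (σ k) = v then z.1 k else 0 = ∑ k, if a k = v then z.1 (σ.symm k) else 0` (`Equiv.sum_comp`), `z.2 k =
φ (a (σ k))` for all `k` iff `z.2 (σ.symm k) = φ (a k)` for all `k`, and `z.1 = 0` iff `z.1 ∘ σ.symm = 0`. -/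
theorem bad_perm (σ : Equiv.Perm (Fin 4)) (s t : E → V) (a : Fin 4 → V) (x : E → K) :
    Bad s t (a ∘ σ) x = pm σ (Bad s t a x) := by
  classical
  have h0 : ∀ (w : Fin 4 → K) (v : V), (∑ k, if (a ∘ σ) k = v then w k else 0) =
      ∑ k, if a k = v then (w ∘ σ.symm) k else 0 := by
    intro w v
    refine Eq.trans ?_ (Equiv.sum_comp σ (fun k => if a k = v then (w ∘ σ.symm) k else 0))
    refine Finset.sum_congr rfl fun k _ => ?_
    show (if a (σ k) = v then w k else 0) = if a (σ k) = v then w (σ.symm (σ k)) else 0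
    rw [Equiv.symm_apply_apply]
  ext z
  constructor
  · rintro ⟨i, φ, h1, h2, h3, h4⟩
    refine ⟨i, φ, h1, fun v => (h2 v).trans (h0 z.1 v), fun k => ?_, fun h5 => h4 ⟨h5.1, h5.2.1, ?_⟩⟩
    · show z.2 (σ.symm k) = φ (a k)
      rw [h3]
      show φ (a (σ (σ.symm k))) = φ (a k)
      rw [Equiv.apply_symm_apply]
    · funext k
      have h6 : z.1 (σ.symm (σ k)) = 0 := congrFun h5.2.2 (σ k)
      rw [Equiv.symm_apply_apply] at h6
      exact h6
  · rintro ⟨i, φ, h1, h2, h3, h4⟩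
    refine ⟨i, φ, h1, fun v => (h2 v).trans (h0 z.1 v).symm, fun k => ?_, fun h5 => h4 ⟨h5.1, h5.2.1, ?_⟩⟩
    · have h6 : z.2 (σ.symm (σ k)) = φ (a (σ k)) := h3 (σ k)
      rw [Equiv.symm_apply_apply] at h6
      exact h6
    · funext k
      exact congrFun h5.2.2 (σ.symm k)

end

/-- the values at the three places -/
private def RND_e (K : Type) : (Fin 3 → K) ≃ K × K × K where
  toFun y := (y 0, y 1, y 2)
  invFun p := ![p.1, p.2.1, p.2.2]
  left_inv y := by
    funext k
    fin_cases k <;> rfl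
  right_inv p := rfl

/-- MODULE RND (2).

Proof.  `bad_rung_le`, `bad_rung_ge` and `(E ⊕ Fin 3 → K) ≃ (E → K) × K × K × K`. -/
theorem ev_rung {V E : Type} [Fintype V] [Fintype E] (X : (F : FinField) → Set (Pt F.K) → ℤ) (s t : E → V)
    (a : Fin 4 → V) (F : FinField) :
    ev (fun F B => R (X F) B) s t a F = ev X (rgS s) (rgT t a) (rgA a) F := by
  classical
  have h2 : ev X (rgS s) (rgT t a) (rgA a) F =
      ∑ x' : E ⊕ Fin 3 → F.K, X F (Bad (rgS s) (rgT t a) (rgA a) x') := by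
    unfold ev
    refine Finset.sum_congr ?_ fun x _ => rfl
    congr
    exact Subsingleton.elim _ _
  rw [h2]
  unfold ev R
  rw [← (Equiv.sumArrowEquivProdArrow E (Fin 3) F.K).symm.sum_comp, Fintype.sum_prod_type]
  refine Finset.sum_congr (by congr) fun x _ => ?_
  rw [← (RND_e F.K).symm.sum_comp, Fintype.sum_prod_type]
  refine Finset.sum_congr rfl fun p _ => ?_
  rw [Fintype.sum_prod_type]
  refine Finset.sum_congr rfl fun q _ => ?_
  refine Finset.sum_congr rfl fun r _ => ?_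
  have h3 : bp p q r (Bad s t a x) =
      Bad (rgS s) (rgT t a) (rgA a) (Sum.elim x ![p, q, r]) :=
    Set.Subset.antisymm (bad_rung_ge s t a x ![p, q, r]) (bad_rung_le s t a x ![p, q, r])
  rw [h3]
  rfl

theorem ev_perm {V E : Type} [Fintype V] [Fintype E] (X : (F : FinField) → Set (Pt F.K) → ℤ)
    (σ : Equiv.Perm (Fin 4)) (s t : E → V) (a : Fin 4 → V) (F : FinField) :
    ev (fun F B => X F (pm σ B)) s t a F = ev X s t (a ∘ σ) F := by
  unfold ev
  refine Finset.sum_congr rfl fun x _ => ?_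
  rw [bad_perm]

end Pool.Agent.P3
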