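import Pool.Agent.P3.Clo
import Pool.Agent.P3.Rung
import Pool.Agent.P3.Pd

/-!
# The functionals of `Wd` at a graph
-/

set_option autoImplicit false

open scoped BigOperators

namespace Pool.Agent.P3

open Pool.Agent.KG Pool.Agent.KGU

private theorem IND_fib (n : Fin 4 → Fin 2) (hn : Function.Surjective n) (w : Fin 2) :
    {k | n k = w}.ncard ≤ 3 := by
  obtain ⟨w', hw'⟩ : ∃ w', w' ≠ w := ⟨w + 1, by fin_cases w <;> decide⟩
  obtain ⟨k0, hk0⟩ := hn w'
  have h : {k | n k = w} ⊂ Set.univ := by
    refine ⟨Set.subset_univ _, fun hc => ?_⟩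
    have : k0 ∈ {k | n k = w} := hc (Set.mem_univ k0)
    have h2 : n k0 = w := this
    exact hw' (hk0.symm.trans h2)
  have := Set.ncard_lt_ncard h (Set.toFinite _)
  rw [Set.ncard_univ, Nat.card_eq_fintype_card, Fintype.card_fin] at this
  omega

/-- MODULE IND.

Proof.  Induction on `hX : Wd X` (for all graphs).  `one`: `ev = q ^ card E`.  `cl n hn`: by `ns_clo`, `ev` is a
polynomial in `q` minus `ns` of the closed graph, which is in `Gm m`: no loops; `deg_clo_inl`; at an outer vertex the
degree is `{k | n k = w}.ncard ≤ 3`, as `n` is surjective.  `rung`: `ev_rung`; the new graph has no loops, `pd_rung_inl`,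
`pd_rung_inr`, and the vertices with `pd = 4` are the images of the old ones.  `perm`: `ev_perm`, `pd_perm`.
`add`, `mulp`, `div`: `Finset.sum_add_distrib`, `Finset.mul_sum`. -/
theorem wd_mem {X : (F : FinField) → Set (Pt F.K) → ℤ} (hX : Wd X) : ∀ {V E : Type} [Fintype V] [Fintype E]
    (s t : E → V) (a : Fin 4 → V) (m : ℕ), LL s t → (∀ v, pd s t a v ≤ 4) →
    {v | pd s t a v = 4}.ncard ≤ m → Sp (Gm m) (ev X s t a) := by
  induction hX with
  | one =>
    intro V E _ _ s t a m _ _ _
    classical
    refine sp_congr (sp_mulq (Fintype.card E) Sp.one) fun F => ?_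
    unfold ev
    rw [Finset.sum_const, Finset.card_univ, nsmul_eq_mul, mul_one, mul_one, Fintype.card_eq_nat_card,
      Fintype.card_eq_nat_card, Nat.card_fun]
    push_cast
    rfl
  | cl n hn =>
    intro V E _ _ s t a m h1 h2 h3
    have hle : ∀ w, {k | n k = w}.ncard ≤ 3 := IND_fib n hn
    refine sp_congr (sp_sub (sp_mulq (Fintype.card E + 4) Sp.one) (Sp.base (f := ns (clS s n)
      (clT (Fin 2) t a)) ⟨V ⊕ Fin 2, E ⊕ Fin 4, inferInstance, inferInstance, clS s n, clT (Fin 2) t a,
        ?_, ?_, ?_, rfl⟩)) fun F => ?_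
    · rintro (e | k) hc
      · exact h1 e (Sum.inl_injective hc)
      · exact Sum.inr_ne_inl hc
    · rintro (v | w)
      · rw [deg_clo_inl]
        exact h2 v
      · rw [deg_clo_inr]
        exact (hle w).trans (by norm_num)
    · have he : {v | deg (clS s n) (clT (Fin 2) t a) v = 4} =
          (Sum.inl '' {v | pd s t a v = 4} : Set (V ⊕ Fin 2)) := by
        ext v
        rcases v with v | w
        · show deg (clS s n) (clT (Fin 2) t a) (Sum.inl v) = 4 ↔ _
          rw [deg_clo_inl]
          simp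
        · show deg (clS s n) (clT (Fin 2) t a) (Sum.inr w) = 4 ↔ _
          rw [deg_clo_inr]
          have := hle w
          constructor
          · intro hc
            omega
          · rintro ⟨v, _, hv⟩
            exact absurd hv Sum.inl_ne_inr
      rw [he, Set.ncard_image_of_injective _ Sum.inl_injective]
      exact h3
    · rw [ns_clo s t a n hn F]
      ring
  | rung _ ih =>
    intro V E _ _ s t a m h1 h2 h3
    refine sp_congr (ih (rgS s) (rgT t a) (rgA a) m ?_ ?_ ?_) fun F => (ev_rung _ s t a F).symm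
    · rintro (e | k) hc
      · exact h1 e (Sum.inl_injective hc)
      · fin_cases k
        · exact Sum.inr_ne_inl hc
        · exact Sum.inr_ne_inl hc
        · have : (Sum.inr 0 : V ⊕ Fin 2) = Sum.inr 1 := hc
          exact absurd (Sum.inr_injective this) (by decide)
    · rintro (v | j)
      · rw [pd_rung_inl]
        exact h2 v
      · rw [pd_rung_inr]
        norm_num
    · have he : {v | pd (rgS s) (rgT t a) (rgA a) v = 4} =
          (Sum.inl '' {v | pd s t a v = 4} : Set (V ⊕ Fin 2)) := by
        ext v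
        rcases v with v | j
        · show pd (rgS s) (rgT t a) (rgA a) (Sum.inl v) = 4 ↔ _
          rw [pd_rung_inl]
          simp
        · show pd (rgS s) (rgT t a) (rgA a) (Sum.inr j) = 4 ↔ _
          rw [pd_rung_inr]
          constructor
          · intro hc
            omega
          · rintro ⟨v, _, hv⟩
            exact absurd hv Sum.inl_ne_inr
      rw [he, Set.ncard_image_of_injective _ Sum.inl_injective]
      exact h3
  | perm σ _ ih =>
    intro V E _ _ s t a m h1 h2 h3
    refine sp_congr (ih s t (a ∘ σ) m h1 ?_ ?_) fun F => (ev_perm _ σ s t a F).symm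
    · intro v
      rw [pd_perm]
      exact h2 v
    · simp only [pd_perm]
      exact h3
  | add _ _ ih1 ih2 =>
    intro V E _ _ s t a m h1 h2 h3
    refine sp_congr (Sp.add (ih1 s t a m h1 h2 h3) (ih2 s t a m h1 h2 h3)) fun F => ?_
    unfold ev
    rw [Finset.sum_add_distrib]
  | mulp c _ ih =>
    intro V E _ _ s t a m h1 h2 h3
    refine sp_congr (Sp.mulp c (ih s t a m h1 h2 h3)) fun F => ?_
    unfold ev
    rw [Finset.mul_sum]
  | div q hq _ ih =>
    intro V E _ _ s t a m h1 h2 h3
    refine Sp.div q hq (sp_congr (ih s t a m h1 h2 h3) fun F => ?_)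
    unfold ev
    rw [Finset.mul_sum]

open Classical in
private theorem ext_deg {V E : Type} [Fintype E] (s t : E → V) (v : V) :
    deg s t v = ∑ e, ((if s e = v then 1 else 0) + if t e = v then 1 else 0) := by
  have h : ∀ f : E → V, {e | f e = v}.ncard = ∑ e, if f e = v then 1 else 0 := by
    intro f
    rw [Set.ncard_eq_toFinset_card', Finset.sum_boole, Nat.cast_id]
    congr 1
    ext e
    simp
  unfold deg
  rw [h s, h t, Finset.sum_add_distrib]

private theorem ext_flip {V E : Type} [Fintype E] (s t s' t' : E → V)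
    (h : ∀ e, (s' e = s e ∧ t' e = t e) ∨ (s' e = t e ∧ t' e = s e)) (v : V) : deg s' t' v = deg s t v := by
  classical
  rw [ext_deg, ext_deg]
  refine Finset.sum_congr rfl fun e _ => ?_
  rcases h e with ⟨h1, h2⟩ | ⟨h1, h2⟩
  · rw [h1, h2]
  · rw [h1, h2, add_comm]

/-- MODULE EXT.  A vertex of degree `4` is taken out.

Proof.  `V' = {u // u ≠ v}`, `E' = {e // s e ≠ v ∧ t e ≠ v}`, `s'`, `t'` the restrictions.  As there are no loops, the
edges at `v` are the disjoint union of `{e | s e = v}` and `{e | t e = v}`, so there are `4` of them; number them by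
`b : Fin 4 ≃ {e // s e = v ∨ t e = v}` and let `a k` be the end of `b k` different from `v`.  `f` and `g : E' ⊕ Fin 4 ≃ E`
are the obvious bijections.  By `ns_iso`, `ns s t = ns (f.symm ∘ s ∘ g) (f.symm ∘ t ∘ g)`, and by `ns_flip` this is `ns` of
the closing (the edges `b k` are turned round if `t (b k) = v`).  Degrees: `deg_iso` (KG/Deg), its analogue for a
flip, and `deg_clo_inl`; or directly. -/
theorem exists_ports {V E : Type} [Fintype V] [Fintype E] (s t : E → V) (h : LL s t) (v : V)
    (hv : deg s t v = 4) : ∃ (V' E' : Type) (_ : Fintype V') (_ : Fintype E') (s' t' : E' → V')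
      (a : Fin 4 → V') (f : V' ⊕ Fin 1 ≃ V), LL s' t' ∧ f (Sum.inr 0) = v ∧
      (∀ u, pd s' t' a u = deg s t (f (Sum.inl u))) ∧
      ns s t = ns (clS s' fun _ => (0 : Fin 1)) (clT (Fin 1) t' a) := by
  classical
  have hcard : Fintype.card {e // s e = v ∨ t e = v} = 4 := by
    have h1 : {e | s e = v ∨ t e = v}.ncard = 4 := by
      have h2 : {e | s e = v ∨ t e = v} = {e | s e = v} ∪ {e | t e = v} := rfl
      rw [h2, Set.ncard_union_eq, ← hv]
      · rfl
      · rw [Set.disjoint_left]
        intro e h3 h4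
        exact h e (h3.trans h4.symm)
    rw [← Nat.card_eq_fintype_card]
    exact h1
  let b : Fin 4 ≃ {e // s e = v ∨ t e = v} := (Fintype.equivFinOfCardEq hcard).symm
  have ho : ∀ k, (if s (b k).1 = v then t (b k).1 else s (b k).1) ≠ v := by
    intro k
    by_cases h1 : s (b k).1 = v
    · rw [if_pos h1]
      exact fun h2 => h _ (h1.trans h2.symm)
    · rw [if_neg h1]
      exact h1
  let a : Fin 4 → {u // u ≠ v} := fun k => ⟨_, ho k⟩
  let E' := {e // ¬ (s e = v ∨ t e = v)}
  let s' : E' → {u // u ≠ v} := fun e => ⟨s e.1, fun h1 => e.2 (Or.inl h1)⟩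
  let t' : E' → {u // u ≠ v} := fun e => ⟨t e.1, fun h1 => e.2 (Or.inr h1)⟩
  have hf : Function.Bijective (Sum.elim Subtype.val fun _ => v : {u // u ≠ v} ⊕ Fin 1 → V) := by
    constructor
    · rintro (x | x) (y | y) hxy
      · exact congrArg _ (Subtype.ext hxy)
      · exact absurd hxy x.2
      · exact absurd hxy.symm y.2
      · exact congrArg _ (Subsingleton.elim _ _)
    · intro u
      by_cases hu : u = v
      · exact ⟨Sum.inr 0, hu.symm⟩
      · exact ⟨Sum.inl ⟨u, hu⟩, rfl⟩
  have hg : Function.Bijective (Sum.elim Subtype.val fun k => (b k).1 : E' ⊕ Fin 4 → E) := by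
    constructor
    · rintro (x | x) (y | y) hxy
      · exact congrArg _ (Subtype.ext hxy)
      · have h1 : x.1 = (b y).1 := hxy
        exact absurd (h1 ▸ (b y).2) x.2
      · have h1 : (b x).1 = y.1 := hxy
        exact absurd (h1 ▸ (b x).2) y.2
      · exact congrArg _ (b.injective (Subtype.ext hxy))
    · intro e
      by_cases he : s e = v ∨ t e = v
      · refine ⟨Sum.inr (b.symm ⟨e, he⟩), ?_⟩
        show (b (b.symm ⟨e, he⟩)).1 = e
        rw [Equiv.apply_symm_apply]
      · exact ⟨Sum.inl ⟨e, he⟩, rfl⟩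
  let f : {u // u ≠ v} ⊕ Fin 1 ≃ V := Equiv.ofBijective _ hf
  let g : E' ⊕ Fin 4 ≃ E := Equiv.ofBijective _ hg
  have hs1 : ∀ e, s (g e) = f ((f.symm ∘ s ∘ g) e) := fun e => (f.apply_symm_apply _).symm
  have ht1 : ∀ e, t (g e) = f ((f.symm ∘ t ∘ g) e) := fun e => (f.apply_symm_apply _).symm
  have hflip : ∀ e, ((f.symm ∘ s ∘ g) e = clS s' (fun _ => (0 : Fin 1)) e ∧
      (f.symm ∘ t ∘ g) e = clT (Fin 1) t' a e) ∨
      ((f.symm ∘ s ∘ g) e = clT (Fin 1) t' a e ∧ (f.symm ∘ t ∘ g) e = clS s' (fun _ => (0 : Fin 1)) e) := by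
    rintro (e | k)
    · left
      constructor
      · exact (Equiv.symm_apply_eq f).2 rfl
      · exact (Equiv.symm_apply_eq f).2 rfl
    · have h1 : s (b k).1 = v ∨ t (b k).1 = v := (b k).2
      by_cases h2 : s (b k).1 = v
      · left
        constructor
        · exact (Equiv.symm_apply_eq f).2 h2
        · refine (Equiv.symm_apply_eq f).2 ?_
          show t (b k).1 = if s (b k).1 = v then t (b k).1 else s (b k).1
          rw [if_pos h2]
      · right
        constructor
        · refine (Equiv.symm_apply_eq f).2 ?_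
          show s (b k).1 = if s (b k).1 = v then t (b k).1 else s (b k).1
          rw [if_neg h2]
        · exact (Equiv.symm_apply_eq f).2 (h1.resolve_left h2)
  refine ⟨{u // u ≠ v}, E', inferInstance, inferInstance, s', t', a, f, ?_, rfl, ?_, ?_⟩
  · intro e he
    exact h e.1 (congrArg Subtype.val he)
  · intro u
    have h1 := deg_iso f g (f.symm ∘ s ∘ g) (f.symm ∘ t ∘ g) s t hs1 ht1 (Sum.inl u)
    rw [h1, ext_flip _ _ _ _ hflip]
    exact (deg_clo_inl s' t' a (fun _ => (0 : Fin 1)) u).symm
  · rw [ns_iso f g (f.symm ∘ s ∘ g) (f.symm ∘ t ∘ g) s t hs1 ht1]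
    exact ns_flip _ _ _ _ hflip

end Pool.Agent.P3
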