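import Pool.Agent.P3.Red
import Pool.Agent.KGU.Final

/-!
# Scheme counts are approximated by counts of the hypersurfaces of cubic graphs, both forms
-/

set_option autoImplicit false

open scoped BigOperators

namespace Pool.Agent.P3

open Pool.Agent.KG Pool.Agent.KGU Pool.Agent.HGC Pool.Agent.GPM

open Classical in
/-- The graph polynomials: the sum over the spanning trees `T` of `∏_{e ∉ T} y_e` (`first Symanzik polynomial`,
`b = true`) or of `∏_{e ∈ T} y_e` (`Kirchhoff polynomial`, `b = false`). -/
noncomputable def gpol {V E K : Type} [Fintype V] [Fintype E] [CommRing K] (b : Bool) (s t : E → V)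
    (y : E → K) : K :=
  ∑ T : Finset E, if IsTree s t T then ∏ e ∈ (if b then Tᶜ else T), y e else 0

/-- The number of zeros over `K` of the graph polynomial. -/
noncomputable def NG {V E : Type} [Fintype V] [Fintype E] (b : Bool) (s t : E → V) (K : Type) [Field K] : ℕ :=
  Nat.card {y : E → K // gpol b s t y = 0}

/-- The number of points of the graph hypersurface as a function of the prime powers. -/
noncomputable def gcount (b : Bool) (G : CubicGraph) : PF := countPF fun K _ => NG b G.s G.t K

theorem NG_true {V E : Type} [Fintype V] [Fintype E] (s t : E → V) (K : Type) [Field K] :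
    NG true s t K = NS s t K := rfl

theorem NG_false {V E : Type} [Fintype V] [Fintype E] (s t : E → V) (K : Type) [Field K] :
    NG false s t K = NK s t K := rfl

theorem inB_cubicS {f : FinField → ℤ} (hf : Sp Reg3S f) : InB (gcount true) (toPF f) := by
  refine inB_of_sp (fun G => bd_of_le _ fun K _ _ => NS_le G.s G.t K) ?_ hf
  rintro f ⟨n, m, s, t, h1, h2, h3, rfl⟩
  refine ⟨⟨n, m, s, t, h1, h2, h3⟩, fun p r _ => ?_⟩
  simp only [toPF, countPF, ns]
  push_cast
  rfl

theorem hg_cubic2 (b : Bool) (n m : ℕ) (P : Fin m → MvPolynomial (Fin n) ℤ) :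
    InB (gcount b) (countPF (affCount P)) := by
  cases b with
  | false => exact hg_cubic n m P
  | true => exact (inB_cubicS (reg_of_phi4 (aff_phi4 P))).congr fun p r _ => toPF_aff P p r

end Pool.Agent.P3
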