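import Pool.Agent.P3.Cls
import Pool.Agent.P3.Elim

/-!
# The operation `R` on `C` and `G`
-/

set_option autoImplicit false

open scoped BigOperators

namespace Pool.Agent.P3

open Pool.Agent.KG

variable {K : Type} [Field K] [Fintype K]

omit [Field K] in
private theorem mst_sum4 (f : (Fin 4 → K) → ℤ) :
    ∑ y : Fin 4 → K, f y = ∑ y0 : K, ∑ y1 : K, ∑ y2 : K, ∑ y3 : K, f ![y0, y1, y2, y3] := by
  classical
  have h : ∑ y0 : K, ∑ y1 : K, ∑ y2 : K, ∑ y3 : K, f ![y0, y1, y2, y3] =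
      ∑ p : K × K × K × K, f ![p.1, p.2.1, p.2.2.1, p.2.2.2] := by
    simp only [Fintype.sum_prod_type]
  rw [h]
  refine Fintype.sum_equiv
    { toFun := fun y => (y 0, y 1, y 2, y 3)
      invFun := fun p => ![p.1, p.2.1, p.2.2.1, p.2.2.2]
      left_inv := by
        intro y
        funext k
        fin_cases k <;> rfl
      right_inv := by
        rintro ⟨a, b, c, d⟩
        rfl } _ _ fun y => ?_
  congr 1
  funext k
  fin_cases k <;> rfl

omit [Field K] in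
private theorem mst_sum5 (G : K → K → K → K → K → ℤ) :
    ∑ a : K, ∑ b : K, ∑ x : K, ∑ y0 : K, ∑ y1 : K, G a b x y0 y1 =
      ∑ y0 : K, ∑ y1 : K, ∑ x : K, ∑ a : K, ∑ b : K, G a b x y0 y1 := by
  classical
  have h1 : ∑ a : K, ∑ b : K, ∑ x : K, ∑ y0 : K, ∑ y1 : K, G a b x y0 y1 =
      ∑ p : K × K × K × K × K, G p.1 p.2.1 p.2.2.1 p.2.2.2.1 p.2.2.2.2 := by
    simp only [Fintype.sum_prod_type]
  have h2 : ∑ y0 : K, ∑ y1 : K, ∑ x : K, ∑ a : K, ∑ b : K, G a b x y0 y1 =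
      ∑ p : K × K × K × K × K, G p.2.2.2.1 p.2.2.2.2 p.2.2.1 p.1 p.2.1 := by
    simp only [Fintype.sum_prod_type]
  rw [h1, h2]
  exact Fintype.sum_equiv
    { toFun := fun p => (p.2.2.2.1, p.2.2.2.2, p.2.2.1, p.1, p.2.1)
      invFun := fun p => (p.2.2.2.1, p.2.2.2.2, p.2.2.1, p.1, p.2.1)
      left_inv := fun p => rfl
      right_inv := fun p => rfl } _ _ fun p => rfl

private theorem mst_sum (F : K → K → K → (Fin 4 → K) → ℤ) (ϕ : K → K → K → (Fin 4 → K) → ℤ)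
    (h : ∀ a b x y0 y1 y2 y3, F a b x ![y0, y1, y2, y3] = ϕ y0 y1 x ![y0 + a, y1 + b, y2, y3]) :
    ∑ a : K, ∑ b : K, ∑ x : K, ∑ y : Fin 4 → K, F a b x y =
      ∑ y0 : K, ∑ y1 : K, ∑ x : K, ∑ y : Fin 4 → K, ϕ y0 y1 x y := by
  classical
  simp only [mst_sum4, h]
  rw [mst_sum5]
  refine Finset.sum_congr rfl fun y0 _ => Finset.sum_congr rfl fun y1 _ =>
    Finset.sum_congr rfl fun x _ => ?_
  refine (Fintype.sum_equiv (Equiv.addLeft y0) _ _ fun a => ?_)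
  rw [Equiv.coe_addLeft]
  refine (Fintype.sum_equiv (Equiv.addLeft y1) _ _ fun b => ?_)
  rw [Equiv.coe_addLeft]

omit [Fintype K] in
private theorem mst_diag (Q : Matrix (Fin 4) (Fin 4) K) (N : Matrix (Fin 4) (Fin 4) K) (a b y0 y1 y2 y3 : K) :
    Q + Matrix.diagonal ![y0, y1, y2, y3] + Matrix.diagonal ![a, b, 0, 0] + N =
      (Q + N) + Matrix.diagonal ![y0 + a, y1 + b, y2, y3] := by
  have : Matrix.diagonal ![y0 + a, y1 + b, y2, y3] =
      (Matrix.diagonal ![y0, y1, y2, y3] + Matrix.diagonal ![a, b, 0, 0] : Matrix (Fin 4) (Fin 4) K) := by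
    rw [Matrix.diagonal_add]
    congr 1
    funext k
    fin_cases k
    · rfl
    · rfl
    · exact (add_zero y2).symm
    · exact (add_zero y3).symm
  rw [this]
  abel

omit [Fintype K] in
private theorem mst_g (Q : Matrix (Fin 4) (Fin 4) K) (y0 y1 y2 y3 : K) (k : Fin 4) :
    gv Q y0 y1 k = (Q + Matrix.diagonal ![y0, y1, y2, y3]) k 0 -
      (Q + Matrix.diagonal ![y0, y1, y2, y3]) k 1 := by
  unfold gv vv
  rw [Matrix.add_apply, Matrix.add_apply]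
  simp only [Matrix.mulVec, dotProduct, Fin.sum_univ_four]
  fin_cases k <;> simp <;> ring

omit [Fintype K] in
private theorem mst_symm (Q : Matrix (Fin 4) (Fin 4) K) (hQ : Q.IsSymm) (y : Fin 4 → K) :
    (Q + Matrix.diagonal y).IsSymm := hQ.add (Matrix.isSymm_diagonal y)

omit [Fintype K] in
private theorem mst_vsymm (g : Fin 4 → K) : (Matrix.vecMulVec g g).IsSymm := by
  ext i j
  rw [Matrix.transpose_apply, Matrix.vecMulVec_apply, Matrix.vecMulVec_apply, mul_comm]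

private theorem mst_ite (A : ℤ) (f : K → ℤ) (inst : DecidableEq K) :
    ∑ S : K, (if S = 0 then A else f S) = A + ∑ S : K, (if S = 0 then 0 else f S) := by
  have h : ∀ S : K, (if S = 0 then A else f S) = (if S = 0 then A else 0) + (if S = 0 then 0 else f S) := by
    intro S
    split_ifs <;> simp
  simp only [h]
  rw [Finset.sum_add_distrib, Finset.sum_ite_eq' Finset.univ (0 : K) (fun _ => A), if_pos (Finset.mem_univ _)]

private theorem mst_shift (F : K → ℤ) (t : K) : ∑ x : K, F (x + t) = ∑ x : K, F x :=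
  Equiv.sum_comp (Equiv.addRight t) F

/-- MODULE RC.  The first master formula. -/
theorem R_C (Q : Matrix (Fin 4) (Fin 4) K) (hQ : Q.IsSymm) (B : Set (Pt K)) :
    R (C Q) B = ∑ y0 : K, ∑ y1 : K, (G (gv Q y0 y1) Q B +
      open Classical in ∑ S : K, if S = 0 then 0 else
        cf (al Q - S⁻¹ * ((gv Q y0 y1 0 - gv Q y0 y1 1) * (gv Q y0 y1 2 - gv Q y0 y1 3)))
          (be Q - S⁻¹ * ((gv Q y0 y1 0 - gv Q y0 y1 3) * (gv Q y0 y1 1 - gv Q y0 y1 2))) B) := by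
  classical
  unfold R C
  rw [mst_sum (fun a b x y => if ∀ z ∈ bp a b x B, ¬ Lam (Q + Matrix.diagonal y) z then 1 else 0)
    (fun y0 y1 x y => if x + (gv Q y0 y1 0 - gv Q y0 y1 1) = 0 then
        (if (¬ ∃ c, ∀ k, gv Q y0 y1 k = c) ∧ ∀ z ∈ B, ¬ LamF (gv Q y0 y1) (Q + Matrix.diagonal y) z
          then 1 else 0)
      else (if ∀ z ∈ B, ¬ Lam (Q + -((x + (gv Q y0 y1 0 - gv Q y0 y1 1))⁻¹ •
        Matrix.vecMulVec (gv Q y0 y1) (gv Q y0 y1)) + Matrix.diagonal y) z then 1 else 0))]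
  · refine Finset.sum_congr rfl fun y0 _ => Finset.sum_congr rfl fun y1 _ => ?_
    obtain ⟨f, hf⟩ : ∃ f : K → ℤ, ∀ S, f S =
        cf (al Q - S⁻¹ * ((gv Q y0 y1 0 - gv Q y0 y1 1) * (gv Q y0 y1 2 - gv Q y0 y1 3)))
          (be Q - S⁻¹ * ((gv Q y0 y1 0 - gv Q y0 y1 3) * (gv Q y0 y1 1 - gv Q y0 y1 2))) B :=
      ⟨_, fun S => rfl⟩
    simp only [← hf]
    have h1 : ∀ x : K, (∑ y : Fin 4 → K, (if x + (gv Q y0 y1 0 - gv Q y0 y1 1) = 0 then
        (if (¬ ∃ c, ∀ k, gv Q y0 y1 k = c) ∧ ∀ z ∈ B, ¬ LamF (gv Q y0 y1) (Q + Matrix.diagonal y) z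
          then (1 : ℤ) else 0)
      else (if ∀ z ∈ B, ¬ Lam (Q + -((x + (gv Q y0 y1 0 - gv Q y0 y1 1))⁻¹ •
        Matrix.vecMulVec (gv Q y0 y1) (gv Q y0 y1)) + Matrix.diagonal y) z then 1 else 0))) =
        (fun S : K => if S = 0 then G (gv Q y0 y1) Q B else f S)
          (x + (gv Q y0 y1 0 - gv Q y0 y1 1)) := by
      intro x
      by_cases hS : x + (gv Q y0 y1 0 - gv Q y0 y1 1) = 0
      · simp only [hS, if_true]
        unfold G
        exact Finset.sum_congr rfl fun y _ => by congr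
      · simp only [hS, if_false]
        have h2 := C_eq_cf (Q + -((x + (gv Q y0 y1 0 - gv Q y0 y1 1))⁻¹ •
          Matrix.vecMulVec (gv Q y0 y1) (gv Q y0 y1)))
          (hQ.add ((mst_vsymm _).smul _).neg) B
        have ha : al (Q + -((x + (gv Q y0 y1 0 - gv Q y0 y1 1))⁻¹ •
          Matrix.vecMulVec (gv Q y0 y1) (gv Q y0 y1))) = al Q - (x + (gv Q y0 y1 0 - gv Q y0 y1 1))⁻¹ *
            ((gv Q y0 y1 0 - gv Q y0 y1 1) * (gv Q y0 y1 2 - gv Q y0 y1 3)) := by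
          unfold al
          simp only [Matrix.add_apply, Matrix.neg_apply, Matrix.smul_apply, Matrix.vecMulVec_apply, smul_eq_mul]
          ring
        have hb : be (Q + -((x + (gv Q y0 y1 0 - gv Q y0 y1 1))⁻¹ •
          Matrix.vecMulVec (gv Q y0 y1) (gv Q y0 y1))) = be Q - (x + (gv Q y0 y1 0 - gv Q y0 y1 1))⁻¹ *
            ((gv Q y0 y1 0 - gv Q y0 y1 3) * (gv Q y0 y1 1 - gv Q y0 y1 2)) := by
          unfold be
          simp only [Matrix.add_apply, Matrix.neg_apply, Matrix.smul_apply, Matrix.vecMulVec_apply, smul_eq_mul]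
          ring
        rw [hf, ← ha, ← hb, ← h2]
        unfold C
        exact Finset.sum_congr rfl fun y _ => by congr
    refine (Finset.sum_congr rfl fun x _ => h1 x).trans ?_
    rw [mst_shift (fun S : K => if S = 0 then G (gv Q y0 y1) Q B else f S), mst_ite]
  · intro a b x y0 y1 y2 y3
    have hsym := mst_symm Q hQ ![y0, y1, y2, y3]
    have hg := mst_g Q y0 y1 y2 y3
    by_cases hS : x + (gv Q y0 y1 0 - gv Q y0 y1 1) = 0
    · simp only [hS, if_true]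
      have h1 := elim2 (Q + Matrix.diagonal ![y0, y1, y2, y3]) hsym a b x (gv Q y0 y1) hg hS B
      have h2 : Q + Matrix.diagonal ![y0, y1, y2, y3] + Matrix.diagonal ![a, b, 0, 0] =
          Q + Matrix.diagonal ![y0 + a, y1 + b, y2, y3] := by
        have := mst_diag Q 0 a b y0 y1 y2 y3
        simpa using this
      rw [h2] at h1
      have h3 : (∀ z ∈ bp a b x B, ¬ Lam (Q + Matrix.diagonal ![y0, y1, y2, y3]) z) ↔
          ((¬ ∃ c, ∀ k, gv Q y0 y1 k = c) ∧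
            ∀ z ∈ B, ¬ LamF (gv Q y0 y1) (Q + Matrix.diagonal ![y0 + a, y1 + b, y2, y3]) z) := by
        have h4 := not_congr h1
        push Not at h4
        push Not
        exact h4
      simp only [h3]
    · simp only [hS, if_false]
      have h1 := elim1 (Q + Matrix.diagonal ![y0, y1, y2, y3]) hsym a b x (gv Q y0 y1) hg _ rfl hS B
      rw [sub_eq_add_neg, mst_diag] at h1
      have h3 := not_congr h1
      push Not at h3
      simp only [h3]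

/-- MODULE RG.  The second master formula. -/
theorem R_G (φ : Fin 4 → K) (Q : Matrix (Fin 4) (Fin 4) K) (hQ : Q.IsSymm) (h : φ 0 - φ 1 ≠ 0)
    (B : Set (Pt K)) :
    R (G φ Q) B = ∑ y0 : K, ∑ y1 : K, ∑ s : K,
      cf (al Q - (φ 0 - φ 1)⁻¹ * ((gv Q y0 y1 0 - gv Q y0 y1 1) * (φ 2 - φ 3) +
          (φ 0 - φ 1) * (gv Q y0 y1 2 - gv Q y0 y1 3)) + s * ((φ 0 - φ 1) * (φ 2 - φ 3)))
        (be Q - (φ 0 - φ 1)⁻¹ * ((gv Q y0 y1 0 - gv Q y0 y1 3) * (φ 1 - φ 2) +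
          (φ 0 - φ 3) * (gv Q y0 y1 1 - gv Q y0 y1 2)) + s * ((φ 0 - φ 3) * (φ 1 - φ 2))) B := by
  classical
  unfold R G
  have hnc : ¬ ∃ c, ∀ k, φ k = c := by
    rintro ⟨c, hc⟩
    exact h (by rw [hc 0, hc 1, sub_self])
  have hi := inv_ne_zero h
  rw [mst_sum (fun a b x y => if (¬ ∃ c, ∀ k, φ k = c) ∧
      ∀ z ∈ bp a b x B, ¬ LamF φ (Q + Matrix.diagonal y) z then 1 else 0)
    (fun y0 y1 x y => if ∀ z ∈ B, ¬ Lam (Q + (-((φ 0 - φ 1)⁻¹ • sm (gv Q y0 y1) φ) +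
        ((φ 0 - φ 1)⁻¹ * (φ 0 - φ 1)⁻¹ * (x + (gv Q y0 y1 0 - gv Q y0 y1 1))) • Matrix.vecMulVec φ φ) +
        Matrix.diagonal y) z then 1 else 0)]
  · refine Finset.sum_congr rfl fun y0 _ => Finset.sum_congr rfl fun y1 _ => ?_
    have h1 : ∀ x : K, (∑ y : Fin 4 → K, (if ∀ z ∈ B, ¬ Lam (Q + (-((φ 0 - φ 1)⁻¹ • sm (gv Q y0 y1) φ) +
        ((φ 0 - φ 1)⁻¹ * (φ 0 - φ 1)⁻¹ * (x + (gv Q y0 y1 0 - gv Q y0 y1 1))) • Matrix.vecMulVec φ φ) +
        Matrix.diagonal y) z then (1 : ℤ) else 0)) =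
        (fun s : K => cf (al Q - (φ 0 - φ 1)⁻¹ * ((gv Q y0 y1 0 - gv Q y0 y1 1) * (φ 2 - φ 3) +
          (φ 0 - φ 1) * (gv Q y0 y1 2 - gv Q y0 y1 3)) + s * ((φ 0 - φ 1) * (φ 2 - φ 3)))
        (be Q - (φ 0 - φ 1)⁻¹ * ((gv Q y0 y1 0 - gv Q y0 y1 3) * (φ 1 - φ 2) +
          (φ 0 - φ 3) * (gv Q y0 y1 1 - gv Q y0 y1 2)) + s * ((φ 0 - φ 3) * (φ 1 - φ 2))) B)
          ((φ 0 - φ 1)⁻¹ * (φ 0 - φ 1)⁻¹ * (x + (gv Q y0 y1 0 - gv Q y0 y1 1))) := by
      intro x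
      have hsm : (sm (gv Q y0 y1) φ).IsSymm := by
        ext i j
        unfold sm
        rw [Matrix.transpose_apply, Matrix.add_apply, Matrix.add_apply, Matrix.vecMulVec_apply,
          Matrix.vecMulVec_apply, Matrix.vecMulVec_apply, Matrix.vecMulVec_apply]
        ring
      have h2 := C_eq_cf (Q + (-((φ 0 - φ 1)⁻¹ • sm (gv Q y0 y1) φ) +
        ((φ 0 - φ 1)⁻¹ * (φ 0 - φ 1)⁻¹ * (x + (gv Q y0 y1 0 - gv Q y0 y1 1))) • Matrix.vecMulVec φ φ))
          (hQ.add ((hsm.smul _).neg.add ((mst_vsymm φ).smul _))) B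
      have ha : al (Q + (-((φ 0 - φ 1)⁻¹ • sm (gv Q y0 y1) φ) +
        ((φ 0 - φ 1)⁻¹ * (φ 0 - φ 1)⁻¹ * (x + (gv Q y0 y1 0 - gv Q y0 y1 1))) • Matrix.vecMulVec φ φ)) =
          al Q - (φ 0 - φ 1)⁻¹ * ((gv Q y0 y1 0 - gv Q y0 y1 1) * (φ 2 - φ 3) +
          (φ 0 - φ 1) * (gv Q y0 y1 2 - gv Q y0 y1 3)) +
          ((φ 0 - φ 1)⁻¹ * (φ 0 - φ 1)⁻¹ * (x + (gv Q y0 y1 0 - gv Q y0 y1 1))) *
            ((φ 0 - φ 1) * (φ 2 - φ 3)) := by
        unfold al sm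
        simp only [Matrix.add_apply, Matrix.neg_apply, Matrix.smul_apply, Matrix.vecMulVec_apply, smul_eq_mul]
        ring
      have hb : be (Q + (-((φ 0 - φ 1)⁻¹ • sm (gv Q y0 y1) φ) +
        ((φ 0 - φ 1)⁻¹ * (φ 0 - φ 1)⁻¹ * (x + (gv Q y0 y1 0 - gv Q y0 y1 1))) • Matrix.vecMulVec φ φ)) =
          be Q - (φ 0 - φ 1)⁻¹ * ((gv Q y0 y1 0 - gv Q y0 y1 3) * (φ 1 - φ 2) +
          (φ 0 - φ 3) * (gv Q y0 y1 1 - gv Q y0 y1 2)) +
          ((φ 0 - φ 1)⁻¹ * (φ 0 - φ 1)⁻¹ * (x + (gv Q y0 y1 0 - gv Q y0 y1 1))) *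
            ((φ 0 - φ 3) * (φ 1 - φ 2)) := by
        unfold be sm
        simp only [Matrix.add_apply, Matrix.neg_apply, Matrix.smul_apply, Matrix.vecMulVec_apply, smul_eq_mul]
        ring
      show _ = cf _ _ B
      rw [← ha, ← hb, ← h2]
      unfold C
      exact Finset.sum_congr rfl fun y _ => by congr
    refine (Finset.sum_congr rfl fun x _ => h1 x).trans ?_
    have h3 : (φ 0 - φ 1)⁻¹ * (φ 0 - φ 1)⁻¹ ≠ 0 := mul_ne_zero hi hi
    exact Fintype.sum_equiv ((Equiv.addRight (gv Q y0 y1 0 - gv Q y0 y1 1)).trans (Equiv.mulLeft₀ _ h3))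
      _ _ fun x => rfl
  · intro a b x y0 y1 y2 y3
    have hsym := mst_symm Q hQ ![y0, y1, y2, y3]
    have hg := mst_g Q y0 y1 y2 y3
    have h1 := elim3 φ (Q + Matrix.diagonal ![y0, y1, y2, y3]) hsym a b x (gv Q y0 y1) hg _ rfl h B
    have hM : Q + Matrix.diagonal ![y0, y1, y2, y3] + Matrix.diagonal ![a, b, 0, 0] -
        (φ 0 - φ 1)⁻¹ • sm (gv Q y0 y1) φ +
        ((φ 0 - φ 1)⁻¹ * (φ 0 - φ 1)⁻¹ * (x + (gv Q y0 y1 0 - gv Q y0 y1 1))) • Matrix.vecMulVec φ φ =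
        Q + (-((φ 0 - φ 1)⁻¹ • sm (gv Q y0 y1) φ) +
        ((φ 0 - φ 1)⁻¹ * (φ 0 - φ 1)⁻¹ * (x + (gv Q y0 y1 0 - gv Q y0 y1 1))) • Matrix.vecMulVec φ φ) +
        Matrix.diagonal ![y0 + a, y1 + b, y2, y3] := by
      rw [← mst_diag]
      abel
    rw [hM] at h1
    have h3 := not_congr h1
    push Not at h3
    simp only [hnc, not_false_eq_true, true_and, h3]

theorem R_add (X Y : Set (Pt K) → ℤ) (B : Set (Pt K)) : R (fun B => X B + Y B) B = R X B + R Y B := by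
  simp only [R, Finset.sum_add_distrib]

theorem R_smul (c : ℤ) (X : Set (Pt K) → ℤ) (B : Set (Pt K)) : R (fun B => c * X B) B = c * R X B := by
  simp only [R, Finset.mul_sum]

theorem R_sum {ι : Type} (u : Finset ι) (X : ι → Set (Pt K) → ℤ) (B : Set (Pt K)) :
    R (fun B => ∑ i ∈ u, X i B) B = ∑ i ∈ u, R (X i) B := by
  classical
  induction u using Finset.induction_on with
  | empty => simp [R]
  | insert i u hi ih =>
    rw [Finset.sum_insert hi, ← ih, ← R_add]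
    congr 1
    funext B
    rw [Finset.sum_insert hi]

end Pool.Agent.P3
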