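import Pool.Agent.P3.Prm
import Pool.Agent.P3.Cls

/-!
# Permutations of the ports: the pairings
-/

set_option autoImplicit false

open scoped BigOperators

namespace Pool.Agent.P3

open Pool.Agent.KG

variable {K : Type} [Field K] [Fintype K]

private theorem PMH_cf (σ : Equiv.Perm (Fin 4)) (α β : K) (B : Set (Pt K)) :
    cf α β (pm σ B) = cf (al ((mt α β).submatrix σ.symm σ.symm)) (be ((mt α β).submatrix σ.symm σ.symm)) B := by
  show C (mt α β) (pm σ B) = _
  rw [C_pm, C_eq_cf]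
  exact (mt_symm α β).submatrix σ.symm

/-- MODULE PMH (1).

Proof.  `C_pm`, `C_eq_cf`: `cf r (-r) (pm (swap 1 2) B) = cf a b B` with `a`, `b` the invariants of the symmetric
matrix `(mt r (-r)).submatrix (swap 1 2) (swap 1 2)`: `a = Q 0 1 - Q 0 3 - Q 2 1 + Q 2 3 = 0` and
`b = Q 0 2 - Q 0 1 - Q 2 3 + Q 1 3 = r` for `Q = mt r (-r)` (the only nonzero entries are `Q 1 3 = Q 3 1 = r`). -/
theorem H1_eq (B : Set (Pt K)) : H1 B = H2 (pm (Equiv.swap 1 2) B) := by
  unfold H1 H2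
  refine Finset.sum_congr rfl fun r _ => ?_
  rw [PMH_cf]
  have e0 : (Equiv.swap (1 : Fin 4) 2).symm 0 = 0 := by decide
  have e1 : (Equiv.swap (1 : Fin 4) 2).symm 1 = 2 := by decide
  have e2 : (Equiv.swap (1 : Fin 4) 2).symm 2 = 1 := by decide
  have e3 : (Equiv.swap (1 : Fin 4) 2).symm 3 = 3 := by decide
  have h1 : al ((mt r (-r)).submatrix (Equiv.swap (1 : Fin 4) 2).symm (Equiv.swap (1 : Fin 4) 2).symm) = 0 := by
    unfold al
    simp only [Matrix.submatrix_apply, e0, e1, e2, e3]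
    simp [mt]
  have h2 : be ((mt r (-r)).submatrix (Equiv.swap (1 : Fin 4) 2).symm (Equiv.swap (1 : Fin 4) 2).symm) = r := by
    unfold be
    simp only [Matrix.submatrix_apply, e0, e1, e2, e3]
    simp [mt]
  rw [h1, h2]

/-- MODULE PMH (2).  Here `a = Q 0 3 - Q 0 2 - Q 1 3 + Q 1 2 = -r`, `b = Q 0 1 - Q 0 3 - Q 1 2 + Q 3 2 = 0`;
substitute `r ↦ -r`. -/
theorem H3_eq (B : Set (Pt K)) : H3 B = H2 (pm (Equiv.swap 2 3) B) := by
  unfold H3 H2
  refine Fintype.sum_equiv (Equiv.neg K) _ _ fun r => ?_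
  rw [PMH_cf]
  show _ = cf (al ((mt (-r) (- -r)).submatrix _ _)) (be ((mt (-r) (- -r)).submatrix _ _)) B
  have e0 : (Equiv.swap (2 : Fin 4) 3).symm 0 = 0 := by decide
  have e1 : (Equiv.swap (2 : Fin 4) 3).symm 1 = 1 := by decide
  have e2 : (Equiv.swap (2 : Fin 4) 3).symm 2 = 3 := by decide
  have e3 : (Equiv.swap (2 : Fin 4) 3).symm 3 = 2 := by decide
  have h1 : al ((mt (-r) (- -r)).submatrix (Equiv.swap (2 : Fin 4) 3).symm (Equiv.swap (2 : Fin 4) 3).symm) =
      r := by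
    unfold al
    simp only [Matrix.submatrix_apply, e0, e1, e2, e3]
    simp [mt]
  have h2 : be ((mt (-r) (- -r)).submatrix (Equiv.swap (2 : Fin 4) 3).symm (Equiv.swap (2 : Fin 4) 3).symm) =
      0 := by
    unfold be
    simp only [Matrix.submatrix_apply, e0, e1, e2, e3]
    simp [mt]
  rw [h1, h2]

/-- MODULE PMH (3).  `G_pm`; `![a, b, 0, 0] ∘ swap 1 2 = ![a, 0, b, 0]`, and the zero matrix stays zero. -/
theorem Ps13_eq (B : Set (Pt K)) : Ps13 B = Ps (pm (Equiv.swap 1 2) B) := by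
  unfold Ps13 Ps
  refine Finset.sum_congr rfl fun a _ => Finset.sum_congr rfl fun b _ => ?_
  rw [G_pm, Matrix.submatrix_zero]
  have h1 : (![a, b, 0, 0] : Fin 4 → K) ∘ (Equiv.swap (1 : Fin 4) 2).symm = ![a, 0, b, 0] := by
    have e0 : (Equiv.swap (1 : Fin 4) 2).symm 0 = 0 := by decide
    have e1 : (Equiv.swap (1 : Fin 4) 2).symm 1 = 2 := by decide
    have e2 : (Equiv.swap (1 : Fin 4) 2).symm 2 = 1 := by decide
    have e3 : (Equiv.swap (1 : Fin 4) 2).symm 3 = 3 := by decide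
    funext k
    rw [Function.comp_apply]
    fin_cases k
    · exact congrArg _ e0
    · exact congrArg _ e1
    · exact congrArg _ e2
    · exact congrArg _ e3
  rw [h1]
  rfl

/-- MODULE PMH (4). -/
theorem Ps01_eq (B : Set (Pt K)) : Ps01 B = Ps (pm (Equiv.swap 0 2 * Equiv.swap 1 3) B) := by
  unfold Ps01 Ps
  refine Finset.sum_congr rfl fun a _ => Finset.sum_congr rfl fun b _ => ?_
  rw [G_pm, Matrix.submatrix_zero]
  have h1 : (![a, b, 0, 0] : Fin 4 → K) ∘ (Equiv.swap (0 : Fin 4) 2 * Equiv.swap 1 3).symm =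
      ![0, 0, a, b] := by
    have e0 : (Equiv.swap (0 : Fin 4) 2 * Equiv.swap 1 3).symm 0 = 2 := by decide
    have e1 : (Equiv.swap (0 : Fin 4) 2 * Equiv.swap 1 3).symm 1 = 3 := by decide
    have e2 : (Equiv.swap (0 : Fin 4) 2 * Equiv.swap 1 3).symm 2 = 0 := by decide
    have e3 : (Equiv.swap (0 : Fin 4) 2 * Equiv.swap 1 3).symm 3 = 1 := by decide
    funext k
    rw [Function.comp_apply]
    fin_cases k
    · exact congrArg _ e0
    · exact congrArg _ e1
    · exact congrArg _ e2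
    · exact congrArg _ e3
  rw [h1]
  rfl

end Pool.Agent.P3
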