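import Pool.Agent.P3.Defs

/-!
# Permutations of the ports
-/

set_option autoImplicit false

open scoped BigOperators

namespace Pool.Agent.P3

open Pool.Agent.KG

variable {K : Type} [Field K] [Fintype K]

omit [Fintype K] in
private theorem PRM_mv (σ : Equiv.Perm (Fin 4)) (M : Matrix (Fin 4) (Fin 4) K) (j : Fin 4 → K) (k : Fin 4) :
    (M.submatrix σ.symm σ.symm).mulVec j (σ k) = M.mulVec (j ∘ σ) k := by
  show ∑ l, M (σ.symm (σ k)) (σ.symm l) * j l = ∑ l, M k l * j (σ l)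
  rw [Equiv.symm_apply_apply]
  refine (Fintype.sum_equiv σ _ _ fun l => ?_).symm
  rw [Equiv.symm_apply_apply]

omit [Fintype K] in
private theorem PRM_sub (σ : Equiv.Perm (Fin 4)) (Q : Matrix (Fin 4) (Fin 4) K) (y : Fin 4 → K) :
    (Q + Matrix.diagonal y).submatrix σ.symm σ.symm =
      Q.submatrix σ.symm σ.symm + Matrix.diagonal (y ∘ σ.symm) := by
  ext i j
  rw [Matrix.submatrix_apply, Matrix.add_apply, Matrix.add_apply, Matrix.submatrix_apply,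
    Matrix.diagonal_apply, Matrix.diagonal_apply]
  by_cases h : i = j
  · rw [if_pos h, if_pos (congrArg _ h)]
    rfl
  · rw [if_neg h, if_neg fun h' => h (σ.symm.injective h')]

omit [Fintype K] in
private theorem PRM_lam (σ : Equiv.Perm (Fin 4)) (M : Matrix (Fin 4) (Fin 4) K) (w : Pt K) :
    Lam M w ↔ Lam (M.submatrix σ.symm σ.symm) (w.1 ∘ σ.symm, w.2 ∘ σ.symm) := by
  have h1 : (w.1 ∘ σ.symm) ∘ σ = w.1 := by
    funext k
    simp
  have h2 : ∑ k, (w.1 ∘ σ.symm) k = ∑ k, w.1 k := Equiv.sum_comp σ.symm w.1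
  constructor
  · rintro ⟨h0, c, hc⟩
    refine ⟨h2.trans h0, c, fun k => ?_⟩
    obtain ⟨k, rfl⟩ := σ.surjective k
    rw [PRM_mv, h1, ← hc k]
    show w.2 (σ.symm (σ k)) + _ = _
    rw [Equiv.symm_apply_apply]
  · rintro ⟨h0, c, hc⟩
    refine ⟨h2.symm.trans h0, c, fun k => ?_⟩
    have h3 := hc (σ k)
    rw [PRM_mv, h1] at h3
    rw [← h3]
    show _ = w.2 (σ.symm (σ k)) + _
    rw [Equiv.symm_apply_apply]

omit [Fintype K] in
private theorem PRM_lamF (σ : Equiv.Perm (Fin 4)) (φ : Fin 4 → K) (M : Matrix (Fin 4) (Fin 4) K)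
    (w : Pt K) :
    LamF φ M w ↔ LamF (φ ∘ σ.symm) (M.submatrix σ.symm σ.symm) (w.1 ∘ σ.symm, w.2 ∘ σ.symm) := by
  have h1 : (w.1 ∘ σ.symm) ∘ σ = w.1 := by
    funext k
    simp
  have h2 : ∑ k, (w.1 ∘ σ.symm) k = ∑ k, w.1 k := Equiv.sum_comp σ.symm w.1
  have h3 : ∑ k, (φ ∘ σ.symm) k * (w.1 ∘ σ.symm) k = ∑ k, φ k * w.1 k :=
    Equiv.sum_comp σ.symm fun k => φ k * w.1 k
  constructor
  · rintro ⟨h0, h0', c, u, hc⟩
    refine ⟨h2.trans h0, h3.trans h0', c, u, fun k => ?_⟩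
    obtain ⟨k, rfl⟩ := σ.surjective k
    rw [PRM_mv, h1]
    show w.2 (σ.symm (σ k)) + _ = c + u * φ (σ.symm (σ k))
    rw [Equiv.symm_apply_apply]
    exact hc k
  · rintro ⟨h0, h0', c, u, hc⟩
    refine ⟨h2.symm.trans h0, h3.symm.trans h0', c, u, fun k => ?_⟩
    have h4 := hc (σ k)
    rw [PRM_mv, h1] at h4
    have h5 : w.2 (σ.symm (σ k)) + M.mulVec w.1 k = c + u * φ (σ.symm (σ k)) := h4
    rwa [Equiv.symm_apply_apply] at h5

private theorem PRM_ite {p q : Prop} [Decidable p] [Decidable q] (h : p ↔ q) :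
    (if p then (1 : ℤ) else 0) = if q then 1 else 0 := by
  by_cases hp : p
  · rw [if_pos hp, if_pos (h.1 hp)]
  · rw [if_neg hp, if_neg fun h3 => hp (h.2 h3)]

private theorem PRM_all {K : Type} (σ : Equiv.Perm (Fin 4)) (B : Set (Pt K)) (P P' : Pt K → Prop)
    (h : ∀ w, P w ↔ P' (w.1 ∘ σ.symm, w.2 ∘ σ.symm)) : (∀ z ∈ pm σ B, ¬ P z) ↔ ∀ z ∈ B, ¬ P' z := by
  constructor
  · intro h1 z hz hP
    have h2 : ((z.1 ∘ σ) ∘ σ.symm, (z.2 ∘ σ) ∘ σ.symm) = z := by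
      refine Prod.ext ?_ ?_
      · funext k
        simp
      · funext k
        simp
    refine h1 (z.1 ∘ σ, z.2 ∘ σ) ?_ ?_
    · show ((z.1 ∘ σ) ∘ σ.symm, (z.2 ∘ σ) ∘ σ.symm) ∈ B
      rw [h2]
      exact hz
    · rw [h]
      show P' ((z.1 ∘ σ) ∘ σ.symm, (z.2 ∘ σ) ∘ σ.symm)
      rw [h2]
      exact hP
  · intro h1 w hw hP
    exact h1 _ hw ((h w).1 hP)

/-- MODULE PRM (1).

Proof.  `w ∈ pm σ B` iff `w = (j ∘ σ, p ∘ σ)` with `(j, p) ∈ B`.  `∑ k, j (σ k) = ∑ k, j k` (`Equiv.sum_comp`), and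
`(Q + diagonal y).mulVec (j ∘ σ) k = (Q.submatrix σ.symm σ.symm + diagonal (y ∘ σ.symm)).mulVec j (σ k)`
(`Matrix.submatrix_mulVec_equiv` or reindex the sum).  Hence `Lam (Q + diagonal y) (j ∘ σ, p ∘ σ) ↔
Lam (Q.submatrix σ.symm σ.symm + diagonal (y ∘ σ.symm)) (j, p)`; reindex the sum over `y` by `y ↦ y ∘ σ.symm`
(`Equiv.arrowCongr σ (Equiv.refl K)`). -/
theorem C_pm (σ : Equiv.Perm (Fin 4)) (Q : Matrix (Fin 4) (Fin 4) K) (B : Set (Pt K)) :
    C Q (pm σ B) = C (Q.submatrix σ.symm σ.symm) B := by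
  classical
  unfold C
  refine Fintype.sum_equiv (Equiv.arrowCongr σ (Equiv.refl K)) _ _ fun y => PRM_ite ?_
  refine PRM_all σ B _ _ fun w => ?_
  have h1 := PRM_lam σ (Q + Matrix.diagonal y) w
  rw [PRM_sub] at h1
  exact h1

/-- MODULE PRM (2).  The same for `G`; moreover `∑ k, φ k * j (σ k) = ∑ k, φ (σ.symm k) * j k`. -/
theorem G_pm (σ : Equiv.Perm (Fin 4)) (φ : Fin 4 → K) (Q : Matrix (Fin 4) (Fin 4) K) (B : Set (Pt K)) :
    G φ Q (pm σ B) = G (φ ∘ σ.symm) (Q.submatrix σ.symm σ.symm) B := by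
  classical
  unfold G
  refine Fintype.sum_equiv (Equiv.arrowCongr σ (Equiv.refl K)) _ _ fun y => PRM_ite
    (and_congr (not_congr ⟨fun ⟨c, hc⟩ => ⟨c, fun k => hc _⟩, fun ⟨c, hc⟩ => ⟨c, fun k => ?_⟩⟩) ?_)
  · have h1 := hc (σ k)
    have h2 : φ (σ.symm (σ k)) = c := h1
    rwa [Equiv.symm_apply_apply] at h2
  · refine PRM_all σ B _ _ fun w => ?_
    have h1 := PRM_lamF σ φ (Q + Matrix.diagonal y) w
    rw [PRM_sub] at h1
    exact h1

end Pool.Agent.P3
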