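import Pool.Agent.P3.Crit

/-!
# Reduction to connected 3-regular graphs without loops
-/

set_option autoImplicit false

open scoped BigOperators

namespace Pool.Agent.P3

open Pool.Agent.KG Pool.Agent.KGU

private theorem RG_pend {V E K : Type} [Fintype V] [Fintype E] [Field K] (b : V) (s t : E → V)
    (α β : Option E → K) :
    tht (ae none (some ∘ s)) (ae (some b) (some ∘ t)) α β = α none * tht s t (α ∘ some) (β ∘ some) := by
  have h := tht_dc none (some b) (by simp) (fun o : Option V => o.elim b id) (fun x => ⟨some x, rfl⟩) (by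
        rintro (_ | x) (_ | x')
        · simp
        · simp [eq_comm]
        · simp
        · simp) (some ∘ s) (some ∘ t) α β
  rw [h, tht_isol (some ∘ s) (some ∘ t) (some b) none (by simp) (fun e => by simp), mul_zero, zero_add]
  rfl

private theorem RG_ser {V E K : Type} [Fintype V] [Fintype E] [Field K] (a b : V) (s t : E → V)
    (α β : Option (Option E) → K) :
    tht (ae (some a) (ae none (some ∘ s))) (ae none (ae (some b) (some ∘ t))) α β =
      β none * (α (some none) * tht s t ((α ∘ some) ∘ some) ((β ∘ some) ∘ some)) +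
        α none * tht (ae a s) (ae b t) (α ∘ some) (β ∘ some) := by
  have h := tht_dc (some a) none (by simp) (fun o : Option V => o.elim a id) (fun x => ⟨some x, rfl⟩) (by
        rintro (_ | x) (_ | x')
        · simp
        · simp [eq_comm]
        · simp
        · simp) (ae none (some ∘ s)) (ae (some b) (some ∘ t)) α β
  have h1 : (fun o : Option V => o.elim a id) ∘ (ae none (some ∘ s)) = ae a s := by
    funext o
    rcases o with _ | e <;> rfl
  have h2 : (fun o : Option V => o.elim a id) ∘ (ae (some b) (some ∘ t)) = ae b t := by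
    funext o
    rcases o with _ | e <;> rfl
  rw [h1, h2] at h
  rw [h, RG_pend]
  rfl

private theorem RG_sub {V E K : Type} [Fintype V] [Fintype E] [Field K] (a b : V) (s t : E → V)
    (y z : K) (x : E → K) :
    sym (ae (some a) (ae none (some ∘ s))) (ae none (ae (some b) (some ∘ t)))
      (fun o => o.elim y fun o => o.elim z x) =
      sym (ae a s) (ae b t) (fun o => o.elim (y + z) x) := by
  by_cases hab : a = b
  · subst hab
    rw [sym_loop]
    simp only [sym_eq_tht]
    rw [RG_ser, tht_loop]
    show y * (1 * tht s t 1 x) + 1 * (z * tht s t 1 x) = (y + z) * tht s t 1 x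
    ring
  · exact sym_subdiv a b hab s t y z x

/-- MODULE RGA.  A pendant edge.

Proof.  By `crit` (vertex sets `Option V` and `V`, both nonempty): the current in the new edge is `0` (the net current at
`none`), so the solutions for the new graph are those for `(s, t)` together with `φ none = φ a`; hence
`sym (new) (o ↦ o.elim y x) ≠ 0 ↔ sym s t x ≠ 0`.  The number of zeros is `q` times the number for `(s, t)`
(`(Option E → K) ≃ K × (E → K)`). -/
theorem ns_pend {V E : Type} [Fintype V] [Fintype E] (a : V) (s t : E → V) (F : FinField) :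
    ns (ae none (some ∘ s)) (ae (some a) (some ∘ t)) F = F.q * ns s t F := by
  have key : ∀ y : Option E → F.K,
      sym (ae none (some ∘ s)) (ae (some a) (some ∘ t)) y = sym s t (y ∘ some) := by
    intro y
    simp only [sym_eq_tht]
    rw [RG_pend]
    show (1 : F.K) * tht s t 1 (y ∘ some) = tht s t 1 (y ∘ some)
    rw [one_mul]
  have k1 : Nat.card {y : Option E → F.K // sym (ae none (some ∘ s)) (ae (some a) (some ∘ t)) y = 0} =
      Nat.card (F.K × {x : E → F.K // sym s t x = 0}) := by
    refine Nat.card_congr ⟨fun y => (y.1 none, ⟨y.1 ∘ some, ?_⟩), fun x => ⟨fun o => o.elim x.1 x.2.1, ?_⟩,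
      ?_, ?_⟩
    · rw [← key]
      exact y.2
    · rw [key]
      exact x.2.2
    · intro y
      apply Subtype.ext
      funext o
      rcases o with _ | e <;> rfl
    · rintro ⟨z, x⟩
      rfl
  unfold ns NS
  rw [k1, Nat.card_prod]
  push_cast
  rfl

/-- MODULE RGB.  A vertex of degree `2`, also if both neighbours are equal.

Proof.  By `crit`: the net current at `none` shows that the two new edges carry the same current `i`, and adding
their equations `y * i = φ none - φ b`, `x' * i = φ a - φ none` gives `(x' + y) * i = φ a - φ b`.  So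
`sym (new) (y, x', x) ≠ 0 ↔ sym (ae a s) (ae b t) (x' + y, x) ≠ 0`.  The number of zeros is `q` times the number for
`(ae a s, ae b t)`.  (For `a ≠ b` this is `KGU.ns_subdiv`; compare its proof.) -/
theorem ns_two {V E : Type} [Fintype V] [Fintype E] (a b : V) (s t : E → V) (F : FinField) :
    ns (ae (some a) (ae none (some ∘ s))) (ae none (ae (some b) (some ∘ t))) F =
      F.q * ns (ae a s) (ae b t) F := by
  have k1 : Nat.card {y : Option (Option E) → F.K //
      sym (ae (some a) (ae none (some ∘ s))) (ae none (ae (some b) (some ∘ t))) y = 0} =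
      Nat.card (F.K × {x : Option E → F.K // sym (ae a s) (ae b t) x = 0}) := by
    refine Nat.card_congr ⟨fun y => (y.1 none, ⟨fun o => o.elim (y.1 none + y.1 (some none))
      fun e => y.1 (some (some e)), ?_⟩), fun x => ⟨fun o => o.elim x.1 fun o => o.elim (x.2.1 none - x.1)
        fun e => x.2.1 (some e), ?_⟩, ?_, ?_⟩
    · have h := RG_sub a b s t (y.1 none) (y.1 (some none)) (fun e => y.1 (some (some e)))
      have h2 : (fun o : Option (Option E) => o.elim (y.1 none) fun o =>
          o.elim (y.1 (some none)) fun e => y.1 (some (some e))) = y.1 := by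
        funext o
        rcases o with _ | _ | e <;> rfl
      rw [h2, y.2] at h
      exact h.symm
    · rw [RG_sub a b]
      have h2 : (fun o : Option E => o.elim (x.1 + (x.2.1 none - x.1)) fun e => x.2.1 (some e)) = x.2.1 := by
        funext o
        rcases o with _ | e
        · show x.1 + (x.2.1 none - x.1) = x.2.1 none
          ring
        · rfl
      rw [h2]
      exact x.2.2
    · intro y
      apply Subtype.ext
      funext o
      rcases o with _ | _ | e
      · rfl
      · show y.1 none + y.1 (some none) - y.1 none = y.1 (some none)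
        ring
      · rfl
    · rintro ⟨z, x⟩
      refine Prod.ext rfl ?_
      apply Subtype.ext
      funext o
      rcases o with _ | e
      · show z + (x.1 none - z) = x.1 none
        ring
      · rfl
  unfold ns NS
  rw [k1, Nat.card_prod]
  push_cast
  rfl

private theorem RG_ns {V E V' E' : Type} [Fintype V] [Fintype E] [Fintype V'] [Fintype E'] (f : V' ≃ V)
    (g : E' ≃ E) (s t : E → V) (S T : E' → V')
    (h : ∀ o, (s (g o) = f (S o) ∧ t (g o) = f (T o)) ∨ (s (g o) = f (T o) ∧ t (g o) = f (S o))) :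
    ns s t = ns S T := by
  have h1 : ns (fun o => s (g o)) (fun o => t (g o)) = ns s t :=
    (ns_iso (Equiv.refl V) g (fun o => s (g o)) (fun o => t (g o)) s t (fun o => rfl) (fun o => rfl)).symm
  have h2 : ns (fun o => f (S o)) (fun o => f (T o)) = ns S T :=
    ns_iso f (Equiv.refl E') S T (fun o => f (S o)) (fun o => f (T o)) (fun o => rfl) (fun o => rfl)
  rw [← h1, ← h2]
  exact ns_flip (fun o => f (S o)) (fun o => f (T o)) (fun o => s (g o)) (fun o => t (g o)) h

open Classical in
private theorem RG_deg {V E : Type} [Fintype E] (s t : E → V) (v : V) :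
    deg s t v = ∑ e, ((if s e = v then 1 else 0) + (if t e = v then 1 else 0)) := by
  have h : ∀ f : E → V, {e | f e = v}.ncard = ∑ e, if f e = v then 1 else 0 := by
    intro f
    have h1 : {e | f e = v} = ((Finset.univ.filter fun e => f e = v : Finset E) : Set E) := by
      ext e
      simp
    rw [h1, Set.ncard_coe_finset, Finset.card_filter]
  unfold deg
  rw [h, h, Finset.sum_add_distrib]

private theorem RG_dg {V E V' E' : Type} [Fintype E] [Fintype E'] (f : V' ≃ V)
    (g : E' ≃ E) (s t : E → V) (S T : E' → V')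
    (h : ∀ o, (s (g o) = f (S o) ∧ t (g o) = f (T o)) ∨ (s (g o) = f (T o) ∧ t (g o) = f (S o))) (u : V') :
    deg S T u = deg s t (f u) := by
  classical
  rw [RG_deg, RG_deg, ← Equiv.sum_comp g]
  refine Finset.sum_congr rfl fun o _ => ?_
  rcases h o with ⟨h1, h2⟩ | ⟨h1, h2⟩
  · rw [h1, h2]
    simp only [f.injective.eq_iff]
  · rw [h1, h2]
    simp only [f.injective.eq_iff]
    ring

private theorem RG_at {V E : Type} [Fintype E] (s t : E → V) (h : LL s t) (v : V) :
    {e | s e = v ∨ t e = v}.ncard = deg s t v := by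
  have h1 : {e | s e = v ∨ t e = v} = {e | s e = v} ∪ {e | t e = v} := rfl
  unfold deg
  rw [h1, Set.ncard_union_eq _ (Set.toFinite _) (Set.toFinite _)]
  rw [Set.disjoint_left]
  intro e he he'
  exact h e ((show s e = v from he).trans (show t e = v from he').symm)

/-- MODULE RGC.  Take out a vertex of degree `1`.

Proof.  `V' = {u // u ≠ v}`, `E' = {e // e ≠ e0}` for the only edge `e0` at `v` (no loops); `ns_iso`, `ns_flip` (to turn
`e0` round if necessary), `Equiv.optionSubtypeNe`. -/
theorem exists_pend {V E : Type} [Fintype V] [Fintype E] (s t : E → V) (h : LL s t) (v : V)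
    (hv : deg s t v = 1) : ∃ (V' E' : Type) (_ : Fintype V') (_ : Fintype E') (s' t' : E' → V') (a : V'),
      Fintype.card E' < Fintype.card E ∧ (∀ n, (∀ u, deg s t u ≤ n) → ∀ u, deg s' t' u ≤ n) ∧
      ns s t = ns (ae none (some ∘ s')) (ae (some a) (some ∘ t')) := by
  classical
  have hA := RG_at s t h v
  rw [hv, Set.ncard_eq_one] at hA
  obtain ⟨e0, he0⟩ := hA
  have h0 : s e0 = v ∨ t e0 = v := by
    have : e0 ∈ {e | s e = v ∨ t e = v} := by rw [he0]; rfl
    exact this
  have hne : ∀ e, e ≠ e0 → s e ≠ v ∧ t e ≠ v := by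
    intro e he
    constructor
    · intro hs
      have : e ∈ {e | s e = v ∨ t e = v} := Or.inl hs
      rw [he0] at this
      exact he this
    · intro ht
      have : e ∈ {e | s e = v ∨ t e = v} := Or.inr ht
      rw [he0] at this
      exact he this
  obtain ⟨w, hw, hor⟩ : ∃ w, w ≠ v ∧ ((s e0 = v ∧ t e0 = w) ∨ (s e0 = w ∧ t e0 = v)) := by
    rcases h0 with h0 | h0
    · exact ⟨t e0, fun hc => h e0 (h0.trans hc.symm), Or.inl ⟨h0, rfl⟩⟩
    · exact ⟨s e0, fun hc => h e0 (hc.trans h0.symm), Or.inr ⟨rfl, h0⟩⟩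
  let f : Option {u // u ≠ v} ≃ V := Equiv.optionSubtypeNe v
  let g : Option {e // e ≠ e0} ≃ E := Equiv.optionSubtypeNe e0
  let s' : {e // e ≠ e0} → {u // u ≠ v} := fun e => ⟨s e.1, (hne e.1 e.2).1⟩
  let t' : {e // e ≠ e0} → {u // u ≠ v} := fun e => ⟨t e.1, (hne e.1 e.2).2⟩
  have hf0 : f none = v := Equiv.optionSubtypeNe_none v
  have hf1 : ∀ u, f (some u) = u.1 := fun u => Equiv.optionSubtypeNe_some v u
  have hg0 : g none = e0 := Equiv.optionSubtypeNe_none e0
  have hg1 : ∀ e, g (some e) = e.1 := fun e => Equiv.optionSubtypeNe_some e0 e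
  have key : ∀ o, (s (g o) = f (ae none (some ∘ s') o) ∧ t (g o) = f (ae (some ⟨w, hw⟩) (some ∘ t') o)) ∨
      (s (g o) = f (ae (some ⟨w, hw⟩) (some ∘ t') o) ∧ t (g o) = f (ae none (some ∘ s') o)) := by
    intro o
    rcases o with _ | e
    · show (s (g none) = f none ∧ t (g none) = f (some ⟨w, hw⟩)) ∨
        (s (g none) = f (some ⟨w, hw⟩) ∧ t (g none) = f none)
      rw [hg0, hf0, hf1]
      exact hor
    · left
      show s (g (some e)) = f (some (s' e)) ∧ t (g (some e)) = f (some (t' e))
      rw [hg1, hf1, hf1]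
      exact ⟨rfl, rfl⟩
  refine ⟨{u // u ≠ v}, {e // e ≠ e0}, inferInstance, inferInstance, s', t', ⟨w, hw⟩, ?_, ?_, ?_⟩
  · rw [← Fintype.card_congr g, Fintype.card_option]
    omega
  · intro n hn u
    have h1 := RG_dg f g s t _ _ key (some u)
    have h2 := hn (f (some u))
    have h3 : deg (some ∘ s') (some ∘ t') (some u) = deg s' t' u := KG.deg_some s' t' u
    rw [← h1, KG.deg_ae, h3] at h2
    omega
  · exact RG_ns f g s t _ _ key

/-- MODULE RGD.  Take out a vertex of degree `2`.

Proof.  `V' = {u // u ≠ v}`; there are exactly two edges `e0`, `e1` at `v` (no loops), `E'` is the set of the other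
edges, `a`, `b` are the other ends of `e0`, `e1`; orient them as `a → v` and `v → b` (`ns_iso`, `ns_flip`). -/
theorem exists_two' {V E : Type} [Fintype V] [Fintype E] (s t : E → V) (h : LL s t) (v : V)
    (hv : deg s t v = 2) : ∃ (V' E' : Type) (_ : Fintype V') (_ : Fintype E') (s' t' : E' → V') (a b : V'),
      Fintype.card E' + 1 < Fintype.card E ∧ (∀ n, (∀ u, deg s t u ≤ n) → ∀ u, deg (ae a s') (ae b t') u ≤ n) ∧
      ns s t = ns (ae (some a) (ae none (some ∘ s'))) (ae none (ae (some b) (some ∘ t'))) := by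
  classical
  have hA := RG_at s t h v
  rw [hv, Set.ncard_eq_two] at hA
  obtain ⟨e0, e1, he01, he⟩ := hA
  have h0 : s e0 = v ∨ t e0 = v := by
    have : e0 ∈ {e | s e = v ∨ t e = v} := by rw [he]; exact Or.inl rfl
    exact this
  have h1 : s e1 = v ∨ t e1 = v := by
    have : e1 ∈ {e | s e = v ∨ t e = v} := by rw [he]; exact Or.inr rfl
    exact this
  have hne : ∀ e, e ≠ e0 → e ≠ e1 → s e ≠ v ∧ t e ≠ v := by
    intro e he0 he1
    have hn : e ∉ {e | s e = v ∨ t e = v} := by
      rw [he]
      rintro (hc | hc)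
      · exact he0 hc
      · exact he1 hc
    exact ⟨fun hs => hn (Or.inl hs), fun ht => hn (Or.inr ht)⟩
  have hoth : ∀ e, (s e = v ∨ t e = v) → ∃ w, w ≠ v ∧ ((s e = v ∧ t e = w) ∨ (s e = w ∧ t e = v)) := by
    intro e h0
    rcases h0 with h0 | h0
    · exact ⟨t e, fun hc => h e (h0.trans hc.symm), Or.inl ⟨h0, rfl⟩⟩
    · exact ⟨s e, fun hc => h e (hc.trans h0.symm), Or.inr ⟨rfl, h0⟩⟩
  obtain ⟨w0, hw0, hor0⟩ := hoth e0 h0
  obtain ⟨w1, hw1, hor1⟩ := hoth e1 h1
  let e1' : {e // e ≠ e0} := ⟨e1, he01.symm⟩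
  let f : Option {u // u ≠ v} ≃ V := Equiv.optionSubtypeNe v
  let g : Option (Option {e : {e // e ≠ e0} // e ≠ e1'}) ≃ E :=
    (Equiv.optionCongr (Equiv.optionSubtypeNe e1')).trans (Equiv.optionSubtypeNe e0)
  have hE : ∀ e : {e : {e // e ≠ e0} // e ≠ e1'}, s e.1.1 ≠ v ∧ t e.1.1 ≠ v := fun e =>
    hne e.1.1 e.1.2 fun hc => e.2 (Subtype.ext hc)
  let s' : {e : {e // e ≠ e0} // e ≠ e1'} → {u // u ≠ v} := fun e => ⟨s e.1.1, (hE e).1⟩
  let t' : {e : {e // e ≠ e0} // e ≠ e1'} → {u // u ≠ v} := fun e => ⟨t e.1.1, (hE e).2⟩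
  have hf0 : f none = v := Equiv.optionSubtypeNe_none v
  have hf1 : ∀ u, f (some u) = u.1 := fun u => Equiv.optionSubtypeNe_some v u
  have hg0 : g none = e0 := Equiv.optionSubtypeNe_none e0
  have hg1 : g (some none) = e1 := by
    show Equiv.optionSubtypeNe e0 (some (Equiv.optionSubtypeNe e1' none)) = e1
    rw [Equiv.optionSubtypeNe_none, Equiv.optionSubtypeNe_some]
  have hg2 : ∀ e, g (some (some e)) = e.1.1 := by
    intro e
    show Equiv.optionSubtypeNe e0 (some (Equiv.optionSubtypeNe e1' (some e))) = e.1.1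
    rw [Equiv.optionSubtypeNe_some, Equiv.optionSubtypeNe_some]
  have key : ∀ o, (s (g o) = f (ae (some ⟨w0, hw0⟩) (ae none (some ∘ s')) o) ∧
        t (g o) = f (ae none (ae (some ⟨w1, hw1⟩) (some ∘ t')) o)) ∨
      (s (g o) = f (ae none (ae (some ⟨w1, hw1⟩) (some ∘ t')) o) ∧
        t (g o) = f (ae (some ⟨w0, hw0⟩) (ae none (some ∘ s')) o)) := by
    intro o
    rcases o with _ | _ | e
    · show (s (g none) = f (some ⟨w0, hw0⟩) ∧ t (g none) = f none) ∨
        (s (g none) = f none ∧ t (g none) = f (some ⟨w0, hw0⟩))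
      rw [hg0, hf0, hf1]
      exact hor0.symm
    · show (s (g (some none)) = f none ∧ t (g (some none)) = f (some ⟨w1, hw1⟩)) ∨
        (s (g (some none)) = f (some ⟨w1, hw1⟩) ∧ t (g (some none)) = f none)
      rw [hg1, hf0, hf1]
      exact hor1
    · left
      show s (g (some (some e))) = f (some (s' e)) ∧ t (g (some (some e))) = f (some (t' e))
      rw [hg2, hf1, hf1]
      exact ⟨rfl, rfl⟩
  refine ⟨{u // u ≠ v}, {e : {e // e ≠ e0} // e ≠ e1'}, inferInstance, inferInstance, s', t',
    ⟨w0, hw0⟩, ⟨w1, hw1⟩, ?_, ?_, ?_⟩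
  · rw [← Fintype.card_congr g, Fintype.card_option, Fintype.card_option]
    omega
  · intro n hn u
    have h1 := RG_dg f g s t _ _ key (some u)
    have h2 := hn (f (some u))
    have h3 : deg (some ∘ s') (some ∘ t') (some u) = deg s' t' u := KG.deg_some s' t' u
    rw [← h1, KG.deg_ae, KG.deg_ae, h3] at h2
    rw [KG.deg_ae]
    simp only [Option.some.injEq, reduceCtorEq, if_false, add_zero] at h2
    by_cases h5 : u = ⟨w0, hw0⟩
    · by_cases h6 : u = ⟨w1, hw1⟩
      · rw [if_pos h5, if_pos h6] at h2 ⊢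
        omega
      · rw [if_pos h5, if_neg h6] at h2 ⊢
        omega
    · by_cases h6 : u = ⟨w1, hw1⟩
      · rw [if_neg h5, if_pos h6] at h2 ⊢
        omega
      · rw [if_neg h5, if_neg h6] at h2 ⊢
        omega
  · exact RG_ns f g s t _ _ key

private theorem rge_zero {V E : Type} [Fintype V] [Fintype E] (s t : E → V)
    (hT : ∃ T, IsTree s t T) (v : V) (hv : deg s t v = 0) (F : FinField) : ns s t F = 0 := by
  classical
  obtain ⟨T, -, hT⟩ := hT
  have hv1 : ∀ e, s e ≠ v := by
    intro e he
    unfold deg at hv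
    have h1 : {e | s e = v}.ncard = 0 := by omega
    rw [Set.ncard_eq_zero (Set.toFinite _)] at h1
    have h2 : e ∈ {e | s e = v} := he
    rw [h1] at h2
    exact h2
  have hv2 : ∀ e, t e ≠ v := by
    intro e he
    unfold deg at hv
    have h1 : {e | t e = v}.ncard = 0 := by omega
    rw [Set.ncard_eq_zero (Set.toFinite _)] at h1
    have h2 : e ∈ {e | t e = v} := he
    rw [h1] at h2
    exact h2
  have huv : ∀ u, v = u := by
    intro u
    rcases (hT v u).cases_head with h1 | ⟨b, ⟨e, -, he | he⟩, -⟩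
    · exact h1
    · exact absurd he.1 (hv1 e)
    · exact absurd he.2 (hv2 e)
  have hE : ∀ e : E, False := fun e => hv1 e (huv _).symm
  have : Nonempty V := ⟨v⟩
  have hs : ∀ x : E → F.K, sym s t x ≠ 0 := by
    intro x
    rw [crit]
    intro i φ _ _
    exact ⟨funext fun e => (hE e).elim, φ v, fun u => by rw [huv u]⟩
  have he : IsEmpty {x : E → F.K // sym s t x = 0} := ⟨fun x => hs x.1 x.2⟩
  unfold ns NS
  rw [Nat.card_of_isEmpty]
  rfl

private theorem rge_aux (N : ℕ) : ∀ (V E : Type) [Fintype V] [Fintype E] (s t : E → V),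
    (∀ v, deg s t v ≤ 3) → Fintype.card E = N → Sp Reg3S (ns s t) := by
  classical
  induction N using Nat.strong_induction_on with
  | _ N ih =>
    intro V E _ _ s t h hN
    by_cases hT : ∃ T, IsTree s t T
    swap
    · refine Sp.congr (fun F => ?_) (Sp.pol (Polynomial.X ^ Fintype.card E))
      rw [ns_disc s t hT, Polynomial.eval_pow, Polynomial.eval_X]
    by_cases hl : ∀ e, s e ≠ t e
    swap
    · push Not at hl
      obtain ⟨e0, he0⟩ := hl
      obtain ⟨E', _, s', t', h1, h2, h3, h4⟩ := exists_peel s t e0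
      rw [← he0] at h1 h2
      have h5 : ∀ v, deg s' t' v ≤ 3 := by
        intro v
        have h6 := h2 v
        rw [KG.deg_ae] at h6
        have := h v
        omega
      rw [h1]
      have h7 := ih _ (by omega) V E' s' t' h5 rfl
      refine Sp.congr (fun F => ?_) (Sp.add (Sp.mulp (Polynomial.X - 1) h7)
        (Sp.pol (Polynomial.X ^ Fintype.card E')))
      rw [ns_loop]
      simp only [Polynomial.eval_sub, Polynomial.eval_X, Polynomial.eval_one, Polynomial.eval_pow]
    by_cases h0 : ∃ v, deg s t v = 0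
    · obtain ⟨v, hv⟩ := h0
      exact Sp.congr (fun F => (rge_zero s t hT v hv F).symm) Sp.zero
    by_cases h1 : ∃ v, deg s t v = 1
    · obtain ⟨v, hv⟩ := h1
      obtain ⟨V', E', _, _, s', t', a, hc, hd, hns⟩ := exists_pend s t hl v hv
      have h7 := ih _ (by omega) V' E' s' t' (hd 3 h) rfl
      rw [hns]
      refine Sp.congr (fun F => ?_) (Sp.mulp Polynomial.X h7)
      rw [ns_pend, Polynomial.eval_X]
    by_cases h2 : ∃ v, deg s t v = 2
    · obtain ⟨v, hv⟩ := h2
      obtain ⟨V', E', _, _, s', t', a, b, hc, hd, hns⟩ := exists_two' s t hl v hv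
      have hc' : Fintype.card (Option E') < N := by rw [Fintype.card_option]; omega
      have h7 := ih _ hc' V' (Option E') (ae a s') (ae b t') (hd 3 h) rfl
      rw [hns]
      refine Sp.congr (fun F => ?_) (Sp.mulp Polynomial.X h7)
      rw [ns_two, Polynomial.eval_X]
    have h3 : ∀ v, deg s t v = 3 := by
      intro v
      have := h v
      have k0 : deg s t v ≠ 0 := fun hh => h0 ⟨v, hh⟩
      have k1 : deg s t v ≠ 1 := fun hh => h1 ⟨v, hh⟩
      have k2 : deg s t v ≠ 2 := fun hh => h2 ⟨v, hh⟩
      omega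
    let e := Fintype.equivFin V
    let g := Fintype.equivFin E
    obtain ⟨T, hT⟩ := hT
    refine Sp.base ⟨Fintype.card V, Fintype.card E, e ∘ s ∘ g.symm, e ∘ t ∘ g.symm, ?_, ?_, ?_, ?_⟩
    · intro v
      have := deg_iso e g s t (e ∘ s ∘ g.symm) (e ∘ t ∘ g.symm) (fun i => by simp) (fun i => by simp)
        (e.symm v)
      rw [Equiv.apply_symm_apply] at this
      rw [this]
      exact h3 _
    · intro i hi
      exact hl (g.symm i) (e.injective hi)
    · exact ⟨T.map g.toEmbedding, (isTree_iso e g s t (e ∘ s ∘ g.symm) (e ∘ t ∘ g.symm)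
        (fun i => by simp) (fun i => by simp) T).2 hT⟩
    · exact (ns_iso e g s t (e ∘ s ∘ g.symm) (e ∘ t ∘ g.symm) (fun i => by simp)
        (fun i => by simp)).symm

/-- MODULE RGE.

Proof.  Strong induction on the number of edges.  (i) No spanning tree: `ns_disc`.  (ii) There is a loop `e0`:
`exists_peel` (KGU/LegI; `s e0 = t e0`) and `ns_loop`: `ns s t = (q - 1) * ns s' t' + q ^ _`, the degrees of `(s', t')` are
at most `3`.  (iii) There is a vertex `v` of degree `0` (and a spanning tree, no loops): then `V = {v}` (a path from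
`v` to another vertex would begin with an edge at `v`), so `E` is empty (an edge would be a loop), `sym = 1`, `ns = 0`.
(iv) a vertex of degree `1`: `exists_pend`, `ns_pend`.  (v) a vertex of degree `2`: `exists_two'`, `ns_two`; here
the induction hypothesis is applied to `(ae a s', ae b t')` with one edge less.  (vi) all degrees are `3`:
transport to `Fin n`, `Fin m` (`ns_iso`, `deg_iso`, `isTree_iso`): an element of `Reg3S`. -/
theorem reg_mem {V E : Type} [Fintype V] [Fintype E] (s t : E → V) (h : ∀ v, deg s t v ≤ 3) :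
    Sp Reg3S (ns s t) := rge_aux _ V E s t h rfl

end Pool.Agent.P3
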