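import Pool.Agent.P3.RowB
import Pool.Agent.P3.Pmh

/-!
# The vertex of degree four is a combination of cubic networks
-/

set_option autoImplicit false

open scoped BigOperators

namespace Pool.Agent.P3

open Pool.Agent.KG

theorem qK_eq (F : FinField) : qK F.K = F.q := by
  unfold qK FinField.q
  rw [Nat.card_eq_fintype_card]

theorem Wd.congr {X Y : (F : FinField) → Set (Pt F.K) → ℤ} (hX : Wd X) (h : ∀ F B, X F B = Y F B) : Wd Y := by
  have h' : X = Y := by
    funext F B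
    exact h F B
  exact h' ▸ hX

theorem wd_pat (n : Fin 4 → Fin 2) (hn : Function.Surjective n) :
    Wd fun _ B => G (fun k => if n k = 1 then 1 else 0) 0 B :=
  (Wd.cl n hn).congr fun _ B => Cl_eq_G n hn B

theorem wd_pat13 : Wd fun _ B => G ![1, 0, 1, 0] 0 B := by
  refine (wd_pat ![1, 0, 1, 0] (by decide)).congr fun F B => ?_
  congr 1
  funext k
  fin_cases k <;> rfl

theorem wd_pat0 : Wd fun _ B => G ![1, 0, 0, 0] 0 B := by
  refine (wd_pat ![1, 0, 0, 0] (by decide)).congr fun F B => ?_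
  congr 1
  funext k
  fin_cases k <;> rfl

theorem wd_pat2 : Wd fun _ B => G ![0, 0, 1, 0] 0 B := by
  refine (wd_pat ![0, 0, 1, 0] (by decide)).congr fun F B => ?_
  congr 1
  funext k
  fin_cases k <;> rfl

theorem wd_H2 : Wd fun _ B => H2 B := by
  refine Wd.div (Polynomial.X ^ 2) (Polynomial.monic_X_pow 2) ((Wd.rung wd_pat13).congr fun F B => ?_)
  rw [R_w2, qK_eq, Polynomial.eval_pow, Polynomial.eval_X]

theorem wd_H1 : Wd fun _ B => H1 B :=
  (Wd.perm (Equiv.swap 1 2) wd_H2).congr fun _ B => (H1_eq B).symm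

theorem wd_H3 : Wd fun _ B => H3 B :=
  (Wd.perm (Equiv.swap 2 3) wd_H2).congr fun _ B => (H3_eq B).symm

theorem wd_Ps : Wd fun _ B => Ps B := by
  refine Wd.div Polynomial.X Polynomial.monic_X ?_
  refine (Wd.add (Wd.rung wd_H1) (Wd.mulp (Polynomial.X ^ 2 - Polynomial.X ^ 3) wd_H1)).congr fun F B => ?_
  have h : R (fun B => H1 B) B = R H1 B := rfl
  rw [h, R_H1, qK_eq]
  simp only [Polynomial.eval_sub, Polynomial.eval_pow, Polynomial.eval_X]
  ring

theorem wd_Ps13 : Wd fun _ B => Ps13 B :=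
  (Wd.perm (Equiv.swap 1 2) wd_Ps).congr fun _ B => (Ps13_eq B).symm

theorem wd_Ps01 : Wd fun _ B => Ps01 B :=
  (Wd.perm (Equiv.swap 0 2 * Equiv.swap 1 3) wd_Ps).congr fun _ B => (Ps01_eq B).symm

theorem wd_X13 : Wd fun _ B => X13 B := by
  refine (Wd.add wd_Ps13 (Wd.mulp (1 - Polynomial.X) (Wd.add (Wd.add wd_pat0 wd_pat2) wd_pat13))).congr
    fun F B => ?_
  rw [X13_eq, qK_eq]
  simp only [Polynomial.eval_sub, Polynomial.eval_one, Polynomial.eval_X]
  ring

theorem wd_PI : Wd fun _ B => PI B := by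
  refine Wd.div (Polynomial.X * (Polynomial.X - Polynomial.C 1) * (Polynomial.X - Polynomial.C 2))
    ((Polynomial.monic_X.mul (Polynomial.monic_X_sub_C 1)).mul (Polynomial.monic_X_sub_C 2)) ?_
  refine (Wd.rung wd_X13).congr fun F B => ?_
  have h : R (fun B => X13 B) B = R X13 B := rfl
  rw [h, R_X13, qK_eq]
  simp only [Polynomial.eval_sub, Polynomial.eval_mul, Polynomial.eval_C, Polynomial.eval_X]

theorem wd_C0 : Wd fun _ B => C 0 B := by
  refine Wd.div (Polynomial.X ^ 3 * (Polynomial.X - Polynomial.C 1))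
    ((Polynomial.monic_X_pow 3).mul (Polynomial.monic_X_sub_C 1)) ?_
  have h1 : Wd fun _ B => R H2 B := Wd.rung wd_H2
  have h2 : Wd fun _ B => R (R H2) B := Wd.rung h1
  have h3 : Wd fun _ B => R PI B := Wd.rung wd_PI
  have h4 : Wd fun _ B => R H1 B := Wd.rung wd_H1
  have h5 : Wd fun _ B => R H3 B := Wd.rung wd_H3
  have h6 : Wd fun _ B => R Ps01 B := Wd.rung wd_Ps01
  have a1 := Wd.add h2 (Wd.mulp (-(Polynomial.X ^ 2 - 3 * Polynomial.X + 4)) h3)
  have a2 := Wd.add a1 (Wd.mulp (-(Polynomial.X ^ 2 - 2 * Polynomial.X)) (Wd.add h4 h1))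
  have a3 := Wd.add a2 (Wd.mulp Polynomial.X h5)
  have a4 := Wd.add a3 (Wd.mulp (-(Polynomial.X ^ 2 * (Polynomial.X - 1) ^ 2 +
    Polynomial.X ^ 3 * (Polynomial.X - 1))) wd_H1)
  have a5 := Wd.add a4 (Wd.mulp (-(Polynomial.X ^ 2)) wd_Ps)
  have a6 := Wd.add a5 (Wd.mulp (-(Polynomial.X * (Polynomial.X - 1) * (Polynomial.X - 2) *
    (Polynomial.X + 1) + Polynomial.X ^ 2)) wd_PI)
  have a7 := Wd.add a6 (Wd.mulp (-(Polynomial.X ^ 2 * (Polynomial.X - 1))) wd_H2)
  have a8 := Wd.add a7 (Wd.mulp (Polynomial.X ^ 2) wd_H3)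
  have a9 := Wd.add a8 (Wd.mulp (-1) h6)
  refine a9.congr fun F B => ?_
  have h0 : (0 : Matrix (Fin 4) (Fin 4) F.K) = mt 0 0 := by
    ext i j
    fin_cases i <;> fin_cases j <;> simp [mt]
  have hC : C 0 B = cf 0 0 B := by
    unfold cf
    rw [← h0]
  have hm := main_identity B
  rw [qK_eq] at hm
  rw [hC]
  simp only [Polynomial.eval_sub, Polynomial.eval_mul, Polynomial.eval_C, Polynomial.eval_X,
    Polynomial.eval_pow, Polynomial.eval_neg, Polynomial.eval_add, Polynomial.eval_one,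
    Polynomial.eval_ofNat]
  linear_combination -hm

end Pool.Agent.P3
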