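import Pool.Agent.P3.Ind
import Pool.Agent.P3.Word
import Pool.Agent.P3.Reg

/-!
# Reduction of all graphs of degree at most four to 3-regular graphs
-/

set_option autoImplicit false

open scoped BigOperators

namespace Pool.Agent.P3

open Pool.Agent.KG Pool.Agent.KGU

theorem gm_step (m : ℕ) {f : FinField → ℤ} (hf : f ∈ Gm (m + 1)) : Sp (Gm m) f := by
  classical
  obtain ⟨V, E, _, _, s, t, hl, hd, hc, rfl⟩ := hf
  by_cases h4 : {v | deg s t v = 4}.ncard ≤ m
  · exact Sp.base ⟨V, E, inferInstance, inferInstance, s, t, hl, hd, h4, rfl⟩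
  · have hne : {v | deg s t v = 4}.Nonempty := by
      by_contra h
      rw [Set.not_nonempty_iff_eq_empty] at h
      rw [h, Set.ncard_empty] at h4
      exact h4 (Nat.zero_le _)
    obtain ⟨v, hv⟩ := hne
    obtain ⟨V', E', _, _, s', t', a, f, hl', hfv, hpd, hns⟩ := exists_ports s t hl v hv
    have hsurj : Function.Surjective fun _ : Fin 4 => (0 : Fin 1) := fun w => ⟨0, (Subsingleton.elim _ _)⟩
    have h1 := ns_clo s' t' a (fun _ => (0 : Fin 1)) hsurj
    have h2 : Wd fun _ B => Cl (fun _ => (0 : Fin 1)) B := wd_C0.congr fun _ B => (Cl_eq_C B).symm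
    have h5 : {v | deg s t v = 4} = insert v ((fun u => f (Sum.inl u)) '' {u | pd s' t' a u = 4}) := by
      ext u
      simp only [Set.mem_ofPred_eq, Set.mem_insert_iff, Set.mem_image]
      constructor
      · intro hu
        obtain ⟨u', rfl⟩ := f.surjective u
        rcases u' with u' | u'
        · exact Or.inr ⟨u', (hpd u').trans hu, rfl⟩
        · left
          rw [← hfv, Subsingleton.elim u' 0]
      · rintro (rfl | ⟨u', hu', rfl⟩)
        · exact hv
        · rw [← hpd]
          exact hu'
    have h6 : v ∉ (fun u => f (Sum.inl u)) '' {u | pd s' t' a u = 4} := by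
      rintro ⟨u, _, hu⟩
      have : (Sum.inl u : V' ⊕ Fin 1) = Sum.inr 0 := f.injective (hu.trans hfv.symm)
      exact Sum.inl_ne_inr this
    have h7 : {v | deg s t v = 4}.ncard = {u | pd s' t' a u = 4}.ncard + 1 := by
      rw [h5, Set.ncard_insert_of_notMem h6, Set.ncard_image_of_injective]
      exact f.injective.comp Sum.inl_injective
    have h3 := wd_mem h2 s' t' a m hl' (fun u => (hpd u).symm ▸ hd _) (by omega)
    rw [hns]
    refine Sp.congr (fun F => ?_) (Sp.sub (Sp.pol (Polynomial.X ^ (Fintype.card E' + 4))) h3)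
    rw [h1 F, Polynomial.eval_pow, Polynomial.eval_X]

theorem gm_all (m : ℕ) : ∀ {f : FinField → ℤ}, f ∈ Gm m → Sp (Gm 0) f := by
  induction m with
  | zero => exact fun hf => Sp.base hf
  | succ m ih => exact fun hf => Sp.mono (fun g hg => ih hg) (gm_step m hf)

theorem reg_of_gm {f : FinField → ℤ} (hf : f ∈ Gm 0) : Sp Reg3S f := by
  obtain ⟨V, E, _, _, s, t, hl, hd, hc, rfl⟩ := hf
  refine reg_mem s t fun v => ?_
  have h1 : {v | deg s t v = 4} = ∅ := by
    rw [← Set.ncard_eq_zero (Set.toFinite _)]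
    omega
  have h2 : deg s t v ≠ 4 := fun h => by
    have : v ∈ {v | deg s t v = 4} := h
    rw [h1] at this
    exact this
  have := hd v
  omega

private theorem phi4_aux (N : ℕ) : ∀ (V E : Type) [Fintype V] [Fintype E] (s t : E → V),
    (∀ v, deg s t v ≤ 4) → Fintype.card E = N → Sp (Gm 0) (ns s t) := by
  classical
  induction N using Nat.strong_induction_on with
  | _ N ih =>
    intro V E _ _ s t h hN
    by_cases hl : ∀ e, s e ≠ t e
    · exact gm_all _ ⟨V, E, inferInstance, inferInstance, s, t, hl, h, le_rfl, rfl⟩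
    · push Not at hl
      obtain ⟨e0, he0⟩ := hl
      obtain ⟨E', _, s', t', h1, h2, h3, h4⟩ := exists_peel s t e0
      rw [← he0] at h1 h2
      have h5 : ∀ v, deg s' t' v ≤ 4 := by
        intro v
        have h6 := h2 v
        rw [KG.deg_ae] at h6
        have := h v
        omega
      rw [h1]
      have h7 := ih _ (by omega) V E' s' t' h5 rfl
      refine Sp.congr (fun F => ?_) (Sp.add (Sp.mulp (Polynomial.X - 1) h7)
        (Sp.pol (Polynomial.X ^ Fintype.card E')))
      rw [ns_loop]
      simp only [Polynomial.eval_sub, Polynomial.eval_X, Polynomial.eval_one, Polynomial.eval_pow]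

theorem reg_of_phi4 {f : FinField → ℤ} (hf : Sp Phi4 f) : Sp Reg3S f := by
  refine Sp.mono ?_ hf
  rintro g ⟨n, m, s, t, h, rfl⟩
  exact Sp.mono (fun g hg => reg_of_gm hg) (phi4_aux _ (Fin n) (Fin m) s t h rfl)

end Pool.Agent.P3
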