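import Pool.Agent.P3.Mst
import Pool.Agent.P3.Gsh
import Pool.Agent.P3.Cnt

/-!
# The operation `R` on the simplest functionals
-/

set_option autoImplicit false

open scoped BigOperators

namespace Pool.Agent.P3

open Pool.Agent.KG

variable {K : Type} [Field K] [Fintype K]

omit [Fintype K] in
private theorem ROA_mt : mt (0 : K) 0 = 0 := by
  ext i j
  fin_cases i <;> fin_cases j <;> simp [mt]

omit [Fintype K] in
private theorem ROA_gv (β y0 y1 : K) : gv (mt 0 β) y0 y1 = ![y0, -y1, 0, 0] := by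
  funext k
  fin_cases k <;> simp [gv, mt, vv, Matrix.mulVec, dotProduct, Fin.sum_univ_four]

omit [Fintype K] in
private theorem ROA_gv0 (y0 y1 : K) :
    gv (0 : Matrix (Fin 4) (Fin 4) K) y0 y1 = ![y0, -y1, 0, 0] := by
  rw [← ROA_mt]
  exact ROA_gv 0 y0 y1

private theorem ROA_const (c : ℤ) : ∑ _x : K, c = qK K * c := by
  rw [Finset.sum_const, Finset.card_univ, nsmul_eq_mul]

open Classical in
private theorem ROA_R (β : K) (B : Set (Pt K)) :
    R (cf 0 β) B = ∑ y0 : K, ∑ y1 : K, G ![y0, -y1, 0, 0] (mt 0 β) B +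
      ∑ y0 : K, ∑ y1 : K, ∑ S : K, (if S = 0 then 0 else cf 0 (β + y0 * y1 * S⁻¹) B) := by
  have h1 := R_C (mt 0 β) (mt_symm 0 β) B
  change R (cf 0 β) B = _ at h1
  rw [h1, ← Finset.sum_add_distrib]
  refine Finset.sum_congr rfl fun y0 _ => ?_
  rw [← Finset.sum_add_distrib]
  refine Finset.sum_congr rfl fun y1 _ => ?_
  rw [ROA_gv, al_mt, be_mt]
  congr 1
  refine Finset.sum_congr rfl fun S _ => ?_
  by_cases hS : S = 0
  · rw [if_pos hS, if_pos hS]
  · rw [if_neg hS, if_neg hS]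
    congr 1
    · simp
    · simp
      ring

private theorem ROA_Ps (B : Set (Pt K)) :
    ∑ y0 : K, ∑ y1 : K, G ![y0, -y1, 0, 0] 0 B = Ps B := by
  unfold Ps
  refine Finset.sum_congr rfl fun y0 _ => ?_
  exact Fintype.sum_equiv (Equiv.neg K) _ _ fun _ => rfl

/-- MODULE ROA (1).

Proof.  `R_C` for `Q = mt 0 0`, `cf 0 0 = C (mt 0 0)` (definition), `mt 0 0 = 0`.  Here `gv 0 y0 y1 = ![y0, -y1, 0, 0]`, both
invariants of `0` vanish, the first argument of `cf` is `0` and the second is `S⁻¹ * (y0 * y1)`.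
`cnt2` for `f κ = cf 0 κ B`, and `∑ y0, ∑ y1, G ![y0, -y1, 0, 0] 0 B = Ps B` (`y1 ↦ -y1`). -/
theorem R_c00 (B : Set (Pt K)) :
    R (cf 0 0) B = qK K * (qK K - 1) * cf 0 0 B + (qK K - 1) ^ 2 * H1 B + Ps B := by
  classical
  rw [ROA_R, ROA_mt, ROA_Ps]
  have h1 := cnt2 (fun κ => cf 0 κ B)
  simp only [zero_add]
  rw [h1]
  unfold H1
  ring

/-- MODULE ROA (2).  `G ![a, b, 0, 0] (mt 0 r) = G ![a, b, 0, 0] 0`.

Proof.  If `a = b = 0`, both are `0` (`G_const`).  Otherwise choose `u 0`, `u 1` with `a * u 1 + b * u 0 = r`, `u 2 =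
u 3 = 0`, and use `G_shift` with `φ' = φ`, `c = 0`, `w = ![0, 0, r, r]`, `w' = ![-r, -r, 0, 0]`, `u' = u` and suitable `d`
(off the diagonal: `(0,1)`: `0 - r + (a u 1 + b u 0) = 0`; `(1,0)`: the same; `(k, l)` with `k < 2 ≤ l`: `r - r = 0`;
`(l, k)`: `0 + 0 = 0`; `(2,3)` and `(3,2)`: `r + 0 = r`). -/
theorem G_ab (a b r : K) (B : Set (Pt K)) : G ![a, b, 0, 0] (mt 0 r) B = G ![a, b, 0, 0] 0 B := by
  by_cases h0 : a = 0 ∧ b = 0
  · rw [G_const, G_const]
    · refine ⟨0, fun k => ?_⟩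
      rw [h0.1, h0.2]
      fin_cases k <;> rfl
    · refine ⟨0, fun k => ?_⟩
      rw [h0.1, h0.2]
      fin_cases k <;> rfl
  · obtain ⟨u0, u1, hu⟩ : ∃ u0 u1 : K, a * u1 + b * u0 = r := by
      by_cases ha : a = 0
      · have hb : b ≠ 0 := fun hb => h0 ⟨ha, hb⟩
        refine ⟨b⁻¹ * r, 0, ?_⟩
        rw [mul_zero, zero_add, mul_inv_cancel_left₀ hb]
      · refine ⟨0, a⁻¹ * r, ?_⟩
        rw [mul_zero, add_zero, mul_inv_cancel_left₀ ha]
    refine G_shift ![a, b, 0, 0] ![a, b, 0, 0] 0 (fun k => (add_zero _).symm) 0 (mt 0 r)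
      ![r - 2 * (a * u0), r - 2 * (b * u1), -r, -r] ![0, 0, r, r] ![-r, -r, 0, 0]
      ![u0, u1, 0, 0] ![u0, u1, 0, 0] (fun k l => ?_) B
    fin_cases k <;> fin_cases l <;> simp [mt] <;>
      first
        | ring1
        | linear_combination -hu
        | linear_combination hu

/-- MODULE ROB.

Proof.  `R H1 B = ∑ r, R (cf 0 r) B` (`R_sum`), `R_C` with `Q = mt 0 r`: `gv Q y0 y1 = ![y0, -y1, 0, 0]`, the arguments of
`cf` are `0` and `r + S⁻¹ * (y0 * y1)`; for fixed `y0`, `y1`, `S ≠ 0` the sum over `r` is `H1 B` (translation): together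
`q² (q - 1) H1 B`.  The other part is `∑ r, ∑ y0, ∑ y1, G ![y0, -y1, 0, 0] (mt 0 r) B = q * Ps B` by `G_ab`. -/
theorem R_H1 (B : Set (Pt K)) : R H1 B = (qK K ^ 3 - qK K ^ 2) * H1 B + qK K * Ps B := by
  classical
  have h1 : R H1 B = ∑ r : K, R (cf 0 r) B := R_sum Finset.univ (fun r : K => cf 0 r) B
  rw [h1]
  simp only [ROA_R, G_ab, ROA_Ps, Finset.sum_add_distrib, ROA_const]
  have h2 : ∑ r : K, ∑ y0 : K, ∑ y1 : K, ∑ S : K,
      (if S = 0 then 0 else cf 0 (r + y0 * y1 * S⁻¹) B) =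
      ∑ y0 : K, ∑ y1 : K, ∑ S : K, (if S = 0 then 0 else H1 B) := by
    rw [Finset.sum_comm]
    refine Finset.sum_congr rfl fun y0 _ => ?_
    rw [Finset.sum_comm]
    refine Finset.sum_congr rfl fun y1 _ => ?_
    rw [Finset.sum_comm]
    refine Finset.sum_congr rfl fun S _ => ?_
    by_cases hS : S = 0
    · simp only [if_pos hS, Finset.sum_const_zero]
    · simp only [if_neg hS]
      exact Fintype.sum_equiv (Equiv.addRight (y0 * y1 * S⁻¹)) _ _ fun _ => rfl
  have h3 : ∑ S : K, (if S = 0 then 0 else H1 B) = (qK K - 1) * H1 B := by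
    have h4 : ∀ S : K, (if S = 0 then 0 else H1 B) = H1 B - if S = 0 then H1 B else 0 := by
      intro S
      split_ifs
      · rw [sub_self]
      · rw [sub_zero]
    rw [Finset.sum_congr rfl fun S _ => h4 S, Finset.sum_sub_distrib, ROA_const,
      Finset.sum_ite_eq', if_pos (Finset.mem_univ _)]
    ring
  rw [h2]
  simp only [h3, ROA_const]
  ring

/-- MODULE ROC (1).

Proof.  `R_G` with `φ = ![1, 0, 1, 0]`, `Q = 0`, `gv 0 y0 y1 = ![y0, -y1, 0, 0]`: the arguments of `cf` are `-(y0 + y1) + s`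
and `(y0 + y1) - s`.  For fixed `y0`, `y1` substitute `s ↦ r = s - (y0 + y1)`. -/
theorem R_w2 (B : Set (Pt K)) : R (G ![1, 0, 1, 0] 0) B = qK K ^ 2 * H2 B := by
  have h0 : ((![1, 0, 1, 0] : Fin 4 → K) 0 - (![1, 0, 1, 0] : Fin 4 → K) 1) ≠ 0 := by
    simp
  rw [R_G _ _ (Matrix.isSymm_zero) h0 B]
  have h1 : ∀ y0 y1 : K, ∑ s : K,
      cf (al 0 - ((![1, 0, 1, 0] : Fin 4 → K) 0 - (![1, 0, 1, 0] : Fin 4 → K) 1)⁻¹ *
          ((gv 0 y0 y1 0 - gv 0 y0 y1 1) *
            ((![1, 0, 1, 0] : Fin 4 → K) 2 - (![1, 0, 1, 0] : Fin 4 → K) 3) +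
          ((![1, 0, 1, 0] : Fin 4 → K) 0 - (![1, 0, 1, 0] : Fin 4 → K) 1) *
            (gv 0 y0 y1 2 - gv 0 y0 y1 3)) +
          s * (((![1, 0, 1, 0] : Fin 4 → K) 0 - (![1, 0, 1, 0] : Fin 4 → K) 1) *
            ((![1, 0, 1, 0] : Fin 4 → K) 2 - (![1, 0, 1, 0] : Fin 4 → K) 3)))
        (be 0 - ((![1, 0, 1, 0] : Fin 4 → K) 0 - (![1, 0, 1, 0] : Fin 4 → K) 1)⁻¹ *
          ((gv 0 y0 y1 0 - gv 0 y0 y1 3) *
            ((![1, 0, 1, 0] : Fin 4 → K) 1 - (![1, 0, 1, 0] : Fin 4 → K) 2) +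
          ((![1, 0, 1, 0] : Fin 4 → K) 0 - (![1, 0, 1, 0] : Fin 4 → K) 3) *
            (gv 0 y0 y1 1 - gv 0 y0 y1 2)) +
          s * (((![1, 0, 1, 0] : Fin 4 → K) 0 - (![1, 0, 1, 0] : Fin 4 → K) 3) *
            ((![1, 0, 1, 0] : Fin 4 → K) 1 - (![1, 0, 1, 0] : Fin 4 → K) 2))) B = H2 B := by
    intro y0 y1
    unfold H2
    refine Fintype.sum_equiv (Equiv.addRight (-(y0 + y1))) _ _ fun s => ?_
    rw [ROA_gv0, Equiv.coe_addRight]
    congr 1
    · simp [al]
      ring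
    · simp [be]
      ring
  rw [Finset.sum_congr rfl fun y0 _ => Finset.sum_congr rfl fun y1 _ => h1 y0 y1]
  rw [ROA_const, ROA_const]
  ring

open Classical in
/-- The part of `Ps13` with `a`, `b`, `a - b` all nonzero. -/
noncomputable def X13 (B : Set (Pt K)) : ℤ :=
  ∑ a : K, ∑ b : K, if a ≠ 0 ∧ b ≠ 0 ∧ a ≠ b then G ![a, 0, b, 0] 0 B else 0

/-- MODULE ROC (2).

Proof.  Split the double sum `Ps13` into `a = b = 0` (value `0`, `G_const`), `a ≠ 0 = b`, `a = 0 ≠ b`, `a = b ≠ 0` and the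
rest; `G_smul`. -/
theorem X13_eq (B : Set (Pt K)) :
    X13 B = Ps13 B - (qK K - 1) * (G ![1, 0, 0, 0] 0 B + G ![0, 0, 1, 0] 0 B + G ![1, 0, 1, 0] 0 B) := by
  classical
  have hc : G (![0, 0, 0, 0] : Fin 4 → K) 0 B = 0 := by
    refine G_const _ ⟨0, fun k => ?_⟩ 0 B
    fin_cases k <;> rfl
  have h1 : ∀ a b : K, (if a ≠ 0 ∧ b ≠ 0 ∧ a ≠ b then G ![a, 0, b, 0] 0 B else 0) =
      G ![a, 0, b, 0] 0 B - (if b = 0 then (if a = 0 then 0 else G ![1, 0, 0, 0] 0 B) else 0) -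
      (if a = 0 then (if b = 0 then 0 else G ![0, 0, 1, 0] 0 B) else 0) -
      (if b = a then (if a = 0 then 0 else G ![1, 0, 1, 0] 0 B) else 0) := by
    intro a b
    by_cases ha : a = 0
    · rw [if_neg (fun h => h.1 ha)]
      simp only [if_pos ha]
      by_cases hb : b = 0
      · simp only [if_pos hb, if_pos (hb.trans ha.symm)]
        rw [ha, hb, hc]
        ring
      · have hba : ¬ b = a := fun h => hb (h.trans ha)
        have h2 : G (![0, 0, b, 0] : Fin 4 → K) 0 B = G ![0, 0, 1, 0] 0 B :=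
          G_smul b hb ![0, 0, 1, 0] ![0, 0, b, 0] (fun k => by fin_cases k <;> simp) 0 B
        simp only [if_neg hb, if_neg hba]
        rw [ha, h2]
        ring
    · simp only [if_neg ha]
      by_cases hb : b = 0
      · have hba : ¬ b = a := fun h => ha (h.symm.trans hb)
        have h2 : G (![a, 0, 0, 0] : Fin 4 → K) 0 B = G ![1, 0, 0, 0] 0 B :=
          G_smul a ha ![1, 0, 0, 0] ![a, 0, 0, 0] (fun k => by fin_cases k <;> simp) 0 B
        rw [if_neg (fun h => h.2.1 hb)]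
        simp only [if_pos hb, if_neg hba]
        rw [hb, h2]
        ring
      · simp only [if_neg hb]
        by_cases hab : b = a
        · have h2 : G (![a, 0, a, 0] : Fin 4 → K) 0 B = G ![1, 0, 1, 0] 0 B :=
            G_smul a ha ![1, 0, 1, 0] ![a, 0, a, 0] (fun k => by fin_cases k <;> simp) 0 B
          rw [if_neg (fun h => h.2.2 hab.symm), if_pos hab, hab, h2]
          ring
        · rw [if_pos ⟨ha, hb, fun h => hab h.symm⟩, if_neg hab]
          ring
  have h0 : ∀ A : ℤ, ∑ S : K, (if S = 0 then 0 else A) = (qK K - 1) * A := by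
    intro A
    have h4 : ∀ S : K, (if S = 0 then 0 else A) = A - if S = 0 then A else 0 := by
      intro S
      split_ifs
      · rw [sub_self]
      · rw [sub_zero]
    rw [Finset.sum_congr rfl fun S _ => h4 S, Finset.sum_sub_distrib, ROA_const,
      Finset.sum_ite_eq', if_pos (Finset.mem_univ _)]
    ring
  have h2 : ∀ A : ℤ, ∑ a : K, ∑ b : K, (if b = 0 then (if a = 0 then 0 else A) else 0) =
      (qK K - 1) * A := by
    intro A
    rw [← h0]
    refine Finset.sum_congr rfl fun a _ => ?_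
    rw [Finset.sum_ite_eq', if_pos (Finset.mem_univ _)]
  have h3 : ∀ A : ℤ, ∑ a : K, ∑ b : K, (if a = 0 then (if b = 0 then 0 else A) else 0) =
      (qK K - 1) * A := by
    intro A
    rw [Finset.sum_comm]
    exact h2 A
  have h4 : ∀ A : ℤ, ∑ a : K, ∑ b : K, (if b = a then (if a = 0 then 0 else A) else 0) =
      (qK K - 1) * A := by
    intro A
    rw [← h0]
    refine Finset.sum_congr rfl fun a _ => ?_
    rw [Finset.sum_ite_eq', if_pos (Finset.mem_univ _)]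
  unfold X13
  rw [Finset.sum_congr rfl fun a _ => Finset.sum_congr rfl fun b _ => h1 a b]
  simp only [Finset.sum_sub_distrib]
  rw [h2, h3, h4]
  unfold Ps13
  ring

/-- MODULE ROD.

Proof.  `R X13 B = ∑ a, ∑ b, if .. then R (G ![a, 0, b, 0] 0) B else 0`.  For `a, b ≠ 0`, `a ≠ b`: `R_G` with `φ = ![a, 0, b, 0]`,
`Q = 0`, `gv 0 y0 y1 = ![y0, -y1, 0, 0]`, the arguments of `cf` are `-(b / a) (y0 + y1) + a b s` and `(b / a) y0 + y1 -
a b s`.  `lin2` with the minor `-(b/a) * 1 + (b/a) * (b/a) = (b / a) (b / a - 1) ≠ 0` of `y0`, `y1` gives `q * PI B`.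
There are `(q - 1) (q - 2)` pairs `(a, b)`. -/
theorem R_X13 (B : Set (Pt K)) : R X13 B = qK K * (qK K - 1) * (qK K - 2) * PI B := by
  classical
  have h1 : R X13 B = ∑ a : K, ∑ b : K,
      if a ≠ 0 ∧ b ≠ 0 ∧ a ≠ b then R (G ![a, 0, b, 0] 0) B else 0 := by
    have h2 : R X13 B = ∑ a : K, R (fun B => ∑ b : K,
        if a ≠ 0 ∧ b ≠ 0 ∧ a ≠ b then G ![a, 0, b, 0] 0 B else 0) B :=
      R_sum Finset.univ (fun a : K => fun B => ∑ b : K,
        if a ≠ 0 ∧ b ≠ 0 ∧ a ≠ b then G ![a, 0, b, 0] 0 B else 0) B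
    rw [h2]
    refine Finset.sum_congr rfl fun a _ => ?_
    rw [R_sum Finset.univ (fun b : K => fun B =>
        if a ≠ 0 ∧ b ≠ 0 ∧ a ≠ b then G ![a, 0, b, 0] 0 B else 0) B]
    refine Finset.sum_congr rfl fun b _ => ?_
    by_cases h : a ≠ 0 ∧ b ≠ 0 ∧ a ≠ b
    · simp only [if_pos h]
    · simp only [if_neg h, R, Finset.sum_const_zero]
  have h2 : ∀ a b : K, (a ≠ 0 ∧ b ≠ 0 ∧ a ≠ b) → R (G ![a, 0, b, 0] 0) B = qK K * PI B := by
    rintro a b ⟨ha, hb, hab⟩
    have h0 : ((![a, 0, b, 0] : Fin 4 → K) 0 - (![a, 0, b, 0] : Fin 4 → K) 1) ≠ 0 := by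
      simpa using ha
    rw [R_G _ _ (Matrix.isSymm_zero) h0 B]
    have h3 := lin2 (fun α β => cf α β B) 0 (-(b * a⁻¹)) (-(b * a⁻¹)) (a * b) 0 (b * a⁻¹) 1
      (-(a * b)) (Or.inl (by
        have h4 : -(b * a⁻¹) * 1 - -(b * a⁻¹) * (b * a⁻¹) = (b * a⁻¹) * ((b - a) * a⁻¹) := by
          field_simp
          ring
        rw [h4]
        exact mul_ne_zero (mul_ne_zero hb (inv_ne_zero ha))
          (mul_ne_zero (sub_ne_zero.2 hab.symm) (inv_ne_zero ha))))
    unfold PI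
    rw [← h3]
    refine Finset.sum_congr rfl fun y0 _ => Finset.sum_congr rfl fun y1 _ =>
      Finset.sum_congr rfl fun s _ => ?_
    rw [ROA_gv0]
    congr 1
    · simp [al]
      field_simp
      ring
    · simp [be]
      field_simp
      ring
  have h3 : ∀ a b : K, (if a ≠ 0 ∧ b ≠ 0 ∧ a ≠ b then R (G ![a, 0, b, 0] 0) B else 0) =
      qK K * PI B - (if b = 0 then qK K * PI B else 0) - (if b = a then qK K * PI B else 0) -
        (if a = 0 then qK K * PI B - 2 * (if b = 0 then qK K * PI B else 0) else 0) := by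
    intro a b
    by_cases ha : a = 0
    · rw [if_neg (fun h => h.1 ha), if_pos ha, ha]
      ring
    · rw [if_neg ha]
      by_cases hb : b = 0
      · have hba : ¬ b = a := fun h => ha (h.symm.trans hb)
        rw [if_neg (fun h => h.2.1 hb), if_pos hb, if_neg hba]
        ring
      · rw [if_neg hb]
        by_cases hab : b = a
        · rw [if_neg (fun h => h.2.2 hab.symm), if_pos hab]
          ring
        · rw [if_pos ⟨ha, hb, fun h => hab h.symm⟩, if_neg hab,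
            h2 a b ⟨ha, hb, fun h => hab h.symm⟩]
          ring
  rw [h1, Finset.sum_congr rfl fun a _ => Finset.sum_congr rfl fun b _ => h3 a b]
  have h4 : ∑ a : K, ∑ b : K, (if a = 0 then qK K * PI B -
      2 * (if b = 0 then qK K * PI B else 0) else 0) =
      qK K * (qK K * PI B) - 2 * (qK K * PI B) := by
    rw [Finset.sum_eq_single (0 : K)]
    · simp only [if_true, Finset.sum_sub_distrib, ROA_const, ← Finset.mul_sum,
        Finset.sum_ite_eq', Finset.mem_univ]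
    · intro a _ ha
      simp only [if_neg ha, Finset.sum_const_zero]
    · intro h5
      exact absurd (Finset.mem_univ _) h5
  simp only [Finset.sum_sub_distrib, Finset.sum_ite_eq', Finset.mem_univ, if_true, ROA_const] at h4 ⊢
  rw [h4]
  ring

end Pool.Agent.P3
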