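import Pool.Agent.P3.RowA

/-!
# The operation `R` on `H2` and on the degenerate part
-/

set_option autoImplicit false

open scoped BigOperators

namespace Pool.Agent.P3

open Pool.Agent.KG

variable {K : Type} [Field K] [Fintype K]

omit [Fintype K] in
private theorem RO_gv (r y0 y1 : K) : gv (mt r (-r)) y0 y1 = ![y0, -y1, 0, -r] := by
  funext k
  fin_cases k <;> simp [gv, mt, vv, Matrix.mulVec, dotProduct, Fin.sum_univ_four]

open Classical in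
private theorem ROE_R (r : K) (B : Set (Pt K)) :
    R (cf r (-r)) B = ∑ y0 : K, ∑ y1 : K, G ![y0, -y1, 0, -r] (mt r (-r)) B +
      ∑ y0 : K, ∑ y1 : K, ∑ S : K, (if S = 0 then 0 else
        cf (r - S⁻¹ * (y0 + y1) * r) (-r + S⁻¹ * ((y0 + r) * y1)) B) := by
  have h1 := R_C (mt r (-r)) (mt_symm r (-r)) B
  change R (cf r (-r)) B = _ at h1
  rw [h1, ← Finset.sum_add_distrib]
  refine Finset.sum_congr rfl fun y0 _ => ?_
  rw [← Finset.sum_add_distrib]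
  refine Finset.sum_congr rfl fun y1 _ => ?_
  rw [RO_gv, al_mt, be_mt]
  refine congrArg₂ (· + ·) rfl ?_
  refine Finset.sum_congr rfl fun S _ => ?_
  by_cases hS : S = 0
  · rw [if_pos hS, if_pos hS]
  · rw [if_neg hS, if_neg hS]
    have e1 : r - S⁻¹ * (((![y0, -y1, 0, -r] : Fin 4 → K) 0 - (![y0, -y1, 0, -r] : Fin 4 → K) 1) *
        ((![y0, -y1, 0, -r] : Fin 4 → K) 2 - (![y0, -y1, 0, -r] : Fin 4 → K) 3)) =
        r - S⁻¹ * (y0 + y1) * r := by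
      show r - S⁻¹ * ((y0 - -y1) * (0 - -r)) = _
      ring
    have e2 : -r - S⁻¹ * (((![y0, -y1, 0, -r] : Fin 4 → K) 0 - (![y0, -y1, 0, -r] : Fin 4 → K) 3) *
        ((![y0, -y1, 0, -r] : Fin 4 → K) 1 - (![y0, -y1, 0, -r] : Fin 4 → K) 2)) =
        -r + S⁻¹ * ((y0 + r) * y1) := by
      show -r - S⁻¹ * ((y0 - -r) * (-y1 - 0)) = _
      ring
    rw [e1, e2]

open Classical in
private theorem ROE_sub (f : K → K → ℤ) (r : K) :
    ∑ y0 : K, ∑ y1 : K, ∑ S : K, (if S = 0 then 0 else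
        f (r - S⁻¹ * (y0 + y1) * r) (-r + S⁻¹ * ((y0 + r) * y1))) =
      ∑ x : K, ∑ y0 : K, ∑ y' : K, (if x + r + y0 + y' = 0 then 0 else
        f (x * r * (x + r + y0 + y')⁻¹)
          (y0 * y' * (x + r + y0 + y')⁻¹ - x * r * (x + r + y0 + y')⁻¹)) := by
  rw [Finset.sum_comm (γ := K) (f := fun x y0 => ∑ y' : K, (if x + r + y0 + y' = 0 then 0 else
        f (x * r * (x + r + y0 + y')⁻¹)
          (y0 * y' * (x + r + y0 + y')⁻¹ - x * r * (x + r + y0 + y')⁻¹)))]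
  refine Finset.sum_congr rfl fun y0 _ => ?_
  rw [Finset.sum_comm (γ := K) (f := fun x y' => (if x + r + y0 + y' = 0 then 0 else
        f (x * r * (x + r + y0 + y')⁻¹)
          (y0 * y' * (x + r + y0 + y')⁻¹ - x * r * (x + r + y0 + y')⁻¹)))]
  refine Fintype.sum_equiv (Equiv.subRight r) _ _ fun y1 => ?_
  refine Fintype.sum_equiv (Equiv.subRight (r + y0 + (y1 - r))) _ _ fun S => ?_
  have h : (Equiv.subRight (r + y0 + (y1 - r))) S + r + y0 + (Equiv.subRight r) y1 = S := by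
    show S - (r + y0 + (y1 - r)) + r + y0 + (y1 - r) = S
    ring
  rw [h]
  by_cases hS : S = 0
  · rw [if_pos hS, if_pos hS]
  · rw [if_neg hS, if_neg hS]
    have e1 : (Equiv.subRight (r + y0 + (y1 - r))) S * r * S⁻¹ = r - S⁻¹ * (y0 + y1) * r := by
      show (S - (r + y0 + (y1 - r))) * r * S⁻¹ = _
      field_simp
      ring
    have e2 : y0 * (Equiv.subRight r) y1 * S⁻¹ - (r - S⁻¹ * (y0 + y1) * r) =
        -r + S⁻¹ * ((y0 + r) * y1) := by
      show y0 * (y1 - r) * S⁻¹ - _ = _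
      ring
    rw [e1, e2]

/-- MODULE ROE.

Proof.  `R H2 B = ∑ r, R (cf r (-r)) B`, `R_C` with `Q = mt r (-r)` (the only nonzero entries are `Q 1 3 = Q 3 1 = r`):
`gv Q y0 y1 = ![y0, -y1, 0, -r]`.  The `G` part is `Bx B` (definition).  The arguments of `cf` are
`r - S⁻¹ (y0 + y1) r` and `-r + S⁻¹ (y0 + r) y1`.  Substitute `y1 = y' + r` and `x = S - y0 - y' - r`, i.e. `S = x + r +
y0 + y'`: the arguments become `κ = x r S⁻¹` and `y0 y' S⁻¹ - κ` (check by `field_simp; ring` for `S ≠ 0`).  Now `cnt` for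
`f κ κ' = cf κ (κ' - κ) B`: `∑ κ, ∑ κ', f κ κ' = PI B`, `∑ κ', f 0 κ' = H1 B`, `∑ κ, f κ 0 = H2 B`, `∑ κ, f κ κ = H3 B`,
`f 0 0 = cf 0 0 B`. -/
theorem R_H2 (B : Set (Pt K)) :
    R H2 B = (qK K ^ 2 - 3 * qK K + 4) * PI B + (qK K ^ 2 - 2 * qK K) * (H1 B + H2 B) - qK K * H3 B +
      qK K ^ 2 * cf 0 0 B + Bx B := by
  classical
  have h1 : R H2 B = ∑ r : K, R (cf r (-r)) B := R_sum Finset.univ (fun r : K => cf r (-r)) B
  rw [h1]
  simp only [ROE_R, Finset.sum_add_distrib]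
  have h2 : ∑ r : K, ∑ y0 : K, ∑ y1 : K, ∑ S : K, (if S = 0 then 0 else
        cf (r - S⁻¹ * (y0 + y1) * r) (-r + S⁻¹ * ((y0 + r) * y1)) B) =
      (qK K ^ 2 - 3 * qK K + 4) * PI B + (qK K ^ 2 - 2 * qK K) * (H1 B + H2 B) - qK K * H3 B +
      qK K ^ 2 * cf 0 0 B := by
    have h3 := cnt (fun κ κ' : K => cf κ (κ' - κ) B)
    have h4 : ∑ κ : K, ∑ κ' : K, cf κ (κ' - κ) B = PI B := by
      unfold PI
      refine Finset.sum_congr rfl fun κ _ => ?_
      exact Fintype.sum_equiv (Equiv.subRight κ) _ _ fun _ => rfl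
    have h5 : ∑ κ' : K, cf 0 (κ' - 0) B = H1 B := by
      unfold H1
      refine Finset.sum_congr rfl fun κ _ => ?_
      rw [sub_zero]
    have h6 : ∑ κ : K, cf κ (0 - κ) B = H2 B := by
      unfold H2
      refine Finset.sum_congr rfl fun κ _ => ?_
      rw [zero_sub]
    have h7 : ∑ κ : K, cf κ (κ - κ) B = H3 B := by
      unfold H3
      refine Finset.sum_congr rfl fun κ _ => ?_
      rw [sub_self]
    have h8 : cf (0 : K) (0 - 0) B = cf 0 0 B := by rw [sub_zero]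
    have h9 : ∑ r : K, ∑ y0 : K, ∑ y1 : K, ∑ S : K, (if S = 0 then 0 else
        cf (r - S⁻¹ * (y0 + y1) * r) (-r + S⁻¹ * ((y0 + r) * y1)) B) =
        ∑ x : K, ∑ r : K, ∑ y : K, ∑ y' : K, (if x + r + y + y' = 0 then 0 else
        (fun κ κ' : K => cf κ (κ' - κ) B) (x * r * (x + r + y + y')⁻¹)
          (y * y' * (x + r + y + y')⁻¹)) :=
      (Finset.sum_congr rfl fun r _ => ROE_sub (fun κ β => cf κ β B) r).trans Finset.sum_comm
    rw [h9, h3]
    have h10 : (∑ κ : K, ∑ κ' : K, (fun κ κ' : K => cf κ (κ' - κ) B) κ κ') = PI B := h4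
    have h11 : (∑ κ' : K, (fun κ κ' : K => cf κ (κ' - κ) B) 0 κ') = H1 B := h5
    have h12 : (∑ κ : K, (fun κ κ' : K => cf κ (κ' - κ) B) κ 0) = H2 B := h6
    have h13 : (∑ κ : K, (fun κ κ' : K => cf κ (κ' - κ) B) κ κ) = H3 B := h7
    rw [h10, h11, h12, h13, h8]
  rw [h2]
  unfold Bx
  ring

private theorem ROF_eq (r y : K) (B : Set (Pt K)) :
    G ![y, y, 0, -r] (mt r (-r)) B = G ![0, 0, -y, -r - y] 0 B := by
  have h2 : G ![0, 0, -y, -r - y] 0 B = G ![y, y, 0, -r] 0 B := by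
    refine G_shift ![y, y, 0, -r] ![0, 0, -y, -r - y] (-y) (fun k => ?_) 0 0 0 0 0 0 0 (fun k l => ?_) B
    · fin_cases k
      · show (0 : K) = y + -y
        ring
      · show (0 : K) = y + -y
        ring
      · show -y = 0 + -y
        ring
      · show -r - y = -r + -y
        ring
    · simp
  rw [h2]
  by_cases hy : y = 0
  · subst hy
    by_cases hr : r = 0
    · subst hr
      rw [G_const, G_const]
      · refine ⟨0, fun k => ?_⟩
        fin_cases k <;> simp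
      · refine ⟨0, fun k => ?_⟩
        fin_cases k <;> simp
    · refine G_shift ![0, 0, 0, -r] ![0, 0, 0, -r] 0 (fun k => (add_zero _).symm) 0 (mt r (-r))
        0 0 0 ![0, -1, 0, 0] ![0, -1, 0, 0] (fun k l => ?_) B
      fin_cases k <;> fin_cases l <;> simp [mt]
  · refine G_shift ![y, y, 0, -r] ![y, y, 0, -r] 0 (fun k => (add_zero _).symm) 0 (mt r (-r))
      ![-y, y, -y, y + 2 * (r * ((r + y) / y))] ![0, 0, y, 0] ![-y, -y, 0, -y] ![1, 0, 0, (r + y) / y]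
      ![1, 0, 0, (r + y) / y] (fun k l => ?_) B
    have h3 : y * ((r + y) / y) = r + y := mul_div_cancel₀ _ hy
    have h4 : (r + y) / y * y = r + y := div_mul_cancel₀ _ hy
    fin_cases k <;> fin_cases l <;> simp [mt, h3, h4] <;> ring

/-- MODULE ROF.

Proof.  Let `φ = ![y, y, 0, -r]`.  If `y ≠ 0`, then `G φ (mt r (-r)) B = G φ 0 B` by `G_shift` with `φ' = φ`, `c = 0`,
`w = ![0, 0, y, 0]`, `w' = ![-y, -y, 0, -y]`, `u = u' = ![1, 0, 0, (r + y) / y]` and suitable `d`.  Off the diagonal,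
`w l + w' k + φ k * u l + u k * φ l` is: `(0,1)`: `0 - y + 0 + y = 0`, `(1,0)`: `0 - y + y + 0 = 0`; `(0,2)`: `y - y = 0`,
`(2,0)`: `0 + 0 + 0 + 0 = 0`; `(0,3)`: `0 - y + (r + y) - r = 0`, `(3,0)`: `0 - y - r + (r + y) = 0`; `(1,2)`: `y - y = 0`,
`(2,1)`: `0`; `(1,3)`: `0 - y + (r + y) + 0 = r`, `(3,1)`: `0 - y + 0 + (r + y) = r`; `(2,3)`: `0`,
`(3,2)`: `y - y = 0`.  If `y = 0` and `r ≠ 0`: `u = u' = ![0, -1, 0, 0]`, `w = w' = 0`.  If `y = r = 0`, `φ` is constant and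
both sides are `0`.  Again by `G_shift`, `G φ 0 B = G ![0, 0, -y, -r - y] 0 B` (`c = -y`).  Finally substitute
`a = -y`, `b = -r - y`. -/
theorem sum_G_yy (B : Set (Pt K)) :
    ∑ r : K, ∑ y : K, G ![y, y, 0, -r] (mt r (-r)) B = Ps01 B := by
  simp only [ROF_eq]
  rw [Finset.sum_comm]
  unfold Ps01
  refine Fintype.sum_equiv (Equiv.neg K) _ _ fun y => ?_
  refine Fintype.sum_equiv ((Equiv.neg K).trans (Equiv.subRight y)) _ _ fun r => ?_
  rfl

private theorem ROG_R (r y0 y1 : K) (h : y0 + y1 ≠ 0) (B : Set (Pt K)) :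
    R (G ![y0, -y1, 0, -r] (mt r (-r))) B = ∑ b0 : K, ∑ b1 : K, ∑ s : K,
      cf (0 + -(r * (y0 + y1)⁻¹) * b0 + -(r * (y0 + y1)⁻¹) * b1 + (y0 + y1) * r * s)
        (-r + (y0 + y1)⁻¹ * r * y1 + (y0 + y1)⁻¹ * y1 * b0 + (y0 + y1)⁻¹ * (y0 + r) * b1 +
          -((y0 + r) * y1) * s) B := by
  have h0 : (![y0, -y1, 0, -r] : Fin 4 → K) 0 - (![y0, -y1, 0, -r] : Fin 4 → K) 1 ≠ 0 := by
    show y0 - -y1 ≠ 0
    rwa [sub_neg_eq_add]
  rw [R_G ![y0, -y1, 0, -r] (mt r (-r)) (mt_symm r (-r)) h0 B]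
  refine Finset.sum_congr rfl fun b0 _ => Finset.sum_congr rfl fun b1 _ =>
    Finset.sum_congr rfl fun s _ => ?_
  rw [RO_gv, al_mt, be_mt]
  have e1 : r - ((![y0, -y1, 0, -r] : Fin 4 → K) 0 - (![y0, -y1, 0, -r] : Fin 4 → K) 1)⁻¹ *
      (((![b0, -b1, 0, -r] : Fin 4 → K) 0 - (![b0, -b1, 0, -r] : Fin 4 → K) 1) *
        ((![y0, -y1, 0, -r] : Fin 4 → K) 2 - (![y0, -y1, 0, -r] : Fin 4 → K) 3) +
        ((![y0, -y1, 0, -r] : Fin 4 → K) 0 - (![y0, -y1, 0, -r] : Fin 4 → K) 1) *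
        ((![b0, -b1, 0, -r] : Fin 4 → K) 2 - (![b0, -b1, 0, -r] : Fin 4 → K) 3)) +
      s * (((![y0, -y1, 0, -r] : Fin 4 → K) 0 - (![y0, -y1, 0, -r] : Fin 4 → K) 1) *
        ((![y0, -y1, 0, -r] : Fin 4 → K) 2 - (![y0, -y1, 0, -r] : Fin 4 → K) 3)) =
      0 + -(r * (y0 + y1)⁻¹) * b0 + -(r * (y0 + y1)⁻¹) * b1 + (y0 + y1) * r * s := by
    show r - (y0 - -y1)⁻¹ * ((b0 - -b1) * (0 - -r) + (y0 - -y1) * (0 - -r)) +
      s * ((y0 - -y1) * (0 - -r)) = _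
    rw [sub_neg_eq_add]
    field_simp
    ring
  have e2 : -r - ((![y0, -y1, 0, -r] : Fin 4 → K) 0 - (![y0, -y1, 0, -r] : Fin 4 → K) 1)⁻¹ *
      (((![b0, -b1, 0, -r] : Fin 4 → K) 0 - (![b0, -b1, 0, -r] : Fin 4 → K) 3) *
        ((![y0, -y1, 0, -r] : Fin 4 → K) 1 - (![y0, -y1, 0, -r] : Fin 4 → K) 2) +
        ((![y0, -y1, 0, -r] : Fin 4 → K) 0 - (![y0, -y1, 0, -r] : Fin 4 → K) 3) *
        ((![b0, -b1, 0, -r] : Fin 4 → K) 1 - (![b0, -b1, 0, -r] : Fin 4 → K) 2)) +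
      s * (((![y0, -y1, 0, -r] : Fin 4 → K) 0 - (![y0, -y1, 0, -r] : Fin 4 → K) 3) *
        ((![y0, -y1, 0, -r] : Fin 4 → K) 1 - (![y0, -y1, 0, -r] : Fin 4 → K) 2)) =
      -r + (y0 + y1)⁻¹ * r * y1 + (y0 + y1)⁻¹ * y1 * b0 + (y0 + y1)⁻¹ * (y0 + r) * b1 +
          -((y0 + r) * y1) * s := by
    show -r - (y0 - -y1)⁻¹ * ((b0 - -r) * (-y1 - 0) + (y0 - -r) * (-b1 - 0)) +
      s * ((y0 - -r) * (-y1 - 0)) = _
    rw [sub_neg_eq_add]
    ring
  rw [e1, e2]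

open Classical in
/-- MODULE ROG.

Proof.  `R_G` with `φ = ![y0, -y1, 0, -r]`, `Q = mt r (-r)` (only `Q 1 3 = Q 3 1 = r`), `δ = y0 + y1`, new variables
`b0`, `b1`, `s`, `gv Q b0 b1 = ![b0, -b1, 0, -r]`.  The arguments of `cf` are
`α = -(b0 + b1) r / δ + s δ r` (the constant terms `r - r` cancel) and
`β = -r + ((b0 + r) y1 + (y0 + r) b1) / δ - s (y0 + r) y1`.
(i) `r = 0`: `α = 0`, `β = (b0 y1 + y0 b1) / δ - s y0 y1`, `lin1` (`y0 ≠ 0` or `y1 ≠ 0`): `q² H1`.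
(ii) `r ≠ 0`, `(y0, y1) = (0, r)`: `δ = r`, `α = -(b0 + b1) + s r²`, `β = -α`: `lin1` with `f κ = cf κ (-κ) B`: `q² H2`.
(iii) `r ≠ 0`, `(y0, y1) = (-r, 0)`: `δ = -r`, `α = b0 + b1 - s r²`, `β = -r`: `lin1` with `f κ = cf κ (-r) B`.
(iv) otherwise `lin2`: the coefficients of `b0`, `b1`, `s` are `(-r/δ, -r/δ, δ r)` and `(y1/δ, (y0 + r)/δ,
-(y0 + r) y1)`, with the minors `(r/δ²) (y1 - y0 - r)`, `r y1 (r - y1)/δ`, `-r (y0 + r) y0/δ`.  If all three vanish, then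
`y1 = y0 + r` and `(y0 + r) y0 = 0`, so we are in case (ii) or (iii). -/
theorem R_G_box (r y0 y1 : K) (h : y0 + y1 ≠ 0) (B : Set (Pt K)) :
    R (G ![y0, -y1, 0, -r] (mt r (-r))) B = if r = 0 then qK K ^ 2 * H1 B else
      if y0 = 0 ∧ y1 = r then qK K ^ 2 * H2 B else
      if y0 = -r ∧ y1 = 0 then qK K ^ 2 * ∑ α : K, cf α (-r) B else qK K * PI B := by
  rw [ROG_R r y0 y1 h B]
  by_cases hr : r = 0
  · subst hr
    rw [if_pos rfl]
    have hy : y0 ≠ 0 ∨ y1 ≠ 0 := by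
      by_contra hc
      push Not at hc
      rw [hc.1, hc.2, add_zero] at h
      exact h rfl
    have h1 := lin1 (fun κ => cf 0 κ B) 0 ((y0 + y1)⁻¹ * y1) ((y0 + y1)⁻¹ * y0) (-(y0 * y1)) (by
      rcases hy with hy | hy
      · exact Or.inr (Or.inl (mul_ne_zero (inv_ne_zero h) hy))
      · exact Or.inl (mul_ne_zero (inv_ne_zero h) hy))
    unfold H1
    rw [← h1]
    refine Finset.sum_congr rfl fun b0 _ => Finset.sum_congr rfl fun b1 _ =>
      Finset.sum_congr rfl fun s _ => ?_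
    exact congrArg₂ (fun a b : K => cf a b B) (by ring) (by ring)
  rw [if_neg hr]
  by_cases h2 : y0 = 0 ∧ y1 = r
  · rw [if_pos h2]
    obtain ⟨rfl, rfl⟩ := h2
    have h1 := lin1 (fun κ => cf κ (-κ) B) 0 (-1) (-1) (y1 * y1) (Or.inl (neg_ne_zero.2 one_ne_zero))
    unfold H2
    rw [← h1]
    refine Finset.sum_congr rfl fun b0 _ => Finset.sum_congr rfl fun b1 _ =>
      Finset.sum_congr rfl fun s _ => ?_
    refine congrArg₂ (fun a b : K => cf a b B) ?_ ?_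
    · rw [zero_add y1]
      field_simp
    · rw [zero_add y1]
      field_simp
      ring
  rw [if_neg h2]
  by_cases h3 : y0 = -r ∧ y1 = 0
  · rw [if_pos h3]
    obtain ⟨rfl, rfl⟩ := h3
    have h1 := lin1 (fun κ => cf κ (-r) B) 0 1 1 (-(r * r)) (Or.inl one_ne_zero)
    rw [← h1]
    refine Finset.sum_congr rfl fun b0 _ => Finset.sum_congr rfl fun b1 _ =>
      Finset.sum_congr rfl fun s _ => ?_
    refine congrArg₂ (fun a b : K => cf a b B) ?_ ?_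
    · rw [add_zero (-r)]
      field_simp
    · rw [add_zero (-r)]
      ring
  rw [if_neg h3]
  have h1 := lin2 (fun α β => cf α β B) 0 (-(r * (y0 + y1)⁻¹)) (-(r * (y0 + y1)⁻¹)) ((y0 + y1) * r)
    (-r + (y0 + y1)⁻¹ * r * y1) ((y0 + y1)⁻¹ * y1) ((y0 + y1)⁻¹ * (y0 + r)) (-((y0 + r) * y1)) (by
      by_contra hc
      push Not at hc
      obtain ⟨c1, c2, c3⟩ := hc
      have d1 : y1 = y0 + r := by
        have e : (r * (y0 + y1)⁻¹ * (y0 + y1)⁻¹) * (y1 - (y0 + r)) = 0 := by linear_combination c1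
        rcases mul_eq_zero.1 e with e | e
        · exact absurd e (mul_ne_zero (mul_ne_zero hr (inv_ne_zero h)) (inv_ne_zero h))
        · exact sub_eq_zero.1 e
      have d3 : (y0 + r) * y0 = 0 := by
        have e : (r * (y0 + y1)⁻¹) * ((y0 + r) * y0) = 0 := by
          linear_combination -c3
        rcases mul_eq_zero.1 e with e | e
        · exact absurd e (mul_ne_zero hr (inv_ne_zero h))
        · exact e
      rcases mul_eq_zero.1 d3 with e | e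
      · exact h3 ⟨eq_neg_of_add_eq_zero_left e, by rw [d1, e]⟩
      · exact h2 ⟨e, by rw [d1, e, zero_add]⟩)
  exact h1

/-- MODULE ROH.

Proof.  `R Bx B = ∑ r, ∑ y0, ∑ y1, R (G ![y0, -y1, 0, -r] (mt r (-r))) B` (`R_sum`).  The terms with `y0 + y1 = 0`, i.e.
`y1 = -y0`, sum up to `R` of `∑ r, ∑ y, G ![y, y, 0, -r] (mt r (-r))`, which is `R Ps01 B` by `sum_G_yy`.  The other terms:
`R_G_box` and `cnt3`, with `∑ r, ∑ α, cf α (-r) B = PI B` and `∑ α, cf α (-0) B = H3 B`. -/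
theorem R_Bx (B : Set (Pt K)) :
    R Bx B = qK K * (qK K - 1) * (qK K - 2) * (qK K + 1) * PI B + qK K ^ 3 * (qK K - 1) * H1 B +
      qK K ^ 2 * (qK K - 1) * H2 B + qK K ^ 2 * (PI B - H3 B) + R Ps01 B := by
  classical
  have h1 : R Bx B = ∑ r : K, ∑ y0 : K, ∑ y1 : K, R (G ![y0, -y1, 0, -r] (mt r (-r))) B := by
    have e1 : R Bx B = ∑ r : K, R (fun B => ∑ y0 : K, ∑ y1 : K, G ![y0, -y1, 0, -r] (mt r (-r)) B) B :=
      R_sum Finset.univ (fun (r : K) (B : Set (Pt K)) => ∑ y0 : K, ∑ y1 : K,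
        G ![y0, -y1, 0, -r] (mt r (-r)) B) B
    rw [e1]
    refine Finset.sum_congr rfl fun r _ => ?_
    rw [R_sum Finset.univ (fun (y0 : K) (B : Set (Pt K)) => ∑ y1 : K,
        G ![y0, -y1, 0, -r] (mt r (-r)) B) B]
    refine Finset.sum_congr rfl fun y0 _ => ?_
    exact R_sum Finset.univ (fun (y1 : K) (B : Set (Pt K)) => G ![y0, -y1, 0, -r] (mt r (-r)) B) B
  have h2 : R Ps01 B = ∑ r : K, ∑ y : K, R (G ![y, y, 0, -r] (mt r (-r))) B := by
    have e0 : (Ps01 : Set (Pt K) → ℤ) = fun B => ∑ r : K, ∑ y : K, G ![y, y, 0, -r] (mt r (-r)) B := by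
      funext B
      exact (sum_G_yy B).symm
    rw [e0]
    rw [R_sum Finset.univ (fun (r : K) (B : Set (Pt K)) => ∑ y : K, G ![y, y, 0, -r] (mt r (-r)) B) B]
    refine Finset.sum_congr rfl fun r _ => ?_
    exact R_sum Finset.univ (fun (y : K) (B : Set (Pt K)) => G ![y, y, 0, -r] (mt r (-r)) B) B
  have h3 : ∀ r y0 : K, ∑ y1 : K, R (G ![y0, -y1, 0, -r] (mt r (-r))) B =
      R (G ![y0, y0, 0, -r] (mt r (-r))) B + ∑ y1 : K, (if y0 + y1 = 0 then 0 else if r = 0 then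
      qK K ^ 2 * H1 B else if y0 = 0 ∧ y1 = r then qK K ^ 2 * H2 B else
      if y0 = -r ∧ y1 = 0 then qK K ^ 2 * ∑ α : K, cf α (-r) B else qK K * PI B) := by
    intro r y0
    rw [← Finset.add_sum_erase Finset.univ (fun y1 => R (G ![y0, -y1, 0, -r] (mt r (-r))) B)
      (Finset.mem_univ (-y0)), ← Finset.add_sum_erase Finset.univ (fun y1 => (if y0 + y1 = 0 then 0 else
      if r = 0 then qK K ^ 2 * H1 B else if y0 = 0 ∧ y1 = r then qK K ^ 2 * H2 B else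
      if y0 = -r ∧ y1 = 0 then qK K ^ 2 * ∑ α : K, cf α (-r) B else qK K * PI B))
      (Finset.mem_univ (-y0))]
    rw [if_pos (add_neg_cancel y0), zero_add, neg_neg]
    refine congrArg₂ (· + ·) rfl ?_
    refine Finset.sum_congr rfl fun y1 hy1 => ?_
    have h4 : y0 + y1 ≠ 0 := by
      intro h5
      exact (Finset.ne_of_mem_erase hy1) (eq_neg_of_add_eq_zero_right h5)
    rw [if_neg h4]
    exact R_G_box r y0 y1 h4 B
  rw [h1, h2]
  simp only [h3, Finset.sum_add_distrib]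
  have h4 := cnt3 (qK K ^ 2 * H1 B) (qK K ^ 2 * H2 B) (qK K * PI B)
    (fun r : K => qK K ^ 2 * ∑ α : K, cf α (-r) B)
  rw [h4]
  have h5 : ∑ r : K, qK K ^ 2 * ∑ α : K, cf α (-r) B = qK K ^ 2 * PI B := by
    rw [← Finset.mul_sum]
    refine congrArg (fun z : ℤ => qK K ^ 2 * z) ?_
    unfold PI
    rw [Finset.sum_comm]
    refine Finset.sum_congr rfl fun α _ => ?_
    exact Fintype.sum_equiv (Equiv.neg K) _ _ fun _ => rfl
  have h6 : ∑ α : K, cf α (-0) B = H3 B := by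
    unfold H3
    rw [neg_zero]
  rw [h5, h6]
  ring

/-- The identity: the vertex of degree four in terms of cubic networks. -/
theorem main_identity (B : Set (Pt K)) :
    qK K ^ 3 * (qK K - 1) * cf 0 0 B = R (R H2) B - (qK K ^ 2 - 3 * qK K + 4) * R PI B -
      (qK K ^ 2 - 2 * qK K) * (R H1 B + R H2 B) + qK K * R H3 B - qK K ^ 2 * (qK K - 1) ^ 2 * H1 B -
      qK K ^ 2 * Ps B - qK K * (qK K - 1) * (qK K - 2) * (qK K + 1) * PI B -
      qK K ^ 3 * (qK K - 1) * H1 B - qK K ^ 2 * (qK K - 1) * H2 B - qK K ^ 2 * (PI B - H3 B) -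
      R Ps01 B := by
  have h1 : R (R H2) B = (qK K ^ 2 - 3 * qK K + 4) * R PI B + (qK K ^ 2 - 2 * qK K) * (R H1 B + R H2 B) -
      qK K * R H3 B + qK K ^ 2 * R (cf 0 0) B + R Bx B := by
    have h2 : R H2 = fun B : Set (Pt K) => (((((qK K ^ 2 - 3 * qK K + 4) * PI B +
        (qK K ^ 2 - 2 * qK K) * (H1 B + H2 B)) + (-qK K) * H3 B) +
        qK K ^ 2 * cf 0 0 B) + Bx B) := by
      funext B
      rw [R_H2]
      ring
    rw [h2, R_add, R_add, R_add, R_add, R_smul, R_smul, R_smul, R_smul, R_add]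
    rw [← h2]
    ring
  rw [h1, R_c00, R_Bx]
  ring

end Pool.Agent.P3
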